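import Pool.Agent.Lib.MP_263316_co.SWK.Spec

/-!
# Elementary symmetric functions with integer index: splitting off one variable
-/

set_option autoImplicit false

namespace Pool.Agent.SWK

open Finset Pool.Agent.SWC

namespace ESZaux

theorem es_eq {R : Type} [CommRing R] {N : ℕ} (x : Fin N → R) (d : ℕ) :
    es x d = ((univ : Finset (Fin N)).val.map x).esymm d := by
  unfold es
  rw [Finset.esymm_map_val]

theorem esymm_cons {R : Type} [CommRing R] (a : R) (s : Multiset R) (d : ℕ) :
    (a ::ₘ s).esymm (d + 1) = s.esymm (d + 1) + a * s.esymm d := by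
  unfold Multiset.esymm
  rw [Multiset.powersetCard_cons, Multiset.map_add, Multiset.sum_add, Multiset.map_map]
  congr 1
  rw [← Multiset.sum_map_mul_left]
  congr 1
  refine Multiset.map_congr rfl fun t _ => ?_
  simp

theorem univ_map {R : Type} {N : ℕ} (x : Fin (N + 1) → R) :
    ((univ : Finset (Fin (N + 1))).val.map x) =
      x 0 ::ₘ ((univ : Finset (Fin N)).val.map (fun k => x k.succ)) := by
  rw [Fin.univ_succ]
  simp only [Finset.cons_val, Multiset.map_cons, Finset.map_val, Multiset.map_map]
  rfl

theorem es_succ {R : Type} [CommRing R] {N : ℕ} (x : Fin (N + 1) → R) (d : ℕ) :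
    es x (d + 1) = es (fun k => x k.succ) (d + 1) + x 0 * es (fun k => x k.succ) d := by
  rw [es_eq, es_eq, es_eq, univ_map, esymm_cons]

theorem es_zero {R : Type} [CommRing R] {N : ℕ} (x : Fin N → R) : es x 0 = 1 := by
  unfold es
  simp

theorem es_empty {R : Type} [CommRing R] (x : Fin 0 → R) (d : ℕ) : es x (d + 1) = 0 := by
  unfold es
  rw [Finset.powersetCard_eq_empty.mpr (by simp), Finset.sum_empty]

end ESZaux

open ESZaux

theorem tESZ : S_ESZ := by
  refine ⟨?_, ?_, ?_⟩
  · intro R _ N x c
    rcases lt_trichotomy c 0 with hc | hc | hc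
    · unfold esz
      rw [if_pos hc, if_pos hc, if_pos (by omega)]
      ring
    · subst hc
      unfold esz
      rw [if_neg (by norm_num), if_neg (by norm_num), if_pos (by norm_num)]
      simp [es_zero]
    · obtain ⟨d, rfl⟩ : ∃ d : ℕ, c = (d : ℤ) + 1 := ⟨(c - 1).toNat, by omega⟩
      unfold esz
      rw [if_neg (by omega), if_neg (by omega), if_neg (by omega)]
      have h1 : ((d : ℤ) + 1).toNat = d + 1 := by omega
      have h2 : ((d : ℤ) + 1 - 1).toNat = d := by omega
      rw [h1, h2, es_succ]
  · intro R _ x c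
    rcases lt_trichotomy c 0 with hc | hc | hc
    · unfold esz
      rw [if_pos hc, if_neg (by omega)]
    · subst hc
      unfold esz
      rw [if_neg (by norm_num), if_pos rfl]
      simp [es_zero]
    · obtain ⟨d, rfl⟩ : ∃ d : ℕ, c = (d : ℤ) + 1 := ⟨(c - 1).toNat, by omega⟩
      unfold esz
      have h1 : ((d : ℤ) + 1).toNat = d + 1 := by omega
      rw [if_neg (by omega), if_neg (by omega), h1, es_empty]
  · intro R _ m q x U
    unfold XX
    split_ifs with h
    · rw [h, Z_empty]
    · obtain ⟨v, hv⟩ := Finset.nonempty_iff_ne_empty.mpr h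
      rw [Z_erase hv]
      simp

end Pool.Agent.SWK
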