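import Pool.Agent.Lib.MP_263316_co.SWK.Spec

/-!
MP_263316_co (Shareshian-Wachs), project SWK: task EXC (exponents).
-/

set_option autoImplicit false

namespace Pool.Agent.SWK

open Finset Pool.Agent.SWC

namespace EXCaux

theorem aL_union (m : ℕ → ℕ) {A T : Finset ℕ} (h : Disjoint A T) (v : ℕ) :
    aL m (A ∪ T) v = aL m A v + aL m T v := by
  unfold aL
  rw [Finset.filter_union, Finset.card_union_of_disjoint]
  exact Finset.disjoint_filter_filter h

/-- double counting of the edges from `T` to the right into `A` -/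
theorem double (m : ℕ → ℕ) (A T : Finset ℕ) :
    ∑ v ∈ A, aL m T v = ∑ v ∈ T, aR m A v := by
  unfold aL aR
  simp only [Finset.card_filter]
  rw [Finset.sum_comm]

theorem sum_split (U : Finset ℕ) {A T : Finset ℕ} (hT : T ⊆ U) (h : Disjoint A T)
    (f : ℕ → ℕ) : ∑ v ∈ U \ A, f v = ∑ v ∈ U \ (A ∪ T), f v + ∑ v ∈ T, f v := by
  have h1 : U \ A = (U \ (A ∪ T)) ∪ T := by
    ext v
    simp only [Finset.mem_sdiff, Finset.mem_union]
    constructor
    · rintro ⟨h1, h2⟩
      by_cases h3 : v ∈ T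
      · exact Or.inr h3
      · exact Or.inl ⟨h1, fun h4 => h4.elim h2 h3⟩
    · rintro (⟨h1, h2⟩ | h1)
      · exact ⟨h1, fun h3 => h2 (Or.inl h3)⟩
      · exact ⟨hT h1, fun h3 => Finset.disjoint_left.mp h h3 h1⟩
  have h2 : Disjoint (U \ (A ∪ T)) T := by
    rw [Finset.disjoint_left]
    intro v h3 h4
    exact (Finset.mem_sdiff.mp h3).2 (Finset.mem_union_right _ h4)
  rw [h1, Finset.sum_union h2]

end EXCaux

open EXCaux in
theorem tEXC : S_EXC := by
  intro m U A T hA hT hd
  have e1 : (A ∪ T) \ T = A := by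
    rw [Finset.union_sdiff_right]
    exact Finset.sdiff_eq_self_of_disjoint hd
  have e2 : (U \ A) \ T = U \ (A ∪ T) := by
    ext v
    simp only [Finset.mem_sdiff, Finset.mem_union]
    tauto
  have e3 : (U \ T) \ A = U \ (A ∪ T) := by
    ext v
    simp only [Finset.mem_sdiff, Finset.mem_union]
    tauto
  have e4 : U \ (T ∪ A) = U \ (A ∪ T) := by rw [Finset.union_comm]
  have s1 := fun f : ℕ → ℕ => sum_split U hT hd f
  have s2 := fun f : ℕ → ℕ => sum_split U hA hd.symm f
  rw [e4] at s2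
  have d1 := double m A T
  have u1 : ∑ v ∈ U \ (A ∪ T), aL m (A ∪ T) v =
      ∑ v ∈ U \ (A ∪ T), aL m A v + ∑ v ∈ U \ (A ∪ T), aL m T v := by
    rw [← Finset.sum_add_distrib]
    exact Finset.sum_congr rfl fun v _ => aL_union m hd v
  refine ⟨?_, ?_, ?_⟩
  · unfold ea
    rw [e1, e2, s1, u1]
    omega
  · unfold ea
    rw [e1, e3, s2, u1, d1]
    omega
  · unfold ea eb
    rw [e2, e3, s1, s2, d1]
    omega

end Pool.Agent.SWK
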