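import Pool.Agent.Lib.MP_263316_co.SWK.Spec

/-!
# The base case `S = B`
-/

set_option autoImplicit false

namespace Pool.Agent.SWK

open Finset Pool.Agent.SWC

theorem tKB : S_KB := by
  intro K _ m q B a b
  rw [KS]
  have h : ∏ u ∈ B, (a u - b u) = ∏ u ∈ B, (-b u + a u) :=
    Finset.prod_congr rfl fun u _ => by ring
  rw [h, Finset.prod_add]
  refine Finset.sum_congr rfl fun P hP => ?_
  have hPB : P ⊆ B := Finset.mem_powerset.mp hP
  have h1 : P ∩ B = P := Finset.inter_eq_left.mpr hPB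
  have h2 : P \ B = ∅ := Finset.sdiff_eq_empty_iff_subset.mpr hPB
  have h3 : (B \ P) \ B = ∅ := Finset.sdiff_eq_empty_iff_subset.mpr Finset.sdiff_subset
  have h4 : ∏ i ∈ P, -b i = (-1) ^ P.card * ∏ i ∈ P, b i := by
    rw [← Finset.prod_const, ← Finset.prod_mul_distrib]
    exact Finset.prod_congr rfl fun u _ => by ring
  rw [PiR, h1, h2, h3, h4, Finset.prod_empty, Finset.prod_empty]
  ring

end Pool.Agent.SWK
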