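import Pool.Agent.Lib.MP_263316_co.SWK.Spec

/-!
MP_263316_co, project SWK, task KREC: the recursion for the last vertex.
-/

set_option autoImplicit false

namespace Pool.Agent.SWK

open Finset Pool.Agent.SWC

namespace KRECaux

lemma aL_ins (m : ℕ → ℕ) (S : Finset ℕ) (t v : ℕ) (hv : v ≤ t) :
    aL m (insert t S) v = aL m S v := by
  unfold aL
  rw [filter_insert]
  rw [if_neg]
  intro h
  omega

/-- geometric sum -/
lemma geo {K : Type} [Field K] (q : K) (n : ℕ) : (1 - q) * qn q n = 1 - q ^ n := by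
  unfold qn
  rw [mul_comm]
  exact geom_sum_mul_neg q n

/-- product over the upper part -/
def W {K : Type} [Field K] (m : ℕ → ℕ) (q : K) (B P : Finset ℕ) : K :=
  ∏ u ∈ P \ B, (q⁻¹ ^ aL m P u * qn q (aL m P u))

/-- one term of `KS` -/
def T {K : Type} [Field K] (m : ℕ → ℕ) (q : K) (B : Finset ℕ) (a b : ℕ → K)
    (S P : Finset ℕ) : K :=
  (-1) ^ (P ∩ B).card * (∏ u ∈ S \ P, a u) * (∏ u ∈ P, b u) * PiR m q B (S \ P) * W m q B P

lemma KS_eq {K : Type} [Field K] (m : ℕ → ℕ) (q : K) (B : Finset ℕ) (a b : ℕ → K)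
    (S : Finset ℕ) : KS m q B a b S = ∑ P ∈ S.powerset, T m q B a b S P := rfl

lemma PiR_ins {K : Type} [Field K] (m : ℕ → ℕ) (q : K) (B S : Finset ℕ) (t : ℕ) (ht : t ∉ B)
    (hS : ∀ u ∈ S, u < t) :
    PiR m q B (insert t S) = qn q (aL m S t) * PiR m q B S := by
  unfold PiR
  have htS : t ∉ S := fun h => lt_irrefl t (hS t h)
  rw [insert_sdiff_of_notMem S ht, prod_insert (fun h => htS (mem_sdiff.1 h).1)]
  rw [aL_ins m S t t le_rfl]
  congr 1
  refine prod_congr rfl fun v hv => ?_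
  rw [aL_ins m S t v (hS v (mem_sdiff.1 hv).1).le]

lemma W_ins {K : Type} [Field K] (m : ℕ → ℕ) (q : K) (B S : Finset ℕ) (t : ℕ) (ht : t ∉ B)
    (hS : ∀ u ∈ S, u < t) :
    W m q B (insert t S) = (q⁻¹ ^ aL m S t * qn q (aL m S t)) * W m q B S := by
  unfold W
  have htS : t ∉ S := fun h => lt_irrefl t (hS t h)
  rw [insert_sdiff_of_notMem S ht, prod_insert (fun h => htS (mem_sdiff.1 h).1)]
  rw [aL_ins m S t t le_rfl]
  congr 1
  refine prod_congr rfl fun v hv => ?_
  rw [aL_ins m S t v (hS v (mem_sdiff.1 hv).1).le]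

lemma T1 {K : Type} [Field K] (m : ℕ → ℕ) (q : K) (B : Finset ℕ) (a b : ℕ → K)
    (S P : Finset ℕ) (t : ℕ) (ht : t ∉ B) (hS : ∀ u ∈ S, u < t) (hP : P ⊆ S) :
    T m q B a b (insert t S) P = a t * qn q (aL m (S \ P) t) * T m q B a b S P := by
  have htS : t ∉ S := fun h => lt_irrefl t (hS t h)
  unfold T
  rw [insert_sdiff_of_notMem S (fun h => htS (hP h)),
    prod_insert (fun h => htS (mem_sdiff.1 h).1),
    PiR_ins m q B (S \ P) t ht (fun u hu => hS u (mem_sdiff.1 hu).1)]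
  ring

lemma T2 {K : Type} [Field K] (m : ℕ → ℕ) (q : K) (B : Finset ℕ) (a b : ℕ → K)
    (S P : Finset ℕ) (t : ℕ) (ht : t ∉ B) (hS : ∀ u ∈ S, u < t) (hP : P ⊆ S) :
    T m q B a b (insert t S) (insert t P) =
      b t * (q⁻¹ ^ aL m P t * qn q (aL m P t)) * T m q B a b S P := by
  have htS : t ∉ S := fun h => lt_irrefl t (hS t h)
  have htP : t ∉ P := fun h => htS (hP h)
  have e1 : insert t S \ insert t P = S \ P := by
    ext x
    simp only [mem_sdiff, mem_insert, not_or]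
    constructor
    · rintro ⟨h1 | h1, h2, h3⟩
      · exact absurd h1 h2
      · exact ⟨h1, h3⟩
    · rintro ⟨h1, h2⟩
      exact ⟨Or.inr h1, fun h => htS (h ▸ h1), h2⟩
  have e2 : insert t P ∩ B = P ∩ B := insert_inter_of_notMem ht
  unfold T
  rw [e1, e2, prod_insert htP, W_ins m q B P t ht (fun u hu => hS u (hP hu))]
  ring

lemma T3 {K : Type} [Field K] (m : ℕ → ℕ) (q : K) (B : Finset ℕ) (a b : ℕ → K)
    (S P : Finset ℕ) (t : ℕ) :
    T m q B (fun u => if u ∈ NL m S t then q * a u else a u) b S P =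
      q ^ aL m (S \ P) t * T m q B a b S P := by
  have e : (∏ u ∈ S \ P, (if u ∈ NL m S t then q * a u else a u)) =
      q ^ aL m (S \ P) t * ∏ u ∈ S \ P, a u := by
    have h1 : ∀ u ∈ S \ P, (if u ∈ NL m S t then q * a u else a u) =
        (if u < t ∧ t ≤ m u then q else 1) * a u := by
      intro u hu
      have hu1 : u ∈ S := (mem_sdiff.1 hu).1
      by_cases h : u < t ∧ t ≤ m u
      · have h' : u ∈ NL m S t := mem_filter.2 ⟨hu1, h⟩
        rw [if_pos h', if_pos h]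
      · have h' : u ∉ NL m S t := fun h2 => h (mem_filter.1 h2).2
        rw [if_neg h', if_neg h, one_mul]
    rw [prod_congr rfl h1, prod_mul_distrib]
    congr 1
    rw [← prod_filter, prod_const]
    rfl
  unfold T
  rw [e]
  ring

lemma aL_add (m : ℕ → ℕ) (S P : Finset ℕ) (t : ℕ) (hP : P ⊆ S) :
    aL m (S \ P) t + aL m P t = aL m S t := by
  unfold aL
  rw [← card_union_of_disjoint (disjoint_filter_filter sdiff_disjoint), ← filter_union,
    sdiff_union_of_subset hP]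

lemma key {K : Type} [Field K] (q : K) (hq : q ≠ 0) (n0 n1 L : ℕ) (h : n0 + n1 = L)
    (a b : K) :
    (1 - q) * (a * qn q n0 + b * (q⁻¹ ^ n1 * qn q n1)) =
      (a - b) - (a - q⁻¹ ^ L * b) * q ^ n0 := by
  subst h
  have h0 := geo q n0
  have h1 := geo q n1
  have h2 : q⁻¹ ^ n1 * q ^ n1 = 1 := by
    rw [← mul_pow, inv_mul_cancel₀ hq, one_pow]
  have h3 : q⁻¹ ^ n0 * q ^ n0 = 1 := by
    rw [← mul_pow, inv_mul_cancel₀ hq, one_pow]
  rw [pow_add]
  linear_combination a * h0 + b * q⁻¹ ^ n1 * h1 - b * h2 - b * q⁻¹ ^ n1 * h3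

end KRECaux

open KRECaux in
theorem tKREC : S_KREC := by
  intro K _ m q hq B S t a b ht hS
  have htS : t ∉ S := fun h => lt_irrefl t (hS t h)
  rw [KS_eq, KS_eq, KS_eq, sum_powerset_insert htS, ← sum_add_distrib, mul_sum, mul_sum,
    mul_sum, ← sum_sub_distrib]
  refine sum_congr rfl fun P hP => ?_
  have hP' : P ⊆ S := mem_powerset.1 hP
  rw [T1 m q B a b S P t ht hS hP', T2 m q B a b S P t ht hS hP', T3 m q B a b S P t]
  have hk := key q hq (aL m (S \ P) t) (aL m P t) (aL m S t) (aL_add m S P t hP') (a t) (b t)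
  linear_combination T m q B a b S P * hk

end Pool.Agent.SWK
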