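import Pool.Agent.Lib.MP_263316_co.SWK.Spec

/-!
MP_263316_co, project SWK: the closed formula if nothing is outside (`S_KU`).
-/

set_option autoImplicit false

namespace Pool.Agent.SWK

open Finset Pool.Agent.SWC

namespace KUaux

theorem KS_congr {K : Type} [Field K] (m : ℕ → ℕ) (q : K) (B S : Finset ℕ) (a a' b b' : ℕ → K)
    (ha : ∀ u ∈ S, a u = a' u) (hb : ∀ u ∈ S, b u = b' u) :
    KS m q B a b S = KS m q B a' b' S := by
  unfold KS
  refine Finset.sum_congr rfl fun P hP => ?_
  rw [Finset.mem_powerset] at hP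
  rw [Finset.prod_congr rfl (fun u hu => ha u (Finset.mem_sdiff.1 hu).1),
    Finset.prod_congr rfl (fun u hu => hb u (hP hu))]

theorem aL_insert (m : ℕ → ℕ) (S : Finset ℕ) (t u : ℕ) (h : u ≤ t) :
    aL m (insert t S) u = aL m S u := by
  unfold aL
  rw [Finset.filter_insert, if_neg (by omega)]

theorem PiR_insert {R : Type} [CommRing R] (m : ℕ → ℕ) (q : R) (B S : Finset ℕ) (t : ℕ)
    (htB : t ∉ B) (hS : ∀ u ∈ S, u < t) :
    PiR m q B (insert t S) = qn q (aL m S t) * PiR m q B S := by
  have htS : t ∉ S := fun h => lt_irrefl _ (hS t h)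
  unfold PiR
  rw [Finset.insert_sdiff_of_notMem _ htB, Finset.prod_insert (by simp [htS]),
    aL_insert m S t t le_rfl]
  congr 1
  refine Finset.prod_congr rfl fun v hv => ?_
  rw [aL_insert m S t v (hS v (Finset.mem_sdiff.1 hv).1).le]

/-- `NL` is a final segment. -/
theorem exists_final (m : ℕ → ℕ) (hm : Monotone m) (S : Finset ℕ) (t : ℕ) (hS : ∀ u ∈ S, u < t) :
    ∃ l : ℕ, ∀ u ∈ S, (l ≤ u ↔ u ∈ NL m S t) := by
  classical
  have key : ∀ u ∈ S, (u ∈ NL m S t ↔ t ≤ m u) := by
    intro u hu
    unfold NL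
    rw [Finset.mem_filter]
    exact ⟨fun h => h.2.2, fun h => ⟨hu, hS u hu, h⟩⟩
  by_cases h : ∃ n, t ≤ m n
  · refine ⟨Nat.find h, fun u hu => ?_⟩
    rw [key u hu]
    constructor
    · intro h1
      exact (Nat.find_spec h).trans (hm h1)
    · intro h1
      exact Nat.find_min' h h1
  · refine ⟨t, fun u hu => ?_⟩
    rw [key u hu]
    constructor
    · intro h1
      exact absurd (hS u hu) (not_lt.2 h1)
    · intro h1
      exact absurd ⟨u, h1⟩ h

theorem zp {K : Type} [Field K] (q : K) (hq : q ≠ 0) (n : ℕ) (c : ℤ) :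
    q ^ (((n + 1 : ℕ) : ℤ) + c) = q * q ^ ((n : ℤ) + c) := by
  rw [show (((n + 1 : ℕ) : ℤ) + c) = 1 + ((n : ℤ) + c) by push_cast; ring, zpow_one_add₀ hq]

theorem step (hR : S_KREC) {K : Type} [Field K] (m : ℕ → ℕ) (hm : Monotone m) (q : K) (hq : q ≠ 0)
    (hq1 : q ≠ 1) (B S : Finset ℕ) (t : ℕ) (c : ℤ) (Y : K) (htB : t ∉ B) (hS : ∀ u ∈ S, u < t)
    (ih : ∀ l : ℕ, KS m q B (fun u => if l ≤ u then q else 1) (wb m q B S c) S =
      PiR m q B S * Y * (q ^ (S.filter (fun v => l ≤ v)).card - q ^ ((S.card : ℤ) + c))) (l : ℕ) :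
    KS m q B (fun u => if l ≤ u then q else 1) (wb m q B (insert t S) c) (insert t S) =
      PiR m q B (insert t S) * Y *
        (q ^ ((insert t S).filter (fun v => l ≤ v)).card - q ^ (((insert t S).card : ℤ) + c)) := by
  have hq1' : 1 - q ≠ 0 := sub_ne_zero.2 (Ne.symm hq1)
  have htS : t ∉ S := fun h => lt_irrefl _ (hS t h)
  have hwt : wb m q B (insert t S) c t = q ^ (1 + aL m S t) := by
    unfold wb
    rw [if_neg htB, one_mul, aL_insert m S t t le_rfl]
  have hw : ∀ u ∈ S, wb m q B (insert t S) c u = wb m q B S c u := by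
    intro u hu
    unfold wb
    rw [aL_insert m S t u (hS u hu).le]
  have hinv : q⁻¹ ^ aL m S t * q ^ (1 + aL m S t) = q := by
    rw [pow_add, pow_one, mul_left_comm, ← mul_pow, inv_mul_cancel₀ hq, one_pow, mul_one]
  have hqn : (1 - q) * qn q (aL m S t) = 1 - q ^ aL m S t := mul_neg_geom_sum q _
  apply mul_left_cancel₀ hq1'
  have h0 := hR K m q hq B S t (fun u => if l ≤ u then q else 1) (wb m q B (insert t S) c) htB hS
  have h1 : KS m q B (fun u => if l ≤ u then q else 1) (wb m q B (insert t S) c) S =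
      KS m q B (fun u => if l ≤ u then q else 1) (wb m q B S c) S :=
    KS_congr _ _ _ _ _ _ _ _ (fun _ _ => rfl) hw
  rw [h0, h1, ih l, hwt, hinv, PiR_insert m q B S t htB hS, Finset.card_insert_of_notMem htS,
    zp q hq S.card c]
  by_cases hl : l ≤ t
  · have hFi : (insert t S).filter (fun v => l ≤ v) = insert t (S.filter (fun v => l ≤ v)) := by
      rw [Finset.filter_insert, if_pos hl]
    rw [hFi, Finset.card_insert_of_notMem (fun h => htS (Finset.mem_filter.1 h).1)]
    simp only [if_pos hl, sub_self, zero_mul, sub_zero]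
    generalize qn q (aL m S t) = A at *
    generalize PiR m q B S = P at *
    generalize q ^ ((S.card : ℤ) + c) = Q at *
    generalize (S.filter (fun v => l ≤ v)).card = f at *
    linear_combination (-(P * Y * (q * q ^ f - q * Q))) * hqn
  · have hF : S.filter (fun v => l ≤ v) = ∅ := by
      rw [Finset.filter_eq_empty_iff]
      intro u hu h
      have := hS u hu
      omega
    obtain ⟨l', hl'⟩ := exists_final m hm S t hS
    have h2 : KS m q B (fun u => if u ∈ NL m S t then q * (if l ≤ u then q else 1) else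
        (if l ≤ u then q else 1)) (wb m q B (insert t S) c) S =
        KS m q B (fun u => if l' ≤ u then q else 1) (wb m q B S c) S := by
      refine KS_congr _ _ _ _ _ _ _ _ (fun u hu => ?_) hw
      have h3 : ¬ l ≤ u := by
        have := hS u hu
        omega
      have h4 := hl' u hu
      simp only [if_neg h3, mul_one]
      by_cases h5 : u ∈ NL m S t
      · rw [if_pos h5, if_pos (h4.2 h5)]
      · rw [if_neg h5, if_neg (fun h => h5 (h4.1 h))]
    have h6 : (S.filter (fun v => l' ≤ v)).card = aL m S t := by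
      unfold aL
      congr 1
      refine Finset.filter_congr fun u hu => ?_
      rw [hl' u hu]
      unfold NL
      rw [Finset.mem_filter]
      exact ⟨fun h => h.2, fun h => ⟨hu, h⟩⟩
    have hFi : (insert t S).filter (fun v => l ≤ v) = ∅ := by
      rw [Finset.filter_insert, if_neg hl, hF]
    rw [h2, ih l', h6, hFi, hF, if_neg hl]
    simp only [Finset.card_empty, pow_zero]
    generalize qn q (aL m S t) = A at *
    generalize PiR m q B S = P at *
    generalize q ^ ((S.card : ℤ) + c) = Q at *
    linear_combination (-(P * Y * (1 - q * Q))) * hqn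

theorem base {K : Type} [Field K] (q : K) (hq : q ≠ 0) (c : ℤ) (l : ℕ) (B : Finset ℕ) :
    B.Nonempty → ∏ u ∈ B, ((if l ≤ u then q else 1) -
        q ^ c * q ^ (1 + (B.filter (fun v => v < u)).card)) =
      (∏ j ∈ range (B.card - 1), (1 - q ^ ((j : ℤ) + 1 + c))) *
      (q ^ (B.filter (fun v => l ≤ v)).card - q ^ ((B.card : ℤ) + c)) := by
  classical
  induction B using Finset.induction_on_max with
  | empty => intro h; exact absurd h (by simp)
  | insert t B hB ih =>
    intro _
    have htB : t ∉ B := fun h => lt_irrefl _ (hB t h)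
    have h1 : ∀ u ∈ B, (insert t B).filter (fun v => v < u) = B.filter (fun v => v < u) := by
      intro u hu
      rw [Finset.filter_insert, if_neg (not_lt.2 (hB u hu).le)]
    have h2 : (insert t B).filter (fun v => v < t) = B := by
      rw [Finset.filter_insert, if_neg (lt_irrefl t), Finset.filter_eq_self]
      exact hB
    rw [Finset.prod_insert htB, h2, Finset.prod_congr rfl (fun u hu => by rw [h1 u hu]),
      Finset.card_insert_of_notMem htB, zp q hq B.card c]
    have hQ : q ^ c * q ^ (1 + B.card) = q * q ^ ((B.card : ℤ) + c) := by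
      rw [zpow_add₀ hq, zpow_natCast]
      ring
    rw [hQ]
    rcases B.eq_empty_or_nonempty with hE | hN
    · subst hE
      by_cases hl : l ≤ t
      · simp [Finset.filter_singleton, hl]
      · simp [Finset.filter_singleton, hl]
    · obtain ⟨n, hn⟩ : ∃ n, B.card = n + 1 := ⟨B.card - 1, by have := hN.card_pos; omega⟩
      rw [ih hN, hn, Nat.add_sub_cancel, Nat.add_sub_cancel, Finset.prod_range_succ]
      have h3 : (1 - q ^ ((n : ℤ) + 1 + c)) = 1 - q ^ (((n + 1 : ℕ) : ℤ) + c) := by
        push_cast
        rfl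
      rw [h3]
      generalize q ^ (((n + 1 : ℕ) : ℤ) + c) = Q
      generalize ∏ j ∈ range n, (1 - q ^ ((j : ℤ) + 1 + c)) = Y
      by_cases hl : l ≤ t
      · have hFi : (insert t B).filter (fun v => l ≤ v) = insert t (B.filter (fun v => l ≤ v)) := by
          rw [Finset.filter_insert, if_pos hl]
        rw [hFi, if_pos hl, Finset.card_insert_of_notMem (fun h => htB (Finset.mem_filter.1 h).1)]
        ring
      · have hF : B.filter (fun v => l ≤ v) = ∅ := by
          rw [Finset.filter_eq_empty_iff]
          intro u hu h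
          have := hB u hu
          omega
        have hFi : (insert t B).filter (fun v => l ≤ v) = ∅ := by
          rw [Finset.filter_insert, if_neg hl, hF]
        rw [hFi, if_neg hl, hF]
        simp only [Finset.card_empty, pow_zero]
        ring

theorem main (hKB : S_KB) (hR : S_KREC) {K : Type} [Field K] (m : ℕ → ℕ) (hm : Monotone m) (q : K)
    (hq : q ≠ 0) (hq1 : q ≠ 1) (B : Finset ℕ) (c : ℤ) (hBn : B.Nonempty) : ∀ (n : ℕ)
    (S : Finset ℕ), S.card = n → Ini m B S → ∀ l : ℕ,
    KS m q B (fun u => if l ≤ u then q else 1) (wb m q B S c) S =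
      PiR m q B S * (∏ j ∈ range (B.card - 1), (1 - q ^ ((j : ℤ) + 1 + c))) *
        (q ^ (S.filter (fun v => l ≤ v)).card - q ^ ((S.card : ℤ) + c)) := by
  intro n
  induction n with
  | zero =>
    intro S hS hI l
    exfalso
    rw [Finset.card_eq_zero] at hS
    subst hS
    obtain ⟨x, hx⟩ := hBn
    exact absurd (hI.1 hx) (by simp)
  | succ n ih =>
    intro S hS hI l
    by_cases hSB : S = B
    · subst hSB
      rw [hKB]
      have h1 : PiR m q S S = 1 := by
        unfold PiR
        simp
      rw [h1, one_mul, ← base q hq c l S hBn]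
      refine Finset.prod_congr rfl fun u hu => ?_
      have h2 : aL m S u = (S.filter (fun v => v < u)).card := by
        unfold aL
        congr 1
        refine Finset.filter_congr fun v hv => ?_
        exact ⟨fun h => h.1, fun h => ⟨h, hI.2.2 v hv u hu h⟩⟩
      unfold wb
      rw [if_pos hu, h2]
    · have hSn : S.Nonempty := by
        rw [← Finset.card_pos, hS]
        omega
      have htS : S.max' hSn ∈ S := S.max'_mem hSn
      obtain ⟨t, ht⟩ : ∃ t, t = S.max' hSn := ⟨_, rfl⟩
      rw [← ht] at htS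
      have hlt : ∀ u ∈ S.erase t, u < t := by
        intro u hu
        rw [Finset.mem_erase] at hu
        exact lt_of_le_of_ne (ht ▸ S.le_max' u hu.2) hu.1
      have htB : t ∉ B := by
        intro h
        apply hSB
        apply Finset.Subset.antisymm _ hI.1
        intro u hu
        by_cases hut : u = t
        · rw [hut]; exact h
        · exact hI.2.1 t h u hu (hlt u (Finset.mem_erase.2 ⟨hut, hu⟩))
      have hI' : Ini m B (S.erase t) := by
        refine ⟨fun x hx => Finset.mem_erase.2 ⟨fun h => htB (h ▸ hx), hI.1 hx⟩, ?_, hI.2.2⟩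
        intro b hb u hu hub
        exact hI.2.1 b hb u (Finset.mem_of_mem_erase hu) hub
      have hc : (S.erase t).card = n := by
        rw [Finset.card_erase_of_mem htS, hS, Nat.add_sub_cancel]
      have h3 := step hR m hm q hq hq1 B (S.erase t) t c
        (∏ j ∈ range (B.card - 1), (1 - q ^ ((j : ℤ) + 1 + c))) htB hlt
        (ih (S.erase t) hc hI') l
      rw [Finset.insert_erase htS] at h3
      exact h3

end KUaux

theorem tKU : S_KU := by
  intro hKB hR K _ m hm q hq hq1 B S l c hBn hI _
  rw [← KUaux.main hKB hR m hm q hq hq1 B c hBn S.card S rfl hI l]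
  refine KUaux.KS_congr _ _ _ _ _ _ _ _ (fun u hu => ?_) (fun _ _ => rfl)
  by_cases h : l ≤ u
  · rw [if_pos h, if_pos (Finset.mem_filter.2 ⟨hu, h⟩)]
  · rw [if_neg h, if_neg (fun h' => h (Finset.mem_filter.1 h').2)]

end Pool.Agent.SWK
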