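import Pool.Agent.Lib.MP_263316_co.SWK.Spec

/-!
MP_263316_co, project SWK: task KUC (the closed formula for the empty final segment and `c = -|S|`).
-/

set_option autoImplicit false

namespace Pool.Agent.SWK

open Finset Pool.Agent.SWC

theorem tKUC : S_KUC := by
  intro hKB hKREC hKU K _ m hm q hq0 hq1 B S hB hini
  have hemp : S.filter (fun v => S.sup id + 1 ≤ v) = ∅ := by
    rw [Finset.filter_eq_empty_iff]
    intro v hv h
    have h1 : v ≤ S.sup id := Finset.le_sup (f := id) hv
    omega
  have h := hKU hKB hKREC K m hm q hq0 hq1 B S (S.sup id + 1) (-(S.card : ℤ)) hB hini (by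
    intro u hu
    rw [hemp] at hu
    exact absurd hu (Finset.notMem_empty u))
  rw [hemp] at h
  simp only [Finset.notMem_empty, if_false, Finset.card_empty, pow_zero, add_neg_cancel, zpow_zero,
    sub_self, mul_zero] at h
  exact h

end Pool.Agent.SWK
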