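import Pool.Agent.Lib.MP_263316_co.SWK.Spec

/-!
MP_263316_co, project SWK, task LOC: the local lemma (helper40).
-/

set_option autoImplicit false

namespace Pool.Agent.SWK

open Finset Pool.Agent.SWC

namespace LOCaux

private theorem qn_zero' {R : Type} [CommRing R] (q : R) : qn q 0 = 0 := by
  unfold qn; simp

private theorem qn_succ' {R : Type} [CommRing R] (q : R) (n : ℕ) :
    qn q (n + 1) = qn q n + q ^ n := by
  unfold qn; rw [Finset.sum_range_succ]

private theorem qn_left' {R : Type} [CommRing R] (q : R) (n : ℕ) :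
    qn q (n + 1) = 1 + q * qn q n := by
  unfold qn
  rw [Finset.sum_range_succ', Finset.mul_sum, add_comm, pow_zero]
  refine congrArg (fun z => 1 + z) ?_
  exact Finset.sum_congr rfl fun i _ => by ring

private theorem qn_one_sub {R : Type} [CommRing R] (q : R) (n : ℕ) :
    (1 - q) * qn q n = 1 - q ^ n := by
  induction n with
  | zero => rw [qn_zero']; simp
  | succ n ih => rw [qn_succ', mul_add, ih, pow_succ]; ring

/-- the sum of `q ^ (number of larger elements)` over the elements below `l` -/
private theorem sum_up {R : Type} [CommRing R] (q : R) (l : ℕ) (B : Finset ℕ) :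
    ∑ j ∈ B.filter (fun v => v < l), q ^ (B.filter (fun u => j < u)).card =
      qn q B.card - qn q (B.filter (fun v => l ≤ v)).card := by
  induction B using Finset.induction_on_min with
  | empty => simp
  | insert a s hs ih =>
    have ha : a ∉ s := fun h => lt_irrefl _ (hs a h)
    have hcard : (insert a s).card = s.card + 1 := Finset.card_insert_of_notMem ha
    by_cases hal : a < l
    · have e1 : (insert a s).filter (fun v => v < l) = insert a (s.filter (fun v => v < l)) := by
        rw [Finset.filter_insert, if_pos hal]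
      have e2 : (insert a s).filter (fun v => l ≤ v) = s.filter (fun v => l ≤ v) := by
        rw [Finset.filter_insert, if_neg (by omega)]
      have ha' : a ∉ s.filter (fun v => v < l) := fun h => ha (Finset.mem_filter.1 h).1
      rw [e1, e2, Finset.sum_insert ha', hcard, qn_succ']
      have e3 : (insert a s).filter (fun u => a < u) = s := by
        rw [Finset.filter_insert, if_neg (lt_irrefl a)]
        exact Finset.filter_true_of_mem hs
      have e4 : ∀ j ∈ s.filter (fun v => v < l),
          q ^ ((insert a s).filter (fun u => j < u)).card =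
          q ^ (s.filter (fun u => j < u)).card := by
        intro j hj
        have hj' : a < j := hs j (Finset.mem_filter.1 hj).1
        rw [Finset.filter_insert, if_neg (by omega)]
      rw [e3, Finset.sum_congr rfl e4, ih]
      ring
    · have e1 : (insert a s).filter (fun v => v < l) = ∅ := by
        refine Finset.filter_eq_empty_iff.2 ?_
        intro v hv
        rcases Finset.mem_insert.1 hv with h | h
        · omega
        · have := hs v h
          omega
      have e2 : (insert a s).filter (fun v => l ≤ v) = insert a s := by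
        refine Finset.filter_true_of_mem ?_
        intro v hv
        rcases Finset.mem_insert.1 hv with h | h
        · omega
        · have := hs v h
          omega
      rw [e1, e2]
      simp

section base

variable {R : Type} [CommRing R]

private theorem PiR_sub (m : ℕ → ℕ) (q : R) (B S : Finset ℕ) (h : S ⊆ B) :
    PiR m q B S = 1 := by
  unfold PiR
  rw [Finset.sdiff_eq_empty_iff_subset.2 h, Finset.prod_empty]

private theorem base_A (m : ℕ → ℕ) (q y : R) (B L : Finset ℕ) : lA m q y B B L = 1 := by
  unfold lA
  have e : (B \ B).powerset.filter (fun J => ind m J ∧ Disjoint J L) = {∅} := by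
    rw [Finset.sdiff_self, Finset.powerset_empty]
    refine Finset.filter_true_of_mem ?_
    intro J hJ
    rw [Finset.mem_singleton] at hJ
    subst hJ
    exact ⟨fun u hu => absurd hu (Finset.notMem_empty u), Finset.disjoint_empty_left L⟩
  rw [e, Finset.sum_singleton, Finset.card_empty, pow_zero, Finset.sum_empty, pow_zero,
    Finset.sdiff_empty, PiR_sub m q B B (Finset.Subset.refl B)]
  ring

private theorem base_B (m : ℕ → ℕ) (q y : R) (B L : Finset ℕ) : lB m q y B B L = 1 := by
  unfold lB
  have e : (B \ B).powerset.filter (fun J => ind m J ∧ Disjoint J L) = {∅} := by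
    rw [Finset.sdiff_self, Finset.powerset_empty]
    refine Finset.filter_true_of_mem ?_
    intro J hJ
    rw [Finset.mem_singleton] at hJ
    subst hJ
    exact ⟨fun u hu => absurd hu (Finset.notMem_empty u), Finset.disjoint_empty_left L⟩
  rw [e, Finset.sum_singleton, Finset.card_empty, pow_zero, Finset.sum_empty, pow_zero,
    Finset.sdiff_empty, PiR_sub m q B B (Finset.Subset.refl B)]
  ring

private theorem base_G (m : ℕ → ℕ) (q y : R) (B : Finset ℕ)
    (hB : ∀ u ∈ B, ∀ v ∈ B, u < v → v ≤ m u) (l : ℕ) :
    lG m q y B B (B.filter (fun v => l ≤ v)) =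
      y * (qn q B.card - qn q (B.filter (fun v => l ≤ v)).card) := by
  unfold lG
  have e : B.powerset.filter (fun J => ind m J ∧ (J ∩ B).card = 1 ∧
      Disjoint J (B.filter (fun v => l ≤ v))) =
      (B.filter (fun v => v < l)).image (fun j => ({j} : Finset ℕ)) := by
    ext J
    rw [Finset.mem_filter, Finset.mem_powerset, Finset.mem_image]
    constructor
    · rintro ⟨hJ, -, hc, hd⟩
      rw [Finset.inter_eq_left.2 hJ] at hc
      obtain ⟨j, rfl⟩ := Finset.card_eq_one.1 hc
      have hj : j ∈ B := hJ (Finset.mem_singleton_self j)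
      refine ⟨j, Finset.mem_filter.2 ⟨hj, ?_⟩, rfl⟩
      by_contra hl
      rw [Finset.disjoint_singleton_left] at hd
      exact hd (Finset.mem_filter.2 ⟨hj, by omega⟩)
    · rintro ⟨j, hj, rfl⟩
      have hj' := Finset.mem_filter.1 hj
      have hsub : ({j} : Finset ℕ) ⊆ B := Finset.singleton_subset_iff.2 hj'.1
      refine ⟨hsub, ?_, ?_, ?_⟩
      · intro u hu v hv
        rw [Finset.mem_singleton] at hu hv
        omega
      · rw [Finset.inter_eq_left.2 hsub, Finset.card_singleton]
      · rw [Finset.disjoint_singleton_left]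
        intro hjl
        have := (Finset.mem_filter.1 hjl).2
        omega
  rw [e, Finset.sum_image (fun a _ b _ hab => Finset.singleton_injective hab),
    ← sum_up q l B, Finset.mul_sum]
  refine Finset.sum_congr rfl ?_
  intro j hj
  have hj' := Finset.mem_filter.1 hj
  have h1 : aR m (B \ {j}) j = (B.filter (fun u => j < u)).card := by
    unfold aR
    refine congrArg Finset.card ?_
    ext u
    rw [Finset.mem_filter, Finset.mem_filter, Finset.mem_sdiff, Finset.mem_singleton]
    constructor
    · rintro ⟨⟨h1, -⟩, h2, -⟩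
      exact ⟨h1, h2⟩
    · rintro ⟨h1, h2⟩
      exact ⟨⟨h1, by omega⟩, h2, hB j hj'.1 u h1 h2⟩
  rw [Finset.card_singleton, pow_one, Finset.sum_singleton, h1,
    PiR_sub m q B _ Finset.sdiff_subset]
  ring

end base

/-- the statement for one pair `B`, `D` -/
private def St {R : Type} [CommRing R] (m : ℕ → ℕ) (q y : R) (B D : Finset ℕ) : Prop :=
  ((1 + y) * lA m q y B D ∅ = (1 + q ^ B.card * y) * lB m q y B D ∅ +
    (1 - q) * lG m q y B D ∅) ∧
  (∀ l : ℕ, (D.filter (fun v => l ≤ v)).Nonempty →
    (∀ u ∈ D.filter (fun v => l ≤ v), ∀ v ∈ D.filter (fun v => l ≤ v), u < v → v ≤ m u) →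
    (1 + y) * q ^ ((D.filter (fun v => l ≤ v)).card - 1) *
      ((1 + q * y) * lA m q y B D (D.filter (fun v => l ≤ v)) - lA m q y B D ∅) =
    (1 + q ^ B.card * y) *
      ((1 + y) * lB m q y B D (D.filter (fun v => l ≤ v)) - lB m q y B D ∅) +
    (1 - q) * ((1 + y) * lG m q y B D (D.filter (fun v => l ≤ v)) - lG m q y B D ∅))

private theorem filter_large (B : Finset ℕ) : B.filter (fun v => B.sup id + 1 ≤ v) = ∅ := by
  refine Finset.filter_eq_empty_iff.2 ?_
  intro v hv
  have : v ≤ B.sup id := Finset.le_sup (f := id) hv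
  omega

private theorem base {R : Type} [CommRing R] (m : ℕ → ℕ) (q y : R) (B : Finset ℕ)
    (hB : ∀ u ∈ B, ∀ v ∈ B, u < v → v ≤ m u) : St m q y B B := by
  have hG0 : lG m q y B B ∅ = y * qn q B.card := by
    have h := base_G m q y B hB (B.sup id + 1)
    rw [filter_large, Finset.card_empty, qn_zero', sub_zero] at h
    exact h
  have hb := qn_one_sub q B.card
  refine ⟨?_, ?_⟩
  · rw [base_A, base_B, hG0]
    linear_combination (-y) * hb
  · intro l hne _
    rw [base_A, base_A, base_B, base_B, hG0, base_G m q y B hB l]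
    obtain ⟨k, hk⟩ : ∃ k, (B.filter (fun v => l ≤ v)).card = k + 1 :=
      ⟨(B.filter (fun v => l ≤ v)).card - 1, by
        have := Finset.card_pos.2 hne
        omega⟩
    rw [hk, Nat.add_sub_cancel]
    have hl := qn_one_sub q (k + 1)
    rw [pow_succ] at hl
    linear_combination (-(1 + y) * y + y) * hb + (1 + y) * y * hl

private theorem step {R : Type} [CommRing R] (h : S_LREC) (m : ℕ → ℕ) (hm : Monotone m)
    (q y : R) (B D' : Finset ℕ) (t : ℕ) (ht : t ∉ B) (hlt : ∀ u ∈ D', u < t)
    (ih : St m q y B D') : St m q y B (insert t D') := by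
  obtain ⟨hA, hB, hG, hA0, hB0, hG0⟩ := h R m hm q y t B D' ht hlt
  obtain ⟨ih1, ih2⟩ := ih
  -- the set `M`
  have hMsub : NL m D' t ⊆ D' := Finset.filter_subset _ _
  have hMcard : (NL m D' t).card = aL m D' t := rfl
  have hAt := hA ∅ (Finset.empty_subset _)
  have hBt := hB ∅ (Finset.empty_subset _)
  have hGt := hG ∅ (Finset.empty_subset _)
  rw [Finset.empty_union] at hAt hBt hGt
  have ein : (insert t (∅ : Finset ℕ)) = {t} := rfl
  rw [ein] at hAt hBt hGt
  rw [hAt] at hA0
  rw [hBt] at hB0
  rw [hGt] at hG0
  -- `L = insert t L'`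
  have hL : ∀ l : ℕ, ((insert t D').filter (fun v => l ≤ v)).Nonempty →
      (∀ u ∈ (insert t D').filter (fun v => l ≤ v), ∀ v ∈ (insert t D').filter (fun v => l ≤ v),
        u < v → v ≤ m u) →
      (insert t D').filter (fun v => l ≤ v) = insert t (D'.filter (fun v => l ≤ v)) ∧
      D'.filter (fun v => l ≤ v) ⊆ NL m D' t := by
    intro l hne hcl
    have hlt' : l ≤ t := by
      obtain ⟨v, hv⟩ := hne
      obtain ⟨hv1, hv2⟩ := Finset.mem_filter.1 hv
      rcases Finset.mem_insert.1 hv1 with h1 | h1
      · omega
      · have := hlt v h1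
        omega
    have e : (insert t D').filter (fun v => l ≤ v) = insert t (D'.filter (fun v => l ≤ v)) := by
      rw [Finset.filter_insert, if_pos hlt']
    refine ⟨e, ?_⟩
    intro u hu
    obtain ⟨hu1, hu2⟩ := Finset.mem_filter.1 hu
    have hut := hlt u hu1
    refine Finset.mem_filter.2 ⟨hu1, hut, ?_⟩
    refine hcl u ?_ t ?_ hut
    · rw [e]; exact Finset.mem_insert_of_mem hu
    · rw [e]; exact Finset.mem_insert_self _ _
  have hnot : t ∉ D' := fun hh => lt_irrefl _ (hlt t hh)
  rcases Nat.eq_zero_or_pos (aL m D' t) with h0 | hpos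
  · -- no left neighbour
    have hM : NL m D' t = ∅ := Finset.card_eq_zero.1 (hMcard.trans h0)
    rw [h0, hM] at hA0 hB0 hG0
    have hz0 : qn q 0 = 0 := qn_zero' q
    rw [hz0] at hA0 hB0 hG0
    refine ⟨?_, ?_⟩
    · rw [hA0, hB0, hG0]
      linear_combination y * ih1
    · intro l hne hcl
      obtain ⟨e, hsub⟩ := hL l hne hcl
      have hL' : D'.filter (fun v => l ≤ v) = ∅ := by
        rw [hM] at hsub
        exact Finset.subset_empty.1 hsub
      rw [e, hL', ein, Finset.card_singleton, hAt, hBt, hGt, hA0, hB0, hG0, h0, hz0]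
      linear_combination (-y) * ih1
  · obtain ⟨μ, hμ⟩ : ∃ μ, aL m D' t = μ + 1 := ⟨aL m D' t - 1, by omega⟩
    have hM0 : (NL m D' t).Nonempty := by
      rw [← Finset.card_pos, hMcard]
      exact hpos
    -- `M` is a final segment
    have hMseg : D'.filter (fun v => (NL m D' t).min' hM0 ≤ v) = NL m D' t := by
      ext v
      rw [Finset.mem_filter]
      constructor
      · rintro ⟨h1, h2⟩
        have h3 := Finset.min'_mem _ hM0
        obtain ⟨-, -, h4⟩ := Finset.mem_filter.1 h3
        exact Finset.mem_filter.2 ⟨h1, hlt v h1, h4.trans (hm h2)⟩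
      · intro h1
        exact ⟨hMsub h1, Finset.min'_le _ _ h1⟩
    have hMcl : ∀ u ∈ NL m D' t, ∀ v ∈ NL m D' t, u < v → v ≤ m u := by
      intro u hu v hv _
      obtain ⟨-, -, h4⟩ := Finset.mem_filter.1 hu
      obtain ⟨-, h5, -⟩ := Finset.mem_filter.1 hv
      omega
    have ihM := ih2 ((NL m D' t).min' hM0)
    rw [hMseg] at ihM
    have ihM := ihM hM0 hMcl
    rw [hMcard, hμ, Nat.add_sub_cancel] at ihM
    rw [hμ, Nat.add_sub_cancel] at hA0 hB0 hG0
    have hp1 := qn_succ' q μ
    have hp2 := qn_left' q μ
    rw [pow_succ] at hA0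
    refine ⟨?_, ?_⟩
    · rw [hA0, hB0, hG0]
      linear_combination qn q (μ + 1) * ih1 + ihM +
        (1 + y) * (lA m q y B D' (NL m D' t) - lA m q y B D' ∅) * hp1 -
        ((1 + q ^ B.card * y) * (lB m q y B D' (NL m D' t) - lB m q y B D' ∅) +
          (1 - q) * (lG m q y B D' (NL m D' t) - lG m q y B D' ∅)) * hp2
    · intro l hne hcl
      obtain ⟨e, hsub⟩ := hL l hne hcl
      have hcard : (insert t (D'.filter (fun v => l ≤ v))).card =
          (D'.filter (fun v => l ≤ v)).card + 1 :=
        Finset.card_insert_of_notMem (fun hh => hnot (Finset.mem_filter.1 hh).1)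
      have hu : D'.filter (fun v => l ≤ v) ∪ NL m D' t = NL m D' t :=
        Finset.union_eq_right.2 hsub
      have hAL := hA _ (Finset.filter_subset (fun v => l ≤ v) D')
      have hBL := hB _ (Finset.filter_subset (fun v => l ≤ v) D')
      have hGL := hG _ (Finset.filter_subset (fun v => l ≤ v) D')
      rw [hu, hμ, Nat.add_sub_cancel] at hAL hBL hGL
      have eA : (1 + q * y) * lA m q y B (insert t D') (insert t (D'.filter (fun v => l ≤ v))) -
          lA m q y B (insert t D') ∅ =
          qn q μ * ((1 + q * y) * lA m q y B D' (D'.filter (fun v => l ≤ v)) -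
            lA m q y B D' ∅) := by
        rw [hAL, hA0]
        linear_combination lA m q y B D' (NL m D' t) * q * y * hp1
      have eB : (1 + y) * lB m q y B (insert t D') (insert t (D'.filter (fun v => l ≤ v))) -
          lB m q y B (insert t D') ∅ =
          q * qn q μ * ((1 + y) * lB m q y B D' (D'.filter (fun v => l ≤ v)) -
            lB m q y B D' ∅) := by
        rw [hBL, hB0]
        linear_combination lB m q y B D' (NL m D' t) * y * hp2
      have eG : (1 + y) * lG m q y B (insert t D') (insert t (D'.filter (fun v => l ≤ v))) -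
          lG m q y B (insert t D') ∅ =
          q * qn q μ * ((1 + y) * lG m q y B D' (D'.filter (fun v => l ≤ v)) -
            lG m q y B D' ∅) := by
        rw [hGL, hG0]
        linear_combination lG m q y B D' (NL m D' t) * y * hp2
      rw [e, hcard, Nat.add_sub_cancel, eA, eB, eG]
      rcases (D'.filter (fun v => l ≤ v)).eq_empty_or_nonempty with hE | hE
      · rw [hE, Finset.card_empty]
        linear_combination q * qn q μ * y * ih1
      · have ihL := ih2 l hE (by
          intro u hu v hv huv
          refine hcl u ?_ v ?_ huv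
          · rw [e]; exact Finset.mem_insert_of_mem hu
          · rw [e]; exact Finset.mem_insert_of_mem hv)
        obtain ⟨k, hk⟩ : ∃ k, (D'.filter (fun v => l ≤ v)).card = k + 1 :=
          ⟨(D'.filter (fun v => l ≤ v)).card - 1, by
            have := Finset.card_pos.2 hE
            omega⟩
        rw [hk, Nat.add_sub_cancel] at ihL
        rw [hk, pow_succ]
        linear_combination q * qn q μ * ihL

end LOCaux

open LOCaux in
theorem tLOC (h : S_LREC) : S_LOC := by
  intro R _ m hm q y B D hD
  have main : ∀ n : ℕ, ∀ D : Finset ℕ, (D \ B).card = n → Ini m B D → St m q y B D := by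
    intro n
    induction n with
    | zero =>
      intro D hn hI
      have hDB : D ⊆ B := Finset.sdiff_eq_empty_iff_subset.1 (Finset.card_eq_zero.1 hn)
      have hE : D = B := Finset.Subset.antisymm hDB hI.1
      rw [hE]
      exact base m q y B hI.2.2
    | succ n ih =>
      intro D hn hI
      obtain ⟨hI1, hI2, hI3⟩ := hI
      have hne : (D \ B).Nonempty := by
        rw [← Finset.card_pos, hn]
        exact Nat.succ_pos n
      obtain ⟨d, hd⟩ := hne
      obtain ⟨hdD, hdB⟩ := Finset.mem_sdiff.1 hd
      have hDne : D.Nonempty := ⟨d, hdD⟩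
      obtain ⟨t, ht⟩ : ∃ t, t = D.max' hDne := ⟨_, rfl⟩
      have htD : t ∈ D := by rw [ht]; exact Finset.max'_mem _ _
      have htmax : ∀ u ∈ D, u ≤ t := by
        intro u hu
        rw [ht]
        exact Finset.le_max' _ _ hu
      have htB : t ∉ B := by
        intro htB
        have h1 : d ≤ t := htmax d hdD
        have h2 : d ≠ t := fun hh => hdB (hh ▸ htB)
        exact hdB (hI2 t htB d hdD (by omega))
      have hlt : ∀ u ∈ D.erase t, u < t := by
        intro u hu
        obtain ⟨h1, h2⟩ := Finset.mem_erase.1 hu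
        have := htmax u h2
        omega
      have hsub : B ⊆ D.erase t := by
        intro b hb
        exact Finset.mem_erase.2 ⟨fun hh => htB (hh ▸ hb), hI1 hb⟩
      have hcard : (D.erase t \ B).card = n := by
        have h1 : D.erase t \ B = (D \ B).erase t := by
          ext v
          simp only [Finset.mem_sdiff, Finset.mem_erase]
          tauto
        rw [h1, Finset.card_erase_of_mem (Finset.mem_sdiff.2 ⟨htD, htB⟩), hn, Nat.add_sub_cancel]
      have hIni : Ini m B (D.erase t) :=
        ⟨hsub, fun b hb u hu hub => hI2 b hb u (Finset.mem_of_mem_erase hu) hub, hI3⟩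
      have h1 := step h m hm q y B (D.erase t) t htB hlt (ih _ hcard hIni)
      rw [Finset.insert_erase htD] at h1
      exact h1
  exact main _ D rfl hD

end Pool.Agent.SWK
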