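import Pool.Agent.Lib.MP_263316_co.SWK.Spec

/-!
Project SWK, module LOCF: the local lemma with a linear functional.
-/

set_option autoImplicit false

namespace Pool.Agent.SWK

open Finset Pool.Agent.SWC

namespace LOCFaux

variable {R : Type} [CommRing R]

/-- the linear functional `X^i ↦ φ i` -/
noncomputable def Phi (φ : ℕ → R) : Polynomial R →ₗ[R] R :=
  Polynomial.lsum (fun i => LinearMap.mulRight R (φ i))

lemma Phi_mono (φ : ℕ → R) (j : ℕ) (c : R) :
    Phi φ (Polynomial.X ^ j * Polynomial.C c) = φ j * c := by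
  rw [Polynomial.X_pow_mul_C, Polynomial.C_mul_X_pow_eq_monomial, Phi, Polynomial.lsum_apply,
    Polynomial.sum_monomial_index _ _ (by simp)]
  simp [mul_comm]

lemma qn_C (q : R) (n : ℕ) : qn (Polynomial.C q) n = Polynomial.C (qn q n) := by
  simp [qn]

lemma PiR_C (m : ℕ → ℕ) (q : R) (B S : Finset ℕ) :
    PiR m (Polynomial.C q) B S = Polynomial.C (PiR m q B S) := by
  unfold PiR
  rw [map_prod]
  exact Finset.prod_congr rfl (fun v _ => qn_C q _)

lemma term (m : ℕ → ℕ) (q : R) (B S : Finset ℕ) (j e : ℕ) :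
    (Polynomial.X : Polynomial R) ^ j * (Polynomial.C q) ^ e * PiR m (Polynomial.C q) B S =
      Polynomial.X ^ j * Polynomial.C (q ^ e * PiR m q B S) := by
  rw [PiR_C, Polynomial.C_mul, Polynomial.C_pow, mul_assoc]

/-- the first kind of sums -/
lemma phi_one (m : ℕ → ℕ) (q : R) (φ : ℕ → R) (B : Finset ℕ) (F : Finset (Finset ℕ)) (a : R)
    (e : Finset ℕ → ℕ) (D : Finset ℕ) :
    Phi φ ((1 + Polynomial.C a * Polynomial.X) * ∑ J ∈ F, (Polynomial.X : Polynomial R) ^ J.card *
      (Polynomial.C q) ^ (e J) * PiR m (Polynomial.C q) B (D \ J)) =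
    ∑ J ∈ F, (φ J.card + a * φ (J.card + 1)) * q ^ (e J) * PiR m q B (D \ J) := by
  rw [Finset.mul_sum, map_sum]
  refine Finset.sum_congr rfl (fun J _ => ?_)
  rw [term]
  have h : (1 + Polynomial.C a * Polynomial.X) * ((Polynomial.X : Polynomial R) ^ J.card *
      Polynomial.C (q ^ e J * PiR m q B (D \ J))) =
      Polynomial.X ^ J.card * Polynomial.C (q ^ e J * PiR m q B (D \ J)) +
      Polynomial.X ^ (J.card + 1) * Polynomial.C (a * (q ^ e J * PiR m q B (D \ J))) := by
    rw [Polynomial.C_mul (a := a), pow_succ]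
    ring
  rw [h, map_add, Phi_mono, Phi_mono]
  ring

lemma phi_two (m : ℕ → ℕ) (q : R) (φ : ℕ → R) (B : Finset ℕ) (F : Finset (Finset ℕ)) (a : R)
    (e : Finset ℕ → ℕ) (D : Finset ℕ) :
    Phi φ (Polynomial.C a * ∑ J ∈ F, (Polynomial.X : Polynomial R) ^ J.card *
      (Polynomial.C q) ^ (e J) * PiR m (Polynomial.C q) B (D \ J)) =
    a * ∑ J ∈ F, φ J.card * q ^ (e J) * PiR m q B (D \ J) := by
  rw [← Polynomial.smul_eq_C_mul, map_smul, map_sum, smul_eq_mul]
  refine congrArg (fun z => a * z) (Finset.sum_congr rfl (fun J _ => ?_))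
  rw [term, Phi_mono]
  ring

end LOCFaux

open LOCFaux in
theorem tLOCF (h : S_LOC) : S_LOCF := by
  intro R _ m hm q φ B D hB
  have h1 := (h (Polynomial R) m hm (Polynomial.C q) Polynomial.X B D hB).1
  have f1 : (D \ B).powerset.filter (fun J => ind m J ∧ Disjoint J ∅) =
      (D \ B).powerset.filter (fun J => ind m J) :=
    Finset.filter_congr (fun J _ => by simp)
  have f2 : D.powerset.filter (fun J => ind m J ∧ (J ∩ B).card = 1 ∧ Disjoint J ∅) =
      D.powerset.filter (fun J => ind m J ∧ (J ∩ B).card = 1) :=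
    Finset.filter_congr (fun J _ => by simp)
  unfold lA lB lG at h1
  rw [f1, f2] at h1
  have e1 : (1 + Polynomial.X : Polynomial R) = 1 + Polynomial.C 1 * Polynomial.X := by
    rw [Polynomial.C_1, one_mul]
  have e2 : (1 + (Polynomial.C q) ^ B.card * Polynomial.X : Polynomial R) =
      1 + Polynomial.C (q ^ B.card) * Polynomial.X := by
    rw [Polynomial.C_pow]
  have e3 : (1 - Polynomial.C q : Polynomial R) = Polynomial.C (1 - q) := by
    rw [Polynomial.C_sub, Polynomial.C_1]
  rw [e1, e2, e3] at h1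
  have h2 := congrArg (Phi φ) h1
  rw [map_add, phi_one, phi_one, phi_two] at h2
  rw [← h2]
  refine Finset.sum_congr rfl (fun J _ => ?_)
  rw [one_mul]

end Pool.Agent.SWK
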