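import Pool.Agent.Lib.MP_263316_co.SWK.Spec

/-!
MP_263316_co, project SWK, task LREC: recursion of the local sums (after MP_263316_co/LREC.lean).
-/

set_option autoImplicit false

namespace Pool.Agent.SWK

open Finset Pool.Agent.SWC

namespace LRECaux

variable {R : Type} [CommRing R]

/-- the common form of the local sums -/
def lo (E : Finset ℕ → ℕ → ℕ) (Φ : Finset ℕ → Prop) [DecidablePred Φ] (m : ℕ → ℕ) (q y : R)
    (B D L : Finset ℕ) : R :=
  ∑ J ∈ D.powerset.filter (fun J => Φ J ∧ ind m J ∧ Disjoint J L),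
    y ^ J.card * q ^ (∑ v ∈ J, E (D \ J) v) * PiR m q B (D \ J)

theorem aL_insert {m : ℕ → ℕ} {X : Finset ℕ} {t v : ℕ} (h : v ≤ t) :
    aL m (insert t X) v = aL m X v := by
  unfold aL
  rw [filter_insert, if_neg (by omega)]

theorem aR_insert {m : ℕ → ℕ} {X : Finset ℕ} {t v : ℕ} (h : v < t) (ht : t ∉ X) :
    aR m (insert t X) v = aR m X v + if t ≤ m v then 1 else 0 := by
  unfold aR
  rw [filter_insert]
  by_cases h1 : t ≤ m v
  · rw [if_pos ⟨h, h1⟩, if_pos h1, card_insert_of_notMem]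
    exact fun h2 => ht (mem_filter.mp h2).1
  · rw [if_neg (fun h2 => h1 h2.2), if_neg h1, add_zero]

theorem aR_top {m : ℕ → ℕ} {X : Finset ℕ} {t : ℕ} (h : ∀ u ∈ X, u < t) : aR m X t = 0 := by
  unfold aR
  rw [card_eq_zero, filter_eq_empty_iff]
  intro u hu h1
  have := h u hu
  omega

theorem Pi_insert {m : ℕ → ℕ} {q : R} {t : ℕ} {B X : Finset ℕ} (h : ∀ u ∈ X, u < t)
    (htB : t ∉ B) :
    PiR m q B (insert t X) = qn q (aL m X t) * PiR m q B X := by
  have ht : t ∉ X := fun h1 => lt_irrefl _ (h t h1)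
  unfold PiR
  rw [insert_sdiff_of_notMem _ htB, prod_insert (fun h1 => ht (mem_sdiff.mp h1).1),
    aL_insert le_rfl]
  congr 1
  exact prod_congr rfl fun v hv => by rw [aL_insert (h v (mem_sdiff.mp hv).1).le]

theorem filt {Φ : Finset ℕ → Prop} {m : ℕ → ℕ} {t : ℕ} {D' L : Finset ℕ} (ht : t ∉ D')
    (J : Finset ℕ) :
    (J ⊆ insert t D' ∧ Φ J ∧ ind m J ∧ Disjoint J (insert t L)) ↔
      (J ⊆ D' ∧ Φ J ∧ ind m J ∧ Disjoint J L) := by
  rw [disjoint_insert_right]
  constructor
  · rintro ⟨h1, h0, h2, h3, h4⟩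
    exact ⟨(subset_insert_iff_of_notMem h3).mp h1, h0, h2, h4⟩
  · rintro ⟨h1, h0, h2, h4⟩
    exact ⟨h1.trans (subset_insert _ _), h0, h2, fun h3 => ht (h1 h3), h4⟩

/-- first recursion -/
theorem rec1 (E : Finset ℕ → ℕ → ℕ) (Φ : Finset ℕ → Prop) [DecidablePred Φ] (δ : ℕ) (m : ℕ → ℕ) (q y : R)
    (t : ℕ) (B D' : Finset ℕ) (htB : t ∉ B) (hlt : ∀ u ∈ D', u < t)
    (hE : ∀ X : Finset ℕ, t ∉ X → ∀ v, v < t → E (insert t X) v = E X v +
      δ * if t ≤ m v then 1 else 0) (L : Finset ℕ) :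
    lo E Φ m q y B (insert t D') (insert t L) =
    qn q (aL m D' t) * lo E Φ m q y B D' (L ∪ NL m D' t) +
    q ^ δ * qn q (aL m D' t - 1) *
      (lo E Φ m q y B D' L - lo E Φ m q y B D' (L ∪ NL m D' t)) := by
  classical
  have ht : t ∉ D' := fun h1 => lt_irrefl _ (hlt t h1)
  have hcN : aL m D' t = (NL m D' t).card := rfl
  set N := NL m D' t with hN
  have hNmem : ∀ v, v ∈ N ↔ v ∈ D' ∧ v < t ∧ t ≤ m v := fun v => by
    rw [hN]
    exact mem_filter
  rw [hcN]
  set β := N.card with hβ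
  have hA : lo E Φ m q y B D' (L ∪ N) = ∑ J ∈ D'.powerset.filter
      (fun J => Φ J ∧ ind m J ∧ Disjoint J L), if Disjoint J N then
        y ^ J.card * q ^ (∑ v ∈ J, E (D' \ J) v) * PiR m q B (D' \ J) else 0 := by
    unfold lo
    rw [← sum_filter]
    refine sum_congr ?_ fun _ _ => rfl
    ext J
    simp only [mem_filter, disjoint_union_right]
    tauto
  rw [hA]
  have hB : ∀ a b c d : R, a * b + c * (d - b) = c * d + (a - c) * b := fun a b c d => by ring
  rw [hB]
  have hset : (insert t D').powerset.filter (fun J => Φ J ∧ ind m J ∧ Disjoint J (insert t L)) =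
      D'.powerset.filter (fun J => Φ J ∧ ind m J ∧ Disjoint J L) := by
    ext J
    rw [mem_filter, mem_filter, mem_powerset, mem_powerset]
    exact filt ht J
  unfold lo
  rw [hset, mul_sum, mul_sum, ← sum_add_distrib]
  refine sum_congr rfl fun J hJ => ?_
  obtain ⟨hJD, -, hJi, hJL⟩ := mem_filter.mp hJ
  rw [mem_powerset] at hJD
  have htJ : t ∉ J := fun h => ht (hJD h)
  have hX : insert t D' \ J = insert t (D' \ J) := insert_sdiff_of_notMem _ htJ
  have hXlt : ∀ u ∈ D' \ J, u < t := fun u hu => hlt u (mem_sdiff.mp hu).1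
  have htX : t ∉ D' \ J := fun h => ht (mem_sdiff.mp h).1
  have hJN : J.filter (fun v => t ≤ m v) = J ∩ N := by
    ext v
    rw [mem_filter, mem_inter, hNmem]
    exact ⟨fun h => ⟨h.1, hJD h.1, hlt v (hJD h.1), h.2⟩, fun h => ⟨h.1, h.2.2.2⟩⟩
  have hcard : aL m (D' \ J) t = β - (J ∩ N).card := by
    have h1 : (D' \ J).filter (fun u => u < t ∧ t ≤ m u) = N \ J := by
      ext v
      rw [mem_filter, mem_sdiff, mem_sdiff, hNmem]
      tauto
    unfold aL
    rw [h1, card_sdiff]
  have hsum : ∑ v ∈ J, E (insert t (D' \ J)) v =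
      ∑ v ∈ J, E (D' \ J) v + δ * (J ∩ N).card := by
    rw [sum_congr rfl fun v hv => hE (D' \ J) htX v (hlt v (hJD hv)), sum_add_distrib,
      ← mul_sum, ← hJN, card_filter]
  have hle : (J ∩ N).card ≤ 1 := by
    rw [card_le_one]
    intro a ha b hb
    rw [mem_inter, hNmem] at ha hb
    by_contra hab
    rcases Nat.lt_or_gt_of_ne hab with h1 | h1
    · exact hJi a ha.1 b hb.1 ⟨h1, hb.2.2.1.le.trans ha.2.2.2⟩
    · exact hJi b hb.1 a ha.1 ⟨h1, ha.2.2.1.le.trans hb.2.2.2⟩
  rw [hX, Pi_insert hXlt htB, hcard, hsum]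
  by_cases hd : Disjoint J N
  · rw [disjoint_iff_inter_eq_empty] at hd
    rw [if_pos (disjoint_iff_inter_eq_empty.mpr hd), hd, card_empty, mul_zero, add_zero,
      Nat.sub_zero]
    ring
  · rw [if_neg hd]
    have h1 : (J ∩ N).card = 1 := by
      have h2 : (J ∩ N).card ≠ 0 := fun h3 =>
        hd (disjoint_iff_inter_eq_empty.mpr (card_eq_zero.mp h3))
      omega
    rw [h1, mul_one, pow_add]
    ring

/-- second recursion -/
theorem rec2 (E : Finset ℕ → ℕ → ℕ) (Φ : Finset ℕ → Prop) [DecidablePred Φ] (ε : ℕ) (m : ℕ → ℕ) (q y : R)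
    (t : ℕ) (B D' : Finset ℕ) (hΦ : ∀ J, Φ (insert t J) ↔ Φ J) (hlt : ∀ u ∈ D', u < t)
    (hE : ∀ J ⊆ D', Disjoint J (NL m D' t) → E (D' \ J) t = ε) :
    lo E Φ m q y B (insert t D') ∅ = lo E Φ m q y B (insert t D') {t} +
      y * q ^ ε * lo E Φ m q y B D' (NL m D' t) := by
  classical
  have ht : t ∉ D' := fun h1 => lt_irrefl _ (hlt t h1)
  set N := NL m D' t with hN
  have hNmem : ∀ v, v ∈ N ↔ v ∈ D' ∧ v < t ∧ t ≤ m v := fun v => by
    rw [hN]
    exact mem_filter
  unfold lo
  rw [← sum_filter_add_sum_filter_not ((insert t D').powerset.filter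
    (fun J => Φ J ∧ ind m J ∧ Disjoint J ∅)) (fun J => t ∉ J)]
  congr 1
  · refine sum_congr ?_ fun _ _ => rfl
    ext J
    simp only [mem_filter, disjoint_singleton_right, disjoint_empty_right]
    tauto
  · rw [mul_sum]
    symm
    refine sum_nbij' (fun J => insert t J) (fun J => J.erase t) ?_ ?_ ?_ ?_ ?_
    · intro J hJ
      obtain ⟨hJD, hJΦ, hJi, hJN⟩ := mem_filter.mp hJ
      rw [mem_powerset] at hJD
      rw [mem_filter, mem_filter, mem_powerset]
      refine ⟨⟨insert_subset_insert _ hJD, (hΦ J).2 hJΦ, ?_, disjoint_empty_right _⟩,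
        fun h => h (mem_insert_self _ _)⟩
      intro u hu v hv huv
      rw [mem_insert] at hu hv
      rcases hu with rfl | hu
      · rcases hv with rfl | hv
        · exact lt_irrefl _ huv.1
        · exact absurd (hlt v (hJD hv)) (by omega)
      · rcases hv with rfl | hv
        · exact disjoint_left.mp hJN hu ((hNmem u).2 ⟨hJD hu, huv⟩)
        · exact hJi u hu v hv huv
    · intro J hJ
      rw [mem_filter, mem_filter, mem_powerset, not_not] at hJ
      obtain ⟨⟨hJD, hJΦ, hJi, -⟩, htJ⟩ := hJ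
      rw [mem_filter, mem_powerset]
      refine ⟨fun u hu => ?_, ?_, fun u hu v hv => hJi u (mem_of_mem_erase hu) v
        (mem_of_mem_erase hv), ?_⟩
      · rcases mem_insert.mp (hJD (mem_of_mem_erase hu)) with h1 | h1
        · exact absurd h1 (ne_of_mem_erase hu)
        · exact h1
      · rw [← hΦ (J.erase t), insert_erase htJ]
        exact hJΦ
      · rw [disjoint_left]
        intro u hu huN
        rw [hNmem] at huN
        exact hJi u (mem_of_mem_erase hu) t htJ huN.2
    · intro J hJ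
      obtain ⟨hJD, -, -⟩ := mem_filter.mp hJ
      exact erase_insert fun h => ht (mem_powerset.mp hJD h)
    · intro J hJ
      rw [mem_filter, not_not] at hJ
      exact insert_erase hJ.2
    · intro J hJ
      obtain ⟨hJD, -, hJi, hJN⟩ := mem_filter.mp hJ
      rw [mem_powerset] at hJD
      have htJ : t ∉ J := fun h => ht (hJD h)
      have hX : insert t D' \ insert t J = D' \ J := by
        ext u
        simp only [mem_sdiff, mem_insert]
        constructor
        · rintro ⟨h1 | h1, h2⟩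
          · exact absurd (Or.inl h1) h2
          · exact ⟨h1, fun h3 => h2 (Or.inr h3)⟩
        · rintro ⟨h1, h2⟩
          refine ⟨Or.inr h1, ?_⟩
          rintro (rfl | h3)
          · exact ht h1
          · exact h2 h3
      change _ = y ^ (insert t J).card * q ^ (∑ v ∈ insert t J, E (insert t D' \ insert t J) v) *
        PiR m q B (insert t D' \ insert t J)
      rw [hX, sum_insert htJ, card_insert_of_notMem htJ, hE J hJD hJN, pow_add, pow_succ]
      ring

theorem lA_eq (m : ℕ → ℕ) (q y : R) (B D L : Finset ℕ) :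
    lA m q y B D L = lo (aL m) (fun J => Disjoint J B) m q y B D L := by
  unfold lA lo
  refine sum_congr ?_ fun _ _ => rfl
  ext J
  rw [mem_filter, mem_filter, mem_powerset, mem_powerset, subset_sdiff]
  tauto

theorem lB_eq (m : ℕ → ℕ) (q y : R) (B D L : Finset ℕ) :
    lB m q y B D L = lo (aR m) (fun J => Disjoint J B) m q y B D L := by
  unfold lB lo
  refine sum_congr ?_ fun _ _ => rfl
  ext J
  rw [mem_filter, mem_filter, mem_powerset, mem_powerset, subset_sdiff]
  tauto

theorem lG_eq (m : ℕ → ℕ) (q y : R) (B D L : Finset ℕ) :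
    lG m q y B D L = lo (aR m) (fun J => (J ∩ B).card = 1) m q y B D L := by
  unfold lG lo
  refine sum_congr ?_ fun _ _ => rfl
  ext J
  rw [mem_filter, mem_filter]
  tauto

end LRECaux

open LRECaux in
theorem tLREC : S_LREC := by
  intro R _ m _ q y t B D' htB hlt
  have hL : ∀ X : Finset ℕ, t ∉ X → ∀ v, v < t → aL m (insert t X) v = aL m X v +
      0 * if t ≤ m v then 1 else 0 := fun X _ v hv => by
    rw [aL_insert hv.le, zero_mul, add_zero]
  have hR : ∀ X : Finset ℕ, t ∉ X → ∀ v, v < t → aR m (insert t X) v = aR m X v +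
      1 * if t ≤ m v then 1 else 0 := fun X hX v hv => by
    rw [aR_insert hv hX, one_mul]
  have hD : ∀ J : Finset ℕ, Disjoint (insert t J) B ↔ Disjoint J B := fun J => by
    rw [disjoint_insert_left]
    exact ⟨fun h => h.2, fun h => ⟨htB, h⟩⟩
  have hC : ∀ J : Finset ℕ, ((insert t J) ∩ B).card = 1 ↔ (J ∩ B).card = 1 := fun J => by
    rw [insert_inter_of_notMem htB]
  have hEL : ∀ J ⊆ D', Disjoint J (NL m D' t) → aL m (D' \ J) t = aL m D' t := by
    intro J hJ hd
    unfold aL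
    congr 1
    ext u
    rw [mem_filter, mem_filter, mem_sdiff]
    exact ⟨fun h => ⟨h.1.1, h.2⟩, fun h => ⟨⟨h.1, fun h1 => disjoint_left.mp hd h1
      (mem_filter.mpr h)⟩, h.2⟩⟩
  have hER : ∀ J ⊆ D', Disjoint J (NL m D' t) → aR m (D' \ J) t = 0 := fun J hJ hd =>
    aR_top fun u hu => hlt u (mem_sdiff.mp hu).1
  simp only [lA_eq, lB_eq, lG_eq]
  refine ⟨fun L _ => ?_, fun L _ => ?_, fun L _ => ?_, ?_, ?_, ?_⟩
  · have h := rec1 (aL m) (fun J => Disjoint J B) 0 m q y t B D' htB hlt hL L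
    rw [pow_zero, one_mul] at h
    exact h
  · have h := rec1 (aR m) (fun J => Disjoint J B) 1 m q y t B D' htB hlt hR L
    rw [pow_one] at h
    exact h
  · have h := rec1 (aR m) (fun J => (J ∩ B).card = 1) 1 m q y t B D' htB hlt hR L
    rw [pow_one] at h
    exact h
  · exact rec2 (aL m) _ _ m q y t B D' hD hlt hEL
  · have h := rec2 (aR m) (fun J => Disjoint J B) 0 m q y t B D' hD hlt hER
    rw [pow_zero, mul_one] at h
    exact h
  · have h := rec2 (aR m) (fun J => (J ∩ B).card = 1) 0 m q y t B D' hC hlt hER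
    rw [pow_zero, mul_one] at h
    exact h

end Pool.Agent.SWK
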