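import Pool.Agent.Lib.MP_263316_co.SWK.Spec

/-!
MP_263316_co, project SWK, part RELX: relabelling of the vertices by a strictly monotone function.
-/

set_option autoImplicit false

namespace Pool.Agent.SWK

open Finset Pool.Agent.SWC

namespace RELXaux

variable {R : Type} [CommRing R] {N : ℕ}

theorem pw_rel {m m' f : ℕ → ℕ} {l : ℕ} (hf : StrictMono f)
    (h : ∀ i j : ℕ, i < j → j < l → (j ≤ m' i ↔ f j ≤ m (f i))) (q : R) {i j : ℕ} (hi : i < l)
    (hj : j < l) (k k' : Fin N) : pw m q (f i) k (f j) k' = pw m' q i k j k' := by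
  unfold pw
  have h1 : (f i < f j ∧ f j ≤ m (f i)) ↔ (i < j ∧ j ≤ m' i) := by
    rw [hf.lt_iff_lt]
    constructor
    · rintro ⟨ha, hb⟩
      exact ⟨ha, (h i j ha hj).mpr hb⟩
    · rintro ⟨ha, hb⟩
      exact ⟨ha, (h i j ha hj).mp hb⟩
  have h2 : (f j < f i ∧ f i ≤ m (f j)) ↔ (j < i ∧ i ≤ m' j) := by
    rw [hf.lt_iff_lt]
    constructor
    · rintro ⟨ha, hb⟩
      exact ⟨ha, (h j i ha hi).mpr hb⟩
    · rintro ⟨ha, hb⟩
      exact ⟨ha, (h j i ha hi).mp hb⟩
  simp only [h1, h2]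

theorem Z_rel {m m' f : ℕ → ℕ} {l : ℕ} (hf : StrictMono f)
    (h : ∀ i j : ℕ, i < j → j < l → (j ≤ m' i ↔ f j ≤ m (f i))) (q : R) (V : Finset ℕ) :
    V ⊆ range l → ∀ w : ℕ → Fin N → R,
    Z m q (V.image f) w = Z m' q V (fun i k => w (f i) k) := by
  induction V using Finset.induction_on with
  | empty => intro _ w; simp
  | insert v V hv ih =>
    intro hV w
    have hvl : v < l := mem_range.mp (hV (mem_insert_self v V))
    have hVl : V ⊆ range l := (subset_insert v V).trans hV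
    have hfv : f v ∉ V.image f := by
      rw [mem_image]
      rintro ⟨u, hu, hfu⟩
      exact hv (hf.injective hfu ▸ hu)
    rw [image_insert, Z_insert hfv, Z_insert hv]
    refine Finset.sum_congr rfl fun k _ => ?_
    rw [ih hVl]
    congr 1
    refine Z_congr fun u hu k' => ?_
    rw [pw_rel hf h q hvl (mem_range.mp (hVl hu))]

theorem aL_rel {m m' f : ℕ → ℕ} {l : ℕ} (hf : StrictMono f)
    (h : ∀ i j : ℕ, i < j → j < l → (j ≤ m' i ↔ f j ≤ m (f i))) (V : Finset ℕ)
    {i : ℕ} (hi : i < l) : aL m (V.image f) (f i) = aL m' V i := by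
  unfold aL
  rw [filter_image, card_image_of_injective _ hf.injective]
  congr 1
  refine filter_congr fun u _ => ?_
  rw [hf.lt_iff_lt]
  constructor
  · rintro ⟨ha, hb⟩
    exact ⟨ha, (h u i ha hi).mpr hb⟩
  · rintro ⟨ha, hb⟩
    exact ⟨ha, (h u i ha hi).mp hb⟩

end RELXaux

theorem tRELX : S_RELX := by
  intro m m' f l hf h
  refine ⟨fun R _ N q x => ?_, ?_⟩
  · unfold XX
    rw [RELXaux.Z_rel hf h q (range l) (Subset.refl _)]
  · unfold eE
    rw [sum_image fun a _ b _ hab => hf.injective hab]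
    exact Finset.sum_congr rfl fun i hi => RELXaux.aL_rel hf h (range l) (mem_range.mp hi)

end Pool.Agent.SWK
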