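import Pool.Agent.Lib.MP_263316_co.SWK.Spec

/-!
MP_263316_co (Shareshian-Wachs), project SWK: the recursion for `MM`.
-/

set_option autoImplicit false

namespace Pool.Agent.SWK

open Finset Pool.Agent.SWC

theorem tRM : S_RM := by
  intro hL h1 h2 h3 hS hE hX R _ N m hm q x B U k hI
  rw [h1 hS hE hX R N m q x B U k hI.1,
    h2 hX R N m q (x 0) (q ^ B.card * x 0) (fun k => x k.succ) B U k hI.1,
    h3 hX R N m q (x 0) (fun k => x k.succ) B U k hI.1, mul_sum, ← sum_add_distrib]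
  refine sum_congr rfl fun D hD => ?_
  obtain ⟨hDU, hBD⟩ := mem_filter.mp hD
  rw [mem_powerset] at hDU
  have hID : Ini m B D := ⟨hBD, fun b hb u hu hub => hI.2.1 b hb u (hDU hu) hub, hI.2.2⟩
  have key := hL R m hm q
    (fun i : ℕ => x 0 ^ i * esz (fun k => x k.succ) (k + (D.card : ℤ) - (i : ℤ))) B D hID
  simp only [Nat.cast_add, Nat.cast_one] at key
  rw [key]
  have e2 : ∑ J ∈ (D \ B).powerset.filter (fun J => ind m J),
      (x 0 ^ J.card * esz (fun k => x k.succ) (k + (D.card : ℤ) - (J.card : ℤ)) +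
        q ^ B.card * (x 0 ^ (J.card + 1) *
          esz (fun k => x k.succ) (k + (D.card : ℤ) - ((J.card : ℤ) + 1)))) *
      q ^ (∑ v ∈ J, aR m (D \ J) v) * PiR m q B (D \ J) =
      ∑ J ∈ (D \ B).powerset.filter (fun J => ind m J),
      (x 0 ^ J.card * esz (fun k => x k.succ) (k + (D.card : ℤ) - (J.card : ℤ)) +
        q ^ B.card * x 0 * x 0 ^ J.card *
          esz (fun k => x k.succ) (k + (D.card : ℤ) - ((J.card : ℤ) + 1))) *
      q ^ (∑ v ∈ J, aR m (D \ J) v) * PiR m q B (D \ J) := by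
    refine sum_congr rfl fun J _ => ?_
    ring
  rw [e2]
  ring

end Pool.Agent.SWK
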