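import Pool.Agent.Lib.MP_263316_co.SWK.Spec

/-!
MP_263316_co (Shareshian-Wachs), project SWK: the first step of the recursion for `MM`.
-/

set_option autoImplicit false

namespace Pool.Agent.SWK

open Finset Pool.Agent.SWC

theorem tRM1 : S_RM1 := by
  classical
  intro hSPL hESZ hEXC R _ N m q x B U k _
  unfold MM
  -- expand both sides as sums over pairs
  have hL : ∀ M ∈ U.powerset.filter (fun M => B ⊆ M),
      PiR m q B M * q ^ ea m U M * esz x (k + M.card) * XX m q x (U \ M) =
      ∑ T ∈ (U \ M).powerset.filter (fun T => ind m T),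
        PiR m q B M * q ^ ea m U M * (esz (fun k => x k.succ) (k + M.card) +
          x 0 * esz (fun k => x k.succ) (k + M.card - 1)) *
        (x 0 ^ T.card * q ^ ea m (U \ M) T * XX m q (fun k => x k.succ) ((U \ M) \ T)) := by
    intro M _
    rw [hSPL R N m q x (U \ M), hESZ.1 R N x (k + M.card), Finset.mul_sum]
  rw [Finset.sum_congr rfl hL, Finset.sum_sigma']
  have hR : ∀ D ∈ U.powerset.filter (fun D => B ⊆ D),
      q ^ ea m U D * XX m q (fun k => x k.succ) (U \ D) *
      ∑ T ∈ (D \ B).powerset.filter (fun T => ind m T),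
        (x 0 ^ T.card * esz (fun k => x k.succ) (k + D.card - T.card) +
          x 0 ^ (T.card + 1) * esz (fun k => x k.succ) (k + D.card - (T.card + 1))) *
        q ^ (∑ v ∈ T, aL m (D \ T) v) * PiR m q B (D \ T) =
      ∑ T ∈ (D \ B).powerset.filter (fun T => ind m T),
        q ^ ea m U D * XX m q (fun k => x k.succ) (U \ D) *
        ((x 0 ^ T.card * esz (fun k => x k.succ) (k + D.card - T.card) +
          x 0 ^ (T.card + 1) * esz (fun k => x k.succ) (k + D.card - (T.card + 1))) *
        q ^ (∑ v ∈ T, aL m (D \ T) v) * PiR m q B (D \ T)) := by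
    intro D _
    rw [Finset.mul_sum]
  rw [Finset.sum_congr rfl hR, Finset.sum_sigma']
  refine Finset.sum_nbij' (fun z => ⟨z.1 ∪ z.2, z.2⟩) (fun z => ⟨z.1 \ z.2, z.2⟩) ?_ ?_ ?_ ?_ ?_
  · rintro ⟨M, T⟩ hz
    simp only [Finset.mem_sigma, Finset.mem_filter, Finset.mem_powerset] at hz ⊢
    obtain ⟨⟨hM, hB⟩, hT, hi⟩ := hz
    refine ⟨⟨Finset.union_subset hM (hT.trans Finset.sdiff_subset), hB.trans Finset.subset_union_left⟩, ?_, hi⟩
    intro v hv
    rw [Finset.mem_sdiff, Finset.mem_union]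
    exact ⟨Or.inr hv, fun h => (Finset.mem_sdiff.1 (hT hv)).2 (hB h)⟩
  · rintro ⟨D, T⟩ hz
    simp only [Finset.mem_sigma, Finset.mem_filter, Finset.mem_powerset] at hz ⊢
    obtain ⟨⟨hD, hB⟩, hT, hi⟩ := hz
    refine ⟨⟨Finset.sdiff_subset.trans hD, ?_⟩, ?_, hi⟩
    · intro v hv
      rw [Finset.mem_sdiff]
      exact ⟨hB hv, fun h => (Finset.mem_sdiff.1 (hT h)).2 hv⟩
    · intro v hv
      rw [Finset.mem_sdiff, Finset.mem_sdiff]
      exact ⟨hD (Finset.mem_sdiff.1 (hT hv)).1, fun h => h.2 hv⟩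
  · rintro ⟨M, T⟩ hz
    simp only [Finset.mem_sigma, Finset.mem_filter, Finset.mem_powerset] at hz
    obtain ⟨⟨hM, hB⟩, hT, hi⟩ := hz
    have h1 : Disjoint M T := by
      rw [Finset.disjoint_left]
      intro v hv hv'
      exact (Finset.mem_sdiff.1 (hT hv')).2 hv
    have h2 : (M ∪ T) \ T = M := Finset.union_sdiff_cancel_right h1
    simp only [h2]
  · rintro ⟨D, T⟩ hz
    simp only [Finset.mem_sigma, Finset.mem_filter, Finset.mem_powerset] at hz
    obtain ⟨⟨hD, hB⟩, hT, hi⟩ := hz
    have h2 : (D \ T) ∪ T = D := Finset.sdiff_union_of_subset (hT.trans Finset.sdiff_subset)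
    simp only [h2]
  · rintro ⟨M, T⟩ hz
    simp only [Finset.mem_sigma, Finset.mem_filter, Finset.mem_powerset] at hz
    obtain ⟨⟨hM, hB⟩, hT, hi⟩ := hz
    have h1 : Disjoint M T := by
      rw [Finset.disjoint_left]
      intro v hv hv'
      exact (Finset.mem_sdiff.1 (hT hv')).2 hv
    have h2 : (M ∪ T) \ T = M := Finset.union_sdiff_cancel_right h1
    have h3 : (U \ M) \ T = U \ (M ∪ T) := by
      ext v
      simp only [Finset.mem_sdiff, Finset.mem_union]
      tauto
    have h4 := (hEXC m U M T hM (hT.trans Finset.sdiff_subset) h1).1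
    rw [h2] at h4
    have h5 : k + ((M ∪ T).card : ℤ) - (T.card : ℤ) = k + M.card := by
      rw [Finset.card_union_of_disjoint h1]
      push_cast
      ring
    have h6 : k + ((M ∪ T).card : ℤ) - ((T.card : ℤ) + 1) = k + M.card - 1 := by
      rw [Finset.card_union_of_disjoint h1]
      push_cast
      ring
    have h7 : q ^ ea m U M * q ^ ea m (U \ M) T =
        q ^ ea m U (M ∪ T) * q ^ (∑ v ∈ T, aL m M v) := by
      rw [← pow_add, ← pow_add, h4]
    simp only [h2, h3, h5, h6]
    linear_combination (PiR m q B M * (esz (fun k => x k.succ) (k + M.card) +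
          x 0 * esz (fun k => x k.succ) (k + M.card - 1)) *
        (x 0 ^ T.card * XX m q (fun k => x k.succ) (U \ (M ∪ T)))) * h7

end Pool.Agent.SWK
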