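import Pool.Agent.Lib.MP_263316_co.SWK.Spec

/-!
MP_263316_co, project SWK: the pairs (stable set meeting the clique in one vertex, cluster).
-/

set_option autoImplicit false

namespace Pool.Agent.SWK

open Finset Pool.Agent.SWC

/-- The product does not change if vertices outside `M` are removed from the roots. -/
private theorem PiR_sdiff {R : Type} [CommRing R] (m : ℕ → ℕ) (q : R) (B T M : Finset ℕ)
    (h : Disjoint M T) : PiR m q (B \ T) M = PiR m q B M := by
  unfold PiR
  have h1 : M \ (B \ T) = M \ B := by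
    ext v
    simp only [mem_sdiff, not_and, not_not]
    constructor
    · rintro ⟨h2, h3⟩
      exact ⟨h2, fun h4 => disjoint_left.1 h h2 (h3 h4)⟩
    · rintro ⟨h2, h3⟩
      exact ⟨h2, fun h4 => absurd h4 h3⟩
  rw [h1]

theorem tRM3 : S_RM3 := by
  intro hE R _ N m q α x B U k hBU
  simp only [MM, Finset.mul_sum]
  rw [Finset.sum_sigma', Finset.sum_sigma']
  refine Finset.sum_bij' (fun p _ => ⟨p.2 ∪ p.1, p.1⟩) (fun p _ => ⟨p.2, p.1 \ p.2⟩)
    ?_ ?_ ?_ ?_ ?_
  · rintro ⟨T, M⟩ h
    simp only [mem_sigma, mem_filter, mem_powerset] at h ⊢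
    obtain ⟨⟨hT, hi, hc⟩, hM, hB⟩ := h
    refine ⟨⟨union_subset (hM.trans sdiff_subset) hT, fun v hv => ?_⟩, subset_union_right, hi, hc⟩
    by_cases hvT : v ∈ T
    · exact mem_union_right _ hvT
    · exact mem_union_left _ (hB (mem_sdiff.2 ⟨hv, hvT⟩))
  · rintro ⟨D, T⟩ h
    simp only [mem_sigma, mem_filter, mem_powerset] at h ⊢
    obtain ⟨⟨hD, hB⟩, hT, hi, hc⟩ := h
    exact ⟨⟨hT.trans hD, hi, hc⟩, sdiff_subset_sdiff hD (Subset.refl _),
      sdiff_subset_sdiff hB (Subset.refl _)⟩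
  · rintro ⟨T, M⟩ h
    simp only [mem_sigma, mem_filter, mem_powerset] at h
    obtain ⟨⟨hT, hi, hc⟩, hM, hB⟩ := h
    have hd : Disjoint M T := disjoint_left.2 fun v hv => (mem_sdiff.1 (hM hv)).2
    simp only [union_sdiff_cancel_right hd]
  · rintro ⟨D, T⟩ h
    simp only [mem_sigma, mem_filter, mem_powerset] at h
    obtain ⟨⟨hD, hB⟩, hT, hi, hc⟩ := h
    simp only [sdiff_union_of_subset hT]
  · rintro ⟨T, M⟩ h
    simp only [mem_sigma, mem_filter, mem_powerset] at h
    obtain ⟨⟨hT, hi, hc⟩, hM, hB⟩ := h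
    have hd : Disjoint M T := disjoint_left.2 fun v hv => (mem_sdiff.1 (hM hv)).2
    have hex := (hE m U M T (hM.trans sdiff_subset) hT hd).2.1
    have hcard : k + ((M ∪ T).card : ℤ) - T.card = k + M.card := by
      rw [card_union_of_disjoint hd]
      push_cast
      ring
    have hU : (U \ T) \ M = U \ (M ∪ T) := by
      rw [sdiff_sdiff_left, union_comm]
      rfl
    have hpow : q ^ ea m U T * q ^ ea m (U \ T) M =
        q ^ ea m U (M ∪ T) * q ^ (∑ v ∈ T, aR m ((M ∪ T) \ T) v) := by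
      rw [← pow_add, ← pow_add, hex]
    simp only []
    rw [hcard, hU, PiR_sdiff m q B T M hd, union_sdiff_cancel_right hd]
    rw [union_sdiff_cancel_right hd] at hpow
    linear_combination (α ^ T.card * PiR m q B M * esz x (k + M.card) * XX m q x (U \ (M ∪ T))) * hpow

end Pool.Agent.SWK
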