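import Pool.Agent.Lib.MP_263316_co.SWK.Spec

/-!
MP_263316_co (Shareshian-Wachs), project SWK: task RR (recursion for `RR`).
-/

set_option autoImplicit false

namespace Pool.Agent.SWK

open Finset Pool.Agent.SWC

namespace RRaux

theorem disj_of {U P T : Finset ℕ} (h : P ⊆ U \ T) : Disjoint P T := by
  rw [Finset.disjoint_left]
  intro v hv
  exact (mem_sdiff.mp (h hv)).2

theorem Ini_sdiff {m : ℕ → ℕ} {B U : Finset ℕ} (h : Ini m B U) (P : Finset ℕ) :
    Ini m (B \ P) (U \ P) := by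
  refine ⟨sdiff_subset_sdiff h.1 (Subset.refl _), ?_, ?_⟩
  · intro b hb u hu hlt
    exact mem_sdiff.mpr ⟨h.2.1 b (mem_sdiff.mp hb).1 u (mem_sdiff.mp hu).1 hlt,
      (mem_sdiff.mp hu).2⟩
  · intro u hu v hv
    exact h.2.2 u (mem_sdiff.mp hu).1 v (mem_sdiff.mp hv).1

/-- `wP` after removing `T` from `U` -/
theorem wP_T (hEXC : S_EXC) {K : Type} [Field K] (m : ℕ → ℕ) (q : K) (B : Finset ℕ)
    {U P T : Finset ℕ} (hT : T ⊆ U) (hP : P ⊆ U \ T) (c : ℤ) :
    wP m q B U P c * q ^ ea m (U \ P) T = q ^ ea m U T * wP m q B (U \ T) P c := by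
  have h := (hEXC m U P T (hP.trans sdiff_subset) hT (disj_of hP)).2.2
  unfold wP
  have h1 : q ^ (eb m U P + P.card + ((P ∩ B).card).choose 2) * q ^ ea m (U \ P) T =
      q ^ ea m U T * q ^ (eb m (U \ T) P + P.card + ((P ∩ B).card).choose 2) := by
    rw [← pow_add, ← pow_add]
    congr 1
    omega
  calc PiR m q B P * q ^ (eb m U P + P.card + ((P ∩ B).card).choose 2) *
        (q ^ c) ^ (P ∩ B).card * q ^ ea m (U \ P) T
      = PiR m q B P * (q ^ (eb m U P + P.card + ((P ∩ B).card).choose 2) *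
        q ^ ea m (U \ P) T) * (q ^ c) ^ (P ∩ B).card := by ring
    _ = _ := by rw [h1]; ring

/-- `wP` with `c - 1` -/
theorem wP_c {K : Type} [Field K] (m : ℕ → ℕ) {q : K} (hq : q ≠ 0) (B U P : Finset ℕ) (c : ℤ) :
    wP m q B U P c * q ^ (B \ P).card = q ^ B.card * wP m q B U P (c - 1) := by
  unfold wP
  have h0 : B.card = (B \ P).card + (P ∩ B).card := by
    rw [inter_comm P B]
    exact (card_sdiff_add_card_inter B P).symm
  have h1 : q * q ^ (c - 1) = q ^ c := by
    rw [← zpow_one_add₀ hq]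
    congr 1
    ring
  rw [h0, ← h1, mul_pow, pow_add]
  ring

/-- `wP` after removing `T` from `B` -/
theorem wP_B {K : Type} [Field K] (m : ℕ → ℕ) (q : K) (B V : Finset ℕ) {P T : Finset ℕ}
    (h : Disjoint P T) (c : ℤ) : wP m q (B \ T) V P c = wP m q B V P c := by
  have h1 : P ∩ (B \ T) = P ∩ B := by
    ext v
    simp only [mem_inter, mem_sdiff]
    constructor
    · rintro ⟨a, b, -⟩
      exact ⟨a, b⟩
    · rintro ⟨a, b⟩
      exact ⟨a, b, Finset.disjoint_left.mp h a⟩
  have h2 : P \ (B \ T) = P \ B := by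
    ext v
    simp only [mem_sdiff]
    constructor
    · rintro ⟨a, b⟩
      exact ⟨a, fun hb => b ⟨hb, Finset.disjoint_left.mp h a⟩⟩
    · rintro ⟨a, b⟩
      exact ⟨a, fun hb => b hb.1⟩
  unfold wP PiR
  rw [h1, h2]

theorem inter_eq {B P T : Finset ℕ} (h : Disjoint P T) : T ∩ (B \ P) = T ∩ B := by
  ext v
  simp only [mem_inter, mem_sdiff]
  constructor
  · rintro ⟨a, b, -⟩
    exact ⟨a, b⟩
  · rintro ⟨a, b⟩
    exact ⟨a, b, fun hp => Finset.disjoint_left.mp h hp a⟩

theorem swap1 {K : Type} [Field K] (m : ℕ → ℕ) (B U : Finset ℕ)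
    (F : Finset ℕ → Finset ℕ → K) :
    ∑ P ∈ U.powerset, ∑ T ∈ ((U \ P) \ (B \ P)).powerset.filter (fun T => ind m T), F P T =
      ∑ T ∈ (U \ B).powerset.filter (fun T => ind m T), ∑ P ∈ (U \ T).powerset, F P T := by
  refine Finset.sum_comm' ?_
  intro P T
  simp only [mem_powerset, mem_filter]
  constructor
  · rintro ⟨h1, h2, h3⟩
    refine ⟨?_, ?_, h3⟩
    · intro v hv
      refine mem_sdiff.mpr ⟨h1 hv, fun ht => ?_⟩
      have := h2 ht
      simp only [mem_sdiff] at this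
      exact this.1.2 hv
    · intro v hv
      have := h2 hv
      simp only [mem_sdiff] at this
      exact mem_sdiff.mpr ⟨this.1.1, fun hb => this.2 ⟨hb, this.1.2⟩⟩
  · rintro ⟨h1, h2, h3⟩
    refine ⟨h1.trans sdiff_subset, ?_, h3⟩
    intro v hv
    have hv2 := mem_sdiff.mp (h2 hv)
    simp only [mem_sdiff]
    exact ⟨⟨hv2.1, fun hp => (mem_sdiff.mp (h1 hp)).2 hv⟩, fun hb => hv2.2 hb.1⟩

theorem swap2 {K : Type} [Field K] (m : ℕ → ℕ) (B U : Finset ℕ)
    (F : Finset ℕ → Finset ℕ → K) :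
    ∑ P ∈ U.powerset, ∑ T ∈ (U \ P).powerset.filter
        (fun T => ind m T ∧ (T ∩ (B \ P)).card = 1), F P T =
      ∑ T ∈ U.powerset.filter (fun T => ind m T ∧ (T ∩ B).card = 1),
        ∑ P ∈ (U \ T).powerset, F P T := by
  refine Finset.sum_comm' ?_
  intro P T
  simp only [mem_powerset, mem_filter]
  constructor
  · rintro ⟨h1, h2, h3, h4⟩
    have hd : P ⊆ U \ T := fun v hv =>
      mem_sdiff.mpr ⟨h1 hv, fun ht => (mem_sdiff.mp (h2 ht)).2 hv⟩
    rw [inter_eq (disj_of hd)] at h4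
    exact ⟨hd, h2.trans sdiff_subset, h3, h4⟩
  · rintro ⟨h1, h2, h3, h4⟩
    refine ⟨h1.trans sdiff_subset, ?_, h3, ?_⟩
    · intro v hv
      exact mem_sdiff.mpr ⟨h2 hv, fun hp => (mem_sdiff.mp (h1 hp)).2 hv⟩
    · rw [inter_eq (disj_of h1)]
      exact h4

end RRaux

open RRaux in
theorem tRR : S_RR := by
  intro hRM hEXC K _ N m hm q hq x B U c hI
  have e0 : RR m q x B U c = ∑ P ∈ U.powerset, (-1) ^ (P ∩ B).card * wP m q B U P c *
      (∑ T ∈ ((U \ P) \ (B \ P)).powerset.filter (fun T => ind m T),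
        x 0 ^ T.card * q ^ ea m (U \ P) T *
        (MM m q (fun k => x k.succ) (B \ P) ((U \ P) \ T) (c + P.card) +
          q ^ (B \ P).card * x 0 *
            MM m q (fun k => x k.succ) (B \ P) ((U \ P) \ T) (c + P.card - 1)) +
      (1 - q) * ∑ T ∈ (U \ P).powerset.filter
          (fun T => ind m T ∧ (T ∩ (B \ P)).card = 1),
        x 0 ^ T.card * q ^ ea m (U \ P) T *
          MM m q (fun k => x k.succ) ((B \ P) \ T) ((U \ P) \ T) (c + P.card)) := by
    unfold RR
    refine Finset.sum_congr rfl fun P _ => ?_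
    rw [hRM K N m hm q x (B \ P) (U \ P) (c + P.card) (Ini_sdiff hI P)]
  rw [e0]
  have e1 : ∀ P : Finset ℕ, (-1) ^ (P ∩ B).card * wP m q B U P c *
      (∑ T ∈ ((U \ P) \ (B \ P)).powerset.filter (fun T => ind m T),
        x 0 ^ T.card * q ^ ea m (U \ P) T *
        (MM m q (fun k => x k.succ) (B \ P) ((U \ P) \ T) (c + P.card) +
          q ^ (B \ P).card * x 0 *
            MM m q (fun k => x k.succ) (B \ P) ((U \ P) \ T) (c + P.card - 1)) +
      (1 - q) * ∑ T ∈ (U \ P).powerset.filter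
          (fun T => ind m T ∧ (T ∩ (B \ P)).card = 1),
        x 0 ^ T.card * q ^ ea m (U \ P) T *
          MM m q (fun k => x k.succ) ((B \ P) \ T) ((U \ P) \ T) (c + P.card)) =
      (∑ T ∈ ((U \ P) \ (B \ P)).powerset.filter (fun T => ind m T),
        (-1) ^ (P ∩ B).card * wP m q B U P c * (x 0 ^ T.card * q ^ ea m (U \ P) T *
        (MM m q (fun k => x k.succ) (B \ P) ((U \ P) \ T) (c + P.card) +
          q ^ (B \ P).card * x 0 *
            MM m q (fun k => x k.succ) (B \ P) ((U \ P) \ T) (c + P.card - 1)))) +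
      (1 - q) * ∑ T ∈ (U \ P).powerset.filter
          (fun T => ind m T ∧ (T ∩ (B \ P)).card = 1),
        (-1) ^ (P ∩ B).card * wP m q B U P c * (x 0 ^ T.card * q ^ ea m (U \ P) T *
          MM m q (fun k => x k.succ) ((B \ P) \ T) ((U \ P) \ T) (c + P.card)) := by
    intro P
    rw [← Finset.mul_sum, ← Finset.mul_sum]
    ring
  rw [Finset.sum_congr rfl fun P _ => e1 P, Finset.sum_add_distrib, ← Finset.mul_sum,
    swap1, swap2]
  congr 1
  · refine Finset.sum_congr rfl fun T hT => ?_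
    have hTB : T ⊆ U \ B := mem_powerset.mp (mem_filter.mp hT).1
    have hTU : T ⊆ U := hTB.trans sdiff_subset
    unfold RR
    rw [Finset.mul_sum, ← Finset.sum_add_distrib, Finset.mul_sum]
    refine Finset.sum_congr rfl fun P hP => ?_
    have hPU : P ⊆ U \ T := mem_powerset.mp hP
    have w1 := wP_T hEXC m q B hTU hPU c
    have w2 := wP_c m hq B (U \ T) P c
    have s1 : (U \ P) \ T = (U \ T) \ P := sdiff_right_comm _ _ _
    have c1 : c + (P.card : ℤ) - 1 = c - 1 + P.card := by ring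
    rw [s1, c1]
    calc (-1) ^ (P ∩ B).card * wP m q B U P c * (x 0 ^ T.card * q ^ ea m (U \ P) T *
          (MM m q (fun k => x k.succ) (B \ P) ((U \ T) \ P) (c + P.card) +
            q ^ (B \ P).card * x 0 *
              MM m q (fun k => x k.succ) (B \ P) ((U \ T) \ P) (c - 1 + P.card)))
        = (-1) ^ (P ∩ B).card * x 0 ^ T.card * (wP m q B U P c * q ^ ea m (U \ P) T) *
          (MM m q (fun k => x k.succ) (B \ P) ((U \ T) \ P) (c + P.card) +
            q ^ (B \ P).card * x 0 *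
              MM m q (fun k => x k.succ) (B \ P) ((U \ T) \ P) (c - 1 + P.card)) := by ring
      _ = (-1) ^ (P ∩ B).card * x 0 ^ T.card * q ^ ea m U T * (wP m q B (U \ T) P c *
            MM m q (fun k => x k.succ) (B \ P) ((U \ T) \ P) (c + P.card)) +
          (-1) ^ (P ∩ B).card * x 0 ^ T.card * q ^ ea m U T * x 0 *
            (wP m q B (U \ T) P c * q ^ (B \ P).card) *
              MM m q (fun k => x k.succ) (B \ P) ((U \ T) \ P) (c - 1 + P.card) := by
          rw [w1]; ring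
      _ = _ := by rw [w2]; ring
  · congr 1
    refine Finset.sum_congr rfl fun T hT => ?_
    have hTU : T ⊆ U := mem_powerset.mp (mem_filter.mp hT).1
    unfold RR
    rw [Finset.mul_sum]
    refine Finset.sum_congr rfl fun P hP => ?_
    have hPU : P ⊆ U \ T := mem_powerset.mp hP
    have hd := disj_of hPU
    have w1 := wP_T hEXC m q B hTU hPU c
    have w3 := wP_B m q B (U \ T) hd c
    have s1 : (U \ P) \ T = (U \ T) \ P := sdiff_right_comm _ _ _
    have s2 : (B \ P) \ T = (B \ T) \ P := sdiff_right_comm _ _ _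
    have s3 : P ∩ (B \ T) = P ∩ B := by
      ext v
      simp only [mem_inter, mem_sdiff]
      constructor
      · rintro ⟨a, b, -⟩
        exact ⟨a, b⟩
      · rintro ⟨a, b⟩
        exact ⟨a, b, Finset.disjoint_left.mp hd a⟩
    rw [s1, s2, s3, w3]
    calc (-1) ^ (P ∩ B).card * wP m q B U P c * (x 0 ^ T.card * q ^ ea m (U \ P) T *
          MM m q (fun k => x k.succ) ((B \ T) \ P) ((U \ T) \ P) (c + P.card))
        = (-1) ^ (P ∩ B).card * x 0 ^ T.card * (wP m q B U P c * q ^ ea m (U \ P) T) *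
          MM m q (fun k => x k.succ) ((B \ T) \ P) ((U \ T) \ P) (c + P.card) := by ring
      _ = _ := by rw [w1]; ring

end Pool.Agent.SWK
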