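import Pool.Agent.Lib.MP_263316_co.SWK.Spec

/-!
MP_263316_co, project SWK: the expansion of `RR` as a sum over the sets `S`.
-/

set_option autoImplicit false

namespace Pool.Agent.SWK

open Finset Pool.Agent.SWC

private theorem rrs_piR {R : Type} [CommRing R] (m : ℕ → ℕ) (q : R) (B S P : Finset ℕ) :
    PiR m q (B \ P) (S \ P) = PiR m q B (S \ P) := by
  unfold PiR
  have h : (S \ P) \ (B \ P) = (S \ P) \ B := by
    ext v
    simp only [mem_sdiff]
    tauto
  rw [h]

theorem tRRS : S_RRS := by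
  intro hWT K _ N m q hq x B U c hI
  have hR : ∀ S ∈ U.powerset.filter (fun S => B ⊆ S),
      KS m q B (wa m q U S) (wb m q B U c) S * esz x (c + S.card) * XX m q x (U \ S) =
      ∑ P ∈ S.powerset, (-1) ^ (P ∩ B).card * wP m q B U P c *
        (PiR m q B (S \ P) * q ^ ea m (U \ P) (S \ P)) * esz x (c + S.card) *
        XX m q x (U \ S) := by
    intro S hS
    rw [mem_filter, mem_powerset] at hS
    unfold KS
    rw [sum_mul, sum_mul]
    refine sum_congr rfl fun P hP => ?_
    rw [mem_powerset] at hP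
    have h := hWT K m q hq B U S P c hI hS.2 hS.1 hP
    have h2 : (-1 : K) ^ (P ∩ B).card * wP m q B U P c *
        (PiR m q B (S \ P) * q ^ ea m (U \ P) (S \ P)) =
        (-1) ^ (P ∩ B).card * (∏ u ∈ S \ P, wa m q U S u) * (∏ u ∈ P, wb m q B U c u) *
          PiR m q B (S \ P) * ∏ u ∈ P \ B, (q⁻¹ ^ aL m P u * qn q (aL m P u)) := by
      rw [mul_assoc, h]
      ring
    rw [h2]
  rw [sum_congr rfl hR]
  unfold RR MM
  simp only [mul_sum]
  rw [sum_sigma', sum_sigma']
  refine sum_bij' (fun a _ => ⟨a.1 ∪ a.2, a.1⟩) (fun a _ => ⟨a.2, a.1 \ a.2⟩) ?_ ?_ ?_ ?_ ?_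
  · rintro ⟨P, M⟩ ha
    simp only [mem_sigma, mem_powerset, mem_filter] at ha ⊢
    obtain ⟨hP, hM, hB⟩ := ha
    refine ⟨⟨union_subset hP (hM.trans sdiff_subset), ?_⟩, subset_union_left⟩
    intro v hv
    rw [mem_union]
    by_cases h : v ∈ P
    · exact Or.inl h
    · exact Or.inr (hB (mem_sdiff.2 ⟨hv, h⟩))
  · rintro ⟨S, P⟩ ha
    simp only [mem_sigma, mem_powerset, mem_filter] at ha ⊢
    obtain ⟨⟨hS, hB⟩, hP⟩ := ha
    exact ⟨hP.trans hS, sdiff_subset_sdiff hS le_rfl, sdiff_subset_sdiff hB le_rfl⟩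
  · rintro ⟨P, M⟩ ha
    simp only [mem_sigma, mem_powerset, mem_filter] at ha
    obtain ⟨hP, hM, hB⟩ := ha
    have hd : Disjoint P M := by
      rw [disjoint_left]
      intro v hv hv'
      exact (mem_sdiff.1 (hM hv')).2 hv
    have h : (P ∪ M) \ P = M := by
      rw [union_sdiff_cancel_left hd]
    simp only [h]
  · rintro ⟨S, P⟩ ha
    simp only [mem_sigma, mem_powerset, mem_filter] at ha
    obtain ⟨⟨hS, hB⟩, hP⟩ := ha
    have h : P ∪ S \ P = S := union_sdiff_of_subset hP
    simp only [h]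
  · rintro ⟨P, M⟩ ha
    simp only [mem_sigma, mem_powerset, mem_filter] at ha
    obtain ⟨hP, hM, hB⟩ := ha
    have hd : Disjoint P M := by
      rw [disjoint_left]
      intro v hv hv'
      exact (mem_sdiff.1 (hM hv')).2 hv
    have h : (P ∪ M) \ P = M := by
      rw [union_sdiff_cancel_left hd]
    have h3 : U \ (P ∪ M) = (U \ P) \ M := by
      ext v
      simp only [mem_sdiff, mem_union]
      tauto
    have h4 : ((P ∪ M).card : ℤ) = P.card + M.card := by
      rw [card_union_of_disjoint hd]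
      push_cast
      rfl
    have h5 : PiR m q (B \ P) M = PiR m q B M := by
      have := rrs_piR m q B (P ∪ M) P
      rwa [h] at this
    simp only [h]
    rw [h3, h4, h5, add_assoc]
    ring

end Pool.Agent.SWK
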