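import Pool.Agent.Lib.MP_263316_co.SWK.Spec

/-!
# The expansion for `RR` (proof of `S_RX`)
-/

set_option autoImplicit false

namespace Pool.Agent.SWK

open Finset Pool.Agent.SWC

namespace RXaux

theorem qn_zero {R : Type} [CommRing R] (q : R) : qn q 0 = 0 := by
  simp [qn]

theorem aL_min (m : ℕ → ℕ) (S : Finset ℕ) (v : ℕ) (h : ∀ u ∈ S, v ≤ u) : aL m S v = 0 := by
  unfold aL
  rw [Finset.card_eq_zero, Finset.filter_eq_empty_iff]
  intro u hu h1
  have := h u hu
  omega

theorem PiR_empty {R : Type} [CommRing R] (m : ℕ → ℕ) (q : R) (S : Finset ℕ) (hS : S.Nonempty) :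
    PiR m q ∅ S = 0 := by
  unfold PiR
  rw [Finset.sdiff_empty]
  refine Finset.prod_eq_zero (Finset.min'_mem S hS) ?_
  rw [aL_min m S _ fun u hu => Finset.min'_le S u hu, qn_zero]

theorem KS_empty {K : Type} [Field K] (m : ℕ → ℕ) (q : K) (a b : ℕ → K) (S : Finset ℕ)
    (hS : S.Nonempty) : KS m q ∅ a b S = 0 := by
  unfold KS
  refine Finset.sum_eq_zero fun P hP => ?_
  rcases P.eq_empty_or_nonempty with rfl | hPn
  · rw [Finset.sdiff_empty, PiR_empty m q S hS]
    simp
  · have h : ∏ u ∈ P \ ∅, (q⁻¹ ^ aL m P u * qn q (aL m P u)) = 0 := by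
      rw [Finset.sdiff_empty]
      refine Finset.prod_eq_zero (Finset.min'_mem P hPn) ?_
      rw [aL_min m P _ fun u hu => Finset.min'_le P u hu, qn_zero, mul_zero]
    rw [h, mul_zero]

theorem KS_zero {K : Type} [Field K] (m : ℕ → ℕ) (q : K) (a b : ℕ → K) :
    KS m q ∅ a b ∅ = 1 := by
  simp [KS, PiR]

theorem wa_self {K : Type} [Field K] (m : ℕ → ℕ) (q : K) (U : Finset ℕ) :
    wa m q U U = fun _ => 1 := by
  funext u
  simp [wa, aR]

theorem ini_sdiff {m : ℕ → ℕ} {B U T : Finset ℕ} (h : Ini m B U) : Ini m (B \ T) (U \ T) := by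
  obtain ⟨h1, h2, h3⟩ := h
  refine ⟨Finset.sdiff_subset_sdiff h1 (Finset.Subset.refl _), ?_, ?_⟩
  · intro b hb u hu hub
    rw [Finset.mem_sdiff] at hb hu ⊢
    exact ⟨h2 b hb.1 u hu.1 hub, hu.2⟩
  · intro u hu v hv huv
    rw [Finset.mem_sdiff] at hu hv
    exact h3 u hu.1 v hv.1 huv

theorem ini_sdiff' {m : ℕ → ℕ} {B U T : Finset ℕ} (h : Ini m B U) (hT : T ⊆ U \ B) :
    Ini m B (U \ T) := by
  have h1 := ini_sdiff (T := T) h
  have h2 : B \ T = B := by
    rw [Finset.sdiff_eq_self_iff_disjoint]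
    exact Finset.disjoint_left.mpr fun a ha ha' => (Finset.mem_sdiff.mp (hT ha')).2 ha
  rwa [h2] at h1

/-- A stable set meets a clique in at most one element. -/
theorem card_inter_le {m : ℕ → ℕ} {B T : Finset ℕ} (hB : ∀ u ∈ B, ∀ v ∈ B, u < v → v ≤ m u)
    (hT : ind m T) : (T ∩ B).card ≤ 1 := by
  rw [Finset.card_le_one]
  intro a ha b hb
  rw [Finset.mem_inter] at ha hb
  rcases lt_trichotomy a b with h | h | h
  · exact absurd ⟨h, hB a ha.2 b hb.2 h⟩ (hT a ha.1 b hb.1)
  · exact h
  · exact absurd ⟨h, hB b hb.2 a ha.2 h⟩ (hT b hb.1 a ha.1)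

/-- The stable sets: those which do not meet the clique and those which meet it in one element. -/
theorem sum_ind {K : Type} [Field K] {m : ℕ → ℕ} {B U : Finset ℕ}
    (hB : ∀ u ∈ B, ∀ v ∈ B, u < v → v ≤ m u) (f : Finset ℕ → K) :
    ∑ T ∈ U.powerset.filter (fun T => ind m T), f T =
      ∑ T ∈ (U \ B).powerset.filter (fun T => ind m T), f T +
      ∑ T ∈ U.powerset.filter (fun T => ind m T ∧ (T ∩ B).card = 1), f T := by
  rw [← Finset.sum_filter_add_sum_filter_not (U.powerset.filter (fun T => ind m T))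
    (fun T => (T ∩ B).card = 1), add_comm]
  congr 1
  · refine Finset.sum_congr ?_ fun _ _ => rfl
    ext T
    simp only [Finset.mem_filter, Finset.mem_powerset]
    constructor
    · rintro ⟨⟨h1, h2⟩, h3⟩
      refine ⟨?_, h2⟩
      have h4 : T ∩ B = ∅ := by
        rw [← Finset.card_eq_zero]
        have := card_inter_le hB h2
        omega
      intro a ha
      rw [Finset.mem_sdiff]
      refine ⟨h1 ha, fun hb => ?_⟩
      have : a ∈ T ∩ B := Finset.mem_inter.mpr ⟨ha, hb⟩
      rw [h4] at this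
      exact absurd this (Finset.notMem_empty a)
    · rintro ⟨h1, h2⟩
      refine ⟨⟨h1.trans Finset.sdiff_subset, h2⟩, ?_⟩
      have h4 : T ∩ B = ∅ := by
        rw [← Finset.disjoint_iff_inter_eq_empty]
        exact Finset.disjoint_left.mpr fun a ha ha' => (Finset.mem_sdiff.mp (h1 ha)).2 ha'
      rw [h4, Finset.card_empty]
      omega
  · refine Finset.sum_congr ?_ fun _ _ => rfl
    rw [Finset.filter_filter]

end RXaux

open RXaux in
theorem tRX : S_RX := by
  intro hSPL hESZ hWT hRRS hRRc hKUc K _ m hm q hq hq1 N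
  induction N with
  | zero =>
    intro x B U c hB hc
    obtain ⟨-, hez, hxz⟩ := hESZ
    have h1 : RR m q x B U c = KS m q B (wa m q U U) (wb m q B U c) U *
        esz x (c + U.card) * XX m q x (U \ U) := by
      rw [hRRS hWT K 0 m q hq x B U c hB]
      refine Finset.sum_eq_single U ?_ ?_
      · intro S hS hSU
        have hSU' : S ⊆ U := Finset.mem_powerset.mp (Finset.mem_filter.mp hS).1
        have h2 : U \ S ≠ ∅ := by
          intro h
          exact hSU (Finset.Subset.antisymm hSU' (Finset.sdiff_eq_empty_iff_subset.mp h))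
        rw [hxz K m q x (U \ S), if_neg h2, mul_zero]
      · intro h
        exact absurd (Finset.mem_filter.mpr ⟨Finset.mem_powerset_self U, hB.1⟩) h
    rw [h1, Finset.sdiff_self, hxz K m q x ∅, if_pos rfl, mul_one, hez K x, hxz K m q x U, wa_self]
    rcases U.eq_empty_or_nonempty with rfl | hU
    · have hB0 : B = ∅ := Finset.subset_empty.mp hB.1
      subst hB0
      rw [KS_zero]
      simp
    · rw [if_neg hU.ne_empty, mul_zero, ite_self]
      split_ifs with hcU
      · have hc' : c = -(U.card : ℤ) := by omega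
        rcases B.eq_empty_or_nonempty with rfl | hBn
        · rw [KS_empty m q _ _ U hU, zero_mul]
        · rw [hc', hKUc K m hm q hq hq1 B U hBn hB, zero_mul]
      · rw [mul_zero]
  | succ N ih =>
    intro x B U c hB hc
    rw [hRRc K N m hm q hq x B U c hB]
    have hz : ∀ T ∈ (U \ B).powerset.filter (fun T => ind m T),
        RR m q (fun k => x k.succ) B (U \ T) (c - 1) = 0 := by
      intro T hT
      have hT' : T ⊆ U \ B := Finset.mem_powerset.mp (Finset.mem_filter.mp hT).1
      rw [ih _ B (U \ T) (c - 1) (ini_sdiff' hB hT') (by omega), if_neg (by omega)]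
    have h1 : ∑ T ∈ (U \ B).powerset.filter (fun T => ind m T), x 0 ^ T.card * q ^ ea m U T *
        (RR m q (fun k => x k.succ) B (U \ T) c +
          q ^ B.card * x 0 * RR m q (fun k => x k.succ) B (U \ T) (c - 1)) =
        (if c = 0 then (1 - q) ^ B.card else 0) *
          ∑ T ∈ (U \ B).powerset.filter (fun T => ind m T), x 0 ^ T.card * q ^ ea m U T *
            XX m q (fun k => x k.succ) (U \ T) := by
      rw [Finset.mul_sum]
      refine Finset.sum_congr rfl fun T hT => ?_
      have hT' : T ⊆ U \ B := Finset.mem_powerset.mp (Finset.mem_filter.mp hT).1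
      rw [hz T hT, ih _ B (U \ T) c (ini_sdiff' hB hT') hc]
      split_ifs <;> ring
    have h2 : (1 - q) * ∑ T ∈ U.powerset.filter (fun T => ind m T ∧ (T ∩ B).card = 1),
        x 0 ^ T.card * q ^ ea m U T * RR m q (fun k => x k.succ) (B \ T) (U \ T) c =
        (if c = 0 then (1 - q) ^ B.card else 0) *
          ∑ T ∈ U.powerset.filter (fun T => ind m T ∧ (T ∩ B).card = 1),
            x 0 ^ T.card * q ^ ea m U T * XX m q (fun k => x k.succ) (U \ T) := by
      rw [Finset.mul_sum, Finset.mul_sum]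
      refine Finset.sum_congr rfl fun T hT => ?_
      have hT1 : (T ∩ B).card = 1 := (Finset.mem_filter.mp hT).2.2
      rw [ih _ (B \ T) (U \ T) c (ini_sdiff hB) hc]
      have hcard : B.card = (B \ T).card + 1 := by
        have := Finset.card_sdiff_add_card_inter B T
        rw [Finset.inter_comm] at this
        omega
      rw [hcard, pow_succ]
      split_ifs <;> ring
    rw [h1, h2, ← mul_add, ← sum_ind hB.2.2, hSPL K N m q x U]
    split_ifs
    · rfl
    · rw [zero_mul]

end Pool.Agent.SWK
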