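import Pool.Agent.Lib.MP_263316_co.SWK.Spec

/-!
MP_263316_co, project SWK: splitting off the smallest colour.
-/

set_option autoImplicit false

namespace Pool.Agent.SWK

open Finset Pool.Agent.SWC

namespace SPLaux

theorem prod_pw {R : Type} [CommRing R] {N : ℕ} (m : ℕ → ℕ) (q : R) (v : ℕ)
    (k : Fin (N + 1)) (hk : k ≠ 0) (J : Finset ℕ) :
    ∏ u ∈ J, pw m q u 0 v k = q ^ aL m J v := by
  have h : (0 : Fin (N + 1)) < k := Fin.pos_iff_ne_zero.2 hk
  have h1 : ¬ k < 0 := not_lt.mpr h.le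
  unfold aL
  rw [← Finset.prod_const, Finset.prod_filter]
  refine Finset.prod_congr rfl fun u _ => ?_
  by_cases h3 : u < v ∧ v ≤ m u
  · rw [if_pos h3, pw_lt h3.1 h3.2, if_neg (Ne.symm hk), if_pos h]
  · rw [if_neg h3]
    by_cases h2 : v < u ∧ u ≤ m v
    · rw [pw_gt h2.1 h2.2, if_neg (Ne.symm hk), if_neg h1]
    · exact pw_of_not h3 h2 0 k

theorem pw_succ {R : Type} [CommRing R] {N : ℕ} (m : ℕ → ℕ) (q : R) (u v : ℕ) (k k' : Fin N) :
    pw m q u k.succ v k'.succ = pw m q u k v k' := by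
  unfold pw
  simp only [Fin.succ_lt_succ_iff, Fin.succ_inj]

theorem drop0 {R : Type} [CommRing R] {N : ℕ} (m : ℕ → ℕ) (q : R) (U : Finset ℕ) :
    ∀ w : ℕ → Fin (N + 1) → R, (∀ v ∈ U, w v 0 = 0) →
      Z m q U w = Z m q U (fun v k => w v (Fin.succ k)) := by
  induction U using Finset.induction_on with
  | empty =>
    intro w _
    unfold Z
    rw [Finset.toList_empty]
    rfl
  | insert v U hv ih =>
    intro w hw
    rw [Z_insert hv, Z_insert hv, Fin.sum_univ_succ, hw v (Finset.mem_insert_self v U), zero_mul,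
      zero_add]
    refine Finset.sum_congr rfl fun k _ => ?_
    rw [ih _ fun u hu => by rw [hw u (Finset.mem_insert_of_mem hu), zero_mul]]
    congr 1
    refine Z_congr fun u _ k' => ?_
    rw [pw_succ]

end SPLaux

open SPLaux in
/-- **SPL.** -/
theorem tSPL (h : S_CS) : S_SPL := by
  intro R _ N m q x U
  unfold XX
  rw [h R (N + 1) m q U _ 0]
  refine Finset.sum_congr rfl fun J _ => ?_
  rw [Finset.prod_const, mul_assoc]
  congr 1
  have h1 : Z m q (U \ J) (fun v k => if k = 0 then 0 else x k * ∏ u ∈ J, pw m q u 0 v k) =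
      Z m q (U \ J) (fun v k => (if k = 0 then 0 else x k) * q ^ aL m J v) := by
    refine Z_congr fun v _ k => ?_
    by_cases hk : k = 0
    · rw [if_pos hk, if_pos hk, zero_mul]
    · rw [if_neg hk, if_neg hk, prod_pw m q v k hk J]
  have h2 : Z m q (U \ J) (fun v k => (if k = 0 then 0 else x k) * q ^ aL m J v) =
      Z m q (U \ J) (fun _ k => (if k = 0 then 0 else x k)) * ∏ v ∈ U \ J, q ^ aL m J v :=
    Z_scale m q (U \ J) (fun v => q ^ aL m J v) (fun _ k => (if k = 0 then 0 else x k))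
  rw [h1, h2, Finset.prod_pow_eq_pow_sum, drop0 m q (U \ J) _ fun v _ => if_pos rfl, mul_comm]
  rfl

end Pool.Agent.SWK
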