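import Pool.Agent.Lib.MP_263316_co.SWK.Spec

/-!
MP_263316_co (Shareshian-Wachs), project SWK: the weights (task WT).
-/

set_option autoImplicit false

namespace Pool.Agent.SWK

open Finset Pool.Agent.SWC

private theorem wt_choose (T : Finset ℕ) :
    ∑ u ∈ T, (T.filter (fun w => w < u)).card = T.card.choose 2 := by
  induction T using Finset.induction_on_max with
  | empty => rfl
  | insert a s h ih =>
    have ha : a ∉ s := fun hs => lt_irrefl _ (h a hs)
    rw [Finset.sum_insert ha, Finset.card_insert_of_notMem ha]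
    have h1 : (insert a s).filter (fun w => w < a) = s := by
      ext w
      rw [Finset.mem_filter, Finset.mem_insert]
      constructor
      · rintro ⟨hw | hw, hlt⟩
        · rw [hw] at hlt
          exact absurd hlt (lt_irrefl _)
        · exact hw
      · intro hw
        exact ⟨Or.inr hw, h w hw⟩
    have h2 : ∑ u ∈ s, ((insert a s).filter (fun w => w < u)).card =
        ∑ u ∈ s, (s.filter (fun w => w < u)).card := by
      refine Finset.sum_congr rfl fun u hu => ?_
      congr 1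
      ext w
      rw [Finset.mem_filter, Finset.mem_filter, Finset.mem_insert]
      constructor
      · rintro ⟨hw | hw, hlt⟩
        · rw [hw] at hlt
          exact absurd (lt_trans hlt (h u hu)) (lt_irrefl _)
        · exact ⟨hw, hlt⟩
      · rintro ⟨hw, hlt⟩
        exact ⟨Or.inr hw, hlt⟩
    rw [h1, h2, ih, Nat.choose_succ_succ' s.card 1, Nat.choose_one_right]

/-- double counting of the edges from `A` to the right into `R` -/
private theorem wt_dc (m : ℕ → ℕ) (A R : Finset ℕ) :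
    ∑ v ∈ R, aL m A v = ∑ u ∈ A, aR m R u := by
  unfold aL aR
  exact Finset.sum_card_bipartiteAbove_eq_sum_card_bipartiteBelow
    (fun (v u : ℕ) => u < v ∧ v ≤ m u)

private theorem wt_split (m : ℕ → ℕ) {P U : Finset ℕ} (h : P ⊆ U) (u : ℕ) :
    aL m U u = aL m (U \ P) u + aL m P u := by
  unfold aL
  rw [← Finset.card_union_of_disjoint, ← Finset.filter_union, Finset.sdiff_union_of_subset h]
  exact Finset.disjoint_filter_filter Finset.sdiff_disjoint

private theorem wt_clique (m : ℕ → ℕ) {B U P : Finset ℕ} (hB : Ini m B U) (hP : P ⊆ U) :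
    ∑ u ∈ P ∩ B, aL m P u = (P ∩ B).card.choose 2 := by
  rw [← wt_choose]
  refine Finset.sum_congr rfl fun u hu => ?_
  unfold aL
  congr 1
  have hu' := Finset.mem_inter.1 hu
  ext w
  rw [Finset.mem_filter, Finset.mem_filter, Finset.mem_inter]
  constructor
  · rintro ⟨hw, hlt, _⟩
    exact ⟨⟨hw, hB.2.1 u hu'.2 w (hP hw) hlt⟩, hlt⟩
  · rintro ⟨⟨hw, hwB⟩, hlt⟩
    exact ⟨hw, hlt, hB.2.2 w hwB u hu'.2 hlt⟩

theorem tWT : S_WT := by
  intro K _ m q hq B U S P c hB hBS hSU hPS
  have hPU : P ⊆ U := hPS.trans hSU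
  have h1 : ea m (U \ P) (S \ P) = ∑ u ∈ S \ P, aR m (U \ S) u := by
    unfold ea
    have h2 : (U \ P) \ (S \ P) = U \ S := by
      ext v
      simp only [Finset.mem_sdiff, not_and, not_not]
      constructor
      · rintro ⟨⟨hv, hvP⟩, h⟩
        exact ⟨hv, fun hS => hvP (h hS)⟩
      · rintro ⟨hv, hvS⟩
        exact ⟨⟨hv, fun hP => hvS (hPS hP)⟩, fun hS => absurd hS hvS⟩
    rw [h2, wt_dc]
  have h3 : ∑ u ∈ P, aL m (U \ P) u = eb m U P := by
    unfold eb
    exact wt_dc m (U \ P) P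
  have h4 : ∑ u ∈ P, aL m P u = ∑ u ∈ P \ B, aL m P u + (P ∩ B).card.choose 2 := by
    rw [← wt_clique m hB hPU, ← Finset.sum_union]
    · rw [Finset.sdiff_union_inter]
    · exact Finset.disjoint_sdiff_inter P B
  have h5 : ∑ u ∈ P, (1 + aL m U u) =
      (eb m U P + P.card + (P ∩ B).card.choose 2) + ∑ u ∈ P \ B, aL m P u := by
    rw [Finset.sum_add_distrib, Finset.sum_const, smul_eq_mul, mul_one,
      Finset.sum_congr rfl (fun u _ => wt_split m hPU u), Finset.sum_add_distrib, h3, h4]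
    ring
  have h6 : ∏ u ∈ P, wb m q B U c u = (q ^ c) ^ (P ∩ B).card *
      (q ^ (eb m U P + P.card + (P ∩ B).card.choose 2) * q ^ ∑ u ∈ P \ B, aL m P u) := by
    unfold wb
    rw [Finset.prod_mul_distrib, Finset.prod_pow_eq_pow_sum, h5, pow_add]
    congr 1
    rw [Finset.prod_ite, Finset.prod_const, Finset.prod_const_one, mul_one,
      Finset.filter_mem_eq_inter]
  have h7 : ∏ u ∈ P \ B, (q⁻¹ ^ aL m P u * qn q (aL m P u)) =
      (q⁻¹ ^ ∑ u ∈ P \ B, aL m P u) * PiR m q B P := by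
    unfold PiR
    rw [Finset.prod_mul_distrib, Finset.prod_pow_eq_pow_sum]
  have h8 : ∏ u ∈ S \ P, wa m q U S u = q ^ ∑ u ∈ S \ P, aR m (U \ S) u := by
    unfold wa
    rw [Finset.prod_pow_eq_pow_sum]
  have h9 : q ^ (∑ u ∈ P \ B, aL m P u) * q⁻¹ ^ (∑ u ∈ P \ B, aL m P u) = 1 := by
    rw [← mul_pow, mul_inv_cancel₀ hq, one_pow]
  rw [h6, h7, h8, h1]
  unfold wP
  calc _ = PiR m q B P * q ^ (eb m U P + P.card + (P ∩ B).card.choose 2) *
      (q ^ c) ^ (P ∩ B).card * (PiR m q B (S \ P) * q ^ ∑ u ∈ S \ P, aR m (U \ S) u) * 1 := by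
        rw [mul_one]
    _ = _ := by
        rw [← h9]
        ring

end Pool.Agent.SWK
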