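import Pool.Agent.Lib.MP_263316_co.SWK.Spec

/-!
# The expansion (proof of `S_XF`)
-/

set_option autoImplicit false

namespace Pool.Agent.SWK

open Finset Pool.Agent.SWC

theorem tXF : S_XF := by
  intro hSPL hESZ hWT hRRS hRRc hKUc hRX K _ m hm q hq hq1 N x B U hB
  have h1 := hRX hSPL hESZ hWT hRRS hRRc hKUc K m hm q hq hq1 N x B U 0 hB le_rfl
  rw [if_pos rfl] at h1
  rw [← h1, hRRS hWT K N m q hq x B U 0 hB]
  refine Finset.sum_congr rfl fun S _ => ?_
  have h2 : wb m q B U 0 = fun u => q ^ (1 + aL m U u) := by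
    funext u
    unfold wb
    split_ifs
    · rw [zpow_zero, one_mul]
    · rw [one_mul]
  have h3 : wa m q U S = fun u => q ^ aR m (U \ S) u := rfl
  have h4 : esz x (0 + (S.card : ℤ)) = es x S.card := by
    unfold esz
    rw [zero_add, if_neg (by omega), Int.toNat_natCast]
  rw [h2, h3, h4]

end Pool.Agent.SWK
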