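import Pool.Agent.Lib.MP_263316_co.Spec

/-!
MP_263316_co (Shareshian-Wachs), project SWK (architect helper19): specification.

THEOREM. Let `U` be (the vertex set of) a natural unit interval graph, `r = min U`,
`B = N[r]` the closed neighbourhood of the first vertex. Assume

  (D) every vertex `u` of `U` has at most `l(u) + 1` right neighbours outside `B`
      (`l(u)` = number of its left neighbours),

and that Shareshian-Wachs (e-positive, palindromic, unimodal coefficients) holds for all induced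
subgraphs of `U \ B`. Then it holds for `U`. The same with left and right exchanged. Together with
the theorem of part CB (all blocks co-bipartite or `K_5` minus an edge free) and closure under
disjoint unions this gives the class `Nice` of `S_FINALK`.

PROOF. For every initial clique `B` (not only `N[r]`) there is the expansion
  `X_U = sum over S with B ⊆ S ⊆ U of kappa(S) e_{|S|} X_{U \ S}`                      (`S_XF`)
where `(1-q)^|B| kappa(S) = KS(S)` is the sum `KS` below over all splittings of `S` in a part below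
(weights `a u = q^(number of right neighbours in U \ S)`) and a part `P` above (weights
`b u = q^(1 + number of left neighbours in U)`). `KS` satisfies a two-term recursion for the
last vertex (`S_KREC`), and is linear in each pair `(a u, b u)`. The expansion is proved by
induction on the number `N` of variables, splitting off the smallest colour (`S_RM`, `S_RR`), for
the functions `RR(c)` with `c ≤ 0` (for `c < 0` they are zero); the case `N = 0` is the closed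
formula `S_KU`. Under (D) the recursion and linearity show that `kappa(S)` is palindromic
and unimodal (`S_KPU`). All identities were checked numerically (all graphs with at most 4 vertices,
all initial cliques).

NOTATION (file Base.lean): graph `m : ℕ → ℕ` monotone, `u < v` adjacent iff `v ≤ m u`;
`aL m S v`, `aR m S v` numbers of left / right neighbours of `v` in `S`; `ea m U S` (`eb m U S`)
number of edges from `S` to the right (left) into `U \ S`; `qn q n = 1 + ... + q^(n-1)`;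
`XX m q x U` the chromatic quasisymmetric function; `es x d` the elementary symmetric function.
-/

set_option autoImplicit false

namespace Pool.Agent.SWK

open Finset Pool.Agent.SWC

/-- product of the q-integers of the left degrees inside `S` over `S \ B` -/
def PiR {R : Type} [CommRing R] (m : ℕ → ℕ) (q : R) (B S : Finset ℕ) : R :=
  ∏ v ∈ S \ B, qn q (aL m S v)

/-- `B` is an initial clique of `U` -/
def Ini (m : ℕ → ℕ) (B U : Finset ℕ) : Prop :=
  B ⊆ U ∧ (∀ b ∈ B, ∀ u ∈ U, u < b → u ∈ B) ∧ ∀ u ∈ B, ∀ v ∈ B, u < v → v ≤ m u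

/-- local sums over stable `J ⊆ D \ B` disjoint from `L`, first kind -/
def lA {R : Type} [CommRing R] (m : ℕ → ℕ) (q y : R) (B D L : Finset ℕ) : R :=
  ∑ J ∈ (D \ B).powerset.filter (fun J => ind m J ∧ Disjoint J L),
    y ^ J.card * q ^ (∑ v ∈ J, aL m (D \ J) v) * PiR m q B (D \ J)

/-- second kind -/
def lB {R : Type} [CommRing R] (m : ℕ → ℕ) (q y : R) (B D L : Finset ℕ) : R :=
  ∑ J ∈ (D \ B).powerset.filter (fun J => ind m J ∧ Disjoint J L),
    y ^ J.card * q ^ (∑ v ∈ J, aR m (D \ J) v) * PiR m q B (D \ J)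

/-- third kind: `J` contains exactly one vertex of `B` -/
def lG {R : Type} [CommRing R] (m : ℕ → ℕ) (q y : R) (B D L : Finset ℕ) : R :=
  ∑ J ∈ D.powerset.filter (fun J => ind m J ∧ (J ∩ B).card = 1 ∧ Disjoint J L),
    y ^ J.card * q ^ (∑ v ∈ J, aR m (D \ J) v) * PiR m q B (D \ J)

/-- elementary symmetric functions with integer index -/
def esz {R : Type} [CommRing R] {N : ℕ} (x : Fin N → R) (c : ℤ) : R :=
  if c < 0 then 0 else es x c.toNat

/-- sum over the clusters `M ⊇ B` below all colours -/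
noncomputable def MM {R : Type} [CommRing R] {N : ℕ} (m : ℕ → ℕ) (q : R) (x : Fin N → R)
    (B U : Finset ℕ) (k : ℤ) : R :=
  ∑ M ∈ U.powerset.filter (fun M => B ⊆ M),
    PiR m q B M * q ^ ea m U M * esz x (k + M.card) * XX m q x (U \ M)

/-- weight of the cluster `P` above all colours (without the sign) -/
def wP {K : Type} [Field K] (m : ℕ → ℕ) (q : K) (B U P : Finset ℕ) (c : ℤ) : K :=
  PiR m q B P * q ^ (eb m U P + P.card + ((P ∩ B).card).choose 2) * (q ^ c) ^ (P ∩ B).card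

/-- the right-hand side of the expansion, `(1-q)^|B|` times `X_{K_c ∪ U} / [c]!` for `c ≥ 0` -/
noncomputable def RR {K : Type} [Field K] {N : ℕ} (m : ℕ → ℕ) (q : K) (x : Fin N → K)
    (B U : Finset ℕ) (c : ℤ) : K :=
  ∑ P ∈ U.powerset, (-1) ^ (P ∩ B).card * wP m q B U P c *
    MM m q x (B \ P) (U \ P) (c + P.card)

/-- `(1-q)^|B|` times the coefficient `kappa(S)`, with general weights -/
def KS {K : Type} [Field K] (m : ℕ → ℕ) (q : K) (B : Finset ℕ) (a b : ℕ → K)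
    (S : Finset ℕ) : K :=
  ∑ P ∈ S.powerset, (-1) ^ (P ∩ B).card * (∏ u ∈ S \ P, a u) * (∏ u ∈ P, b u) *
    PiR m q B (S \ P) * ∏ u ∈ P \ B, (q⁻¹ ^ aL m P u * qn q (aL m P u))

/-- weights of the part below -/
def wa {K : Type} [Field K] (m : ℕ → ℕ) (q : K) (U S : Finset ℕ) (u : ℕ) : K :=
  q ^ aR m (U \ S) u

/-- weights of the part above -/
def wb {K : Type} [Field K] (m : ℕ → ℕ) (q : K) (B U : Finset ℕ) (c : ℤ) (u : ℕ) : K :=
  (if u ∈ B then q ^ c else 1) * q ^ (1 + aL m U u)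

/-- left neighbours of `t` in `S` -/
def NL (m : ℕ → ℕ) (S : Finset ℕ) (t : ℕ) : Finset ℕ := S.filter (fun u => u < t ∧ t ≤ m u)

/-! ## Part L: the local lemma -/

/-- TASK LREC (recurrences for the last vertex `t`). `M = NL m D' t` is a clique (for `u < v` in
`M`: `v < t ≤ m u`), so a stable `J` meets `M` in at most one vertex; `μ = |M| = aL m D' t`. The
stable `J ⊆ insert t D' \ B` disjoint from `insert t L` are the stable `J ⊆ D' \ B` disjoint from
`L`; for them `insert t D' \ J = insert t (D' \ J)`, `aL (insert t (D' \ J)) v = aL (D' \ J) v` for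
all `v < t`, `aR (insert t (D' \ J)) v = aR (D' \ J) v + [v ∈ M]`, and `PiR` gets the new factor
`qn q (aL m (D' \ J) t) = qn q (μ - |J ∩ M|)` (`t ∉ B`). Split according to `J ∩ M = ∅` (that is,
`J` disjoint from `L ∪ M`) or `|J ∩ M| = 1`. The stable `J` containing `t` are `insert t J'`
with `J'` stable and disjoint from `M`; `insert t D' \ J = D' \ J'`, `aL m (D' \ J') t = μ`,
`aR m (D' \ J') t = 0`, the other exponents do not change, `|J ∩ B| = |J' ∩ B|`. (`μ = 0`: `M = ∅`,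
both sides of the first formulas are zero because `qn q 0 = 0`.) -/
def S_LREC : Prop := ∀ (R : Type) [CommRing R] (m : ℕ → ℕ), Monotone m → ∀ (q y : R) (t : ℕ)
  (B D' : Finset ℕ), t ∉ B → (∀ u ∈ D', u < t) →
  (∀ L ⊆ D', lA m q y B (insert t D') (insert t L) =
    qn q (aL m D' t) * lA m q y B D' (L ∪ NL m D' t) +
    qn q (aL m D' t - 1) * (lA m q y B D' L - lA m q y B D' (L ∪ NL m D' t))) ∧
  (∀ L ⊆ D', lB m q y B (insert t D') (insert t L) =
    qn q (aL m D' t) * lB m q y B D' (L ∪ NL m D' t) +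
    q * qn q (aL m D' t - 1) * (lB m q y B D' L - lB m q y B D' (L ∪ NL m D' t))) ∧
  (∀ L ⊆ D', lG m q y B (insert t D') (insert t L) =
    qn q (aL m D' t) * lG m q y B D' (L ∪ NL m D' t) +
    q * qn q (aL m D' t - 1) * (lG m q y B D' L - lG m q y B D' (L ∪ NL m D' t))) ∧
  lA m q y B (insert t D') ∅ = lA m q y B (insert t D') {t} +
    y * q ^ aL m D' t * lA m q y B D' (NL m D' t) ∧
  lB m q y B (insert t D') ∅ = lB m q y B (insert t D') {t} + y * lB m q y B D' (NL m D' t) ∧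
  lG m q y B (insert t D') ∅ = lG m q y B (insert t D') {t} + y * lG m q y B D' (NL m D' t)

/-- TASK LOC (local lemma). Write `b = |B|`, `A[L] = lA D L` etc. Claims, proved together by
induction on `|D|`, for `Ini m B D`:
(L) `(1+y) A[∅] = (1 + q^b y) B[∅] + (1-q) G[∅]`;
(R) for every `ℓ` such that `L = {v ∈ D : ℓ ≤ v}` is a nonempty clique:
 `(1+y) q^(|L|-1) ((1+qy) A[L] - A[∅]) = (1+q^b y) ((1+y) B[L] - B[∅]) + (1-q) ((1+y) G[L] - G[∅])`.
`D = B`: `A[L] = B[L] = 1`, `G[L] = y ([b] - [|L|])` (the `J` are the `{j}`, `j ∈ B \ L`, with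
exponent the number of larger elements of `B`, which for a final segment `L` of size `l` runs
over `l, ..., b - 1`; `qn q b - qn q l = ∑_{l ≤ i < b} q^i`), and (L), (R) are polynomial
identities (`(1-q) qn q n = 1 - q^n`).
Otherwise `t = max D ∉ B`, `D = insert t D'`, `M = NL m D' t`, `μ = |M|` (`Ini m B D'` holds). Let
`A', B', G'` be the sums for `D'`. By `S_LREC` (with `[μ] = [μ-1] + q^(μ-1)`, `[μ] = 1 + q [μ-1]`
for `μ ≥ 1`):
(L) for `μ ≥ 1` is `[μ]` times (L) for `D'` plus (R) for `D'` and `M` (a nonempty final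
segment of `D'`: `M = {v ∈ D' : min M ≤ v}` by monotonicity of `m`, and a clique), because
 `A[∅] = [μ] A'[∅] - q^(μ-1) (A'[∅] - A'[M]) + y q^μ A'[M]`,
 `B[∅] = [μ] B'[∅] - (B'[∅] - B'[M]) + y B'[M]`, same for `G`.
For `μ = 0`: `A[∅] = y A'[∅]`, `B[∅] = y B'[∅]`, `G[∅] = y G'[∅]`.
(R) for `D`, `L = insert t L'`, `L' = {v ∈ D' : ℓ ≤ v} ⊆ M` (`ℓ ≤ t`, else `L = ∅`; `L` is a
clique): if `μ = 0`: `L = {t}`, `A[L] = B[L] = G[L] = 0` and (R) is `-y` times (L) for `D'`. If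
`μ ≥ 1`: `A[L] = [μ] A'[M] + [μ-1] (A'[L'] - A'[M])` (`L' ∪ M = M`), and one finds
 `(1+qy) A[L] - A[∅] = [μ-1] ((1+qy) A'[L'] - A'[∅])`,
 `(1+y) B[L] - B[∅] = q [μ-1] ((1+y) B'[L'] - B'[∅])`, same for `G`;
so (R) is `q [μ-1]` times (R) for `D'`, `L'` if `L' ≠ ∅`, and `q [μ-1] y` times (L) for `D'` if
`L' = ∅`. -/
def S_LOC : Prop := ∀ (R : Type) [CommRing R] (m : ℕ → ℕ), Monotone m → ∀ (q y : R)
  (B D : Finset ℕ), Ini m B D →
  ((1 + y) * lA m q y B D ∅ = (1 + q ^ B.card * y) * lB m q y B D ∅ +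
    (1 - q) * lG m q y B D ∅) ∧
  (∀ l : ℕ, (D.filter (fun v => l ≤ v)).Nonempty →
    (∀ u ∈ D.filter (fun v => l ≤ v), ∀ v ∈ D.filter (fun v => l ≤ v), u < v → v ≤ m u) →
    (1 + y) * q ^ ((D.filter (fun v => l ≤ v)).card - 1) *
      ((1 + q * y) * lA m q y B D (D.filter (fun v => l ≤ v)) - lA m q y B D ∅) =
    (1 + q ^ B.card * y) *
      ((1 + y) * lB m q y B D (D.filter (fun v => l ≤ v)) - lB m q y B D ∅) +
    (1 - q) * ((1 + y) * lG m q y B D (D.filter (fun v => l ≤ v)) - lG m q y B D ∅))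

/-- TASK LOCF (local lemma with a linear functional `y^i ↦ φ i`). Apply the first part of `S_LOC` in
`Polynomial R` with `C q` and `y = X` (`PiR m (C q) B S = C (PiR m q B S)`, `qn (C q) n =
C (qn q n)`), compare the coefficients of `X^i` for all `i`, multiply by `φ i` and sum over
`i ≤ |D| + 1` (all polynomials have degree at most `|D| + 1`). Or: both sides are linear in `φ`
and depend only on the values on `range (|D| + 2)`. -/
def S_LOCF : Prop := ∀ (R : Type) [CommRing R] (m : ℕ → ℕ), Monotone m → ∀ (q : R) (φ : ℕ → R)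
  (B D : Finset ℕ), Ini m B D →
  ∑ J ∈ (D \ B).powerset.filter (fun J => ind m J), (φ J.card + φ (J.card + 1)) *
      q ^ (∑ v ∈ J, aL m (D \ J) v) * PiR m q B (D \ J) =
    ∑ J ∈ (D \ B).powerset.filter (fun J => ind m J), (φ J.card + q ^ B.card * φ (J.card + 1)) *
      q ^ (∑ v ∈ J, aR m (D \ J) v) * PiR m q B (D \ J) +
    (1 - q) * ∑ J ∈ D.powerset.filter (fun J => ind m J ∧ (J ∩ B).card = 1), φ J.card *
      q ^ (∑ v ∈ J, aR m (D \ J) v) * PiR m q B (D \ J)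

/-! ## Part X: splitting off the smallest colour -/

/-- TASK SPL. `S_CS` for the colour `0 : Fin (N+1)` and the weights `w v k = x k`:
`XX U = ∑_T x_0^|T| Z (U \ T) (fun v k => if k = 0 then 0 else x k * ∏_{u ∈ T} pw m q u 0 v k)`; for
`k ≠ 0` and `v ∉ T` the product is `q ^ aL m T v` (a left neighbour `u ∈ T` of `v` contributes `q`,
a right neighbour `1`; compare `prod_pw` in CS1.lean), so `Z_scale` gives the factor
`∏_{v ∈ U \ T} q^(aL m T v) = q^(ea m U T)`. Finally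
`Z m q U (fun v k => if k = 0 then 0 else x k) = Z m q U (fun v k => x k.succ)` (colours `Fin N`):
prove for all weights `w` with `w v 0 = 0` by induction on `U` (`Z_insert`, `Fin.sum_univ_succ`,
`pw m q v k.succ u k'.succ = pw m q v k u k'`). -/
def S_SPL : Prop := ∀ (R : Type) [CommRing R] (N : ℕ) (m : ℕ → ℕ) (q : R) (x : Fin (N + 1) → R)
  (U : Finset ℕ), XX m q x U = ∑ T ∈ U.powerset.filter (fun T => ind m T),
    x 0 ^ T.card * q ^ ea m U T * XX m q (fun k => x k.succ) (U \ T)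

/-- TASK ESZ. For `c = d + 1 > 0` split the subsets of `Fin (N+1)` with `d + 1` elements according
to whether they contain `0` (or use `Finset.prod_one_add` / the product
`∏ (1 + C (x k) X)` and `Fin.prod_univ_succ`, see `S_COEF`); `c = 0`: `es x 0 = 1`; `c < 0`: zero.
Second part: `Fin 0` has only the empty subset. -/
def S_ESZ : Prop := (∀ (R : Type) [CommRing R] (N : ℕ) (x : Fin (N + 1) → R) (c : ℤ),
    esz x c = esz (fun k => x k.succ) c + x 0 * esz (fun k => x k.succ) (c - 1)) ∧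
  (∀ (R : Type) [CommRing R] (x : Fin 0 → R) (c : ℤ), esz x c = if c = 0 then 1 else 0) ∧
  (∀ (R : Type) [CommRing R] (m : ℕ → ℕ) (q : R) (x : Fin 0 → R) (U : Finset ℕ),
    XX m q x U = if U = ∅ then 1 else 0)

/-- TASK EXC (exponents). For disjoint `A`, `T` contained in `U`, with `D = A ∪ T`:
(1) `ea U A + ea (U \ A) T = ea U D + ∑_{v ∈ T} aL (D \ T) v` (edges from `A` to the right: to
`U \ D` or to `T`);
(2) `ea U T + ea (U \ T) A = ea U D + ∑_{v ∈ T} aR (D \ T) v` (edges from `T` to the right: to `A` or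
to `U \ D`; `e(T → A) = ∑_{v ∈ T} aR A v`);
(3) `eb U A + ea (U \ A) T = eb (U \ T) A + ea U T` (`e(T → A)` is counted on both sides).
Write all as double sums of indicators. -/
def S_EXC : Prop := ∀ (m : ℕ → ℕ) (U A T : Finset ℕ), A ⊆ U → T ⊆ U → Disjoint A T →
  (ea m U A + ea m (U \ A) T = ea m U (A ∪ T) + ∑ v ∈ T, aL m ((A ∪ T) \ T) v) ∧
  (ea m U T + ea m (U \ T) A = ea m U (A ∪ T) + ∑ v ∈ T, aR m ((A ∪ T) \ T) v) ∧
  (eb m U A + ea m (U \ A) T = eb m (U \ T) A + ea m U T)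

/-- TASK RM1. `x' = fun k => x k.succ`. Expand `MM x` with `S_SPL` for `XX (U \ M)` and `S_ESZ` for
`esz`; the pairs `(M, T)`, `B ⊆ M ⊆ U`, `T ⊆ U \ M` stable, correspond to the pairs `(D, T)`,
`B ⊆ D ⊆ U`, `T ⊆ D \ B` stable (`D = M ∪ T`, `M = D \ T`); `|M| = |D| - |T|`, exponents by
`S_EXC` (1). -/
def S_RM1 : Prop := S_SPL → S_ESZ → S_EXC → ∀ (R : Type) [CommRing R] (N : ℕ) (m : ℕ → ℕ)
  (q : R) (x : Fin (N + 1) → R) (B U : Finset ℕ) (k : ℤ), B ⊆ U →
  MM m q x B U k = ∑ D ∈ U.powerset.filter (fun D => B ⊆ D),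
    q ^ ea m U D * XX m q (fun k => x k.succ) (U \ D) *
    ∑ T ∈ (D \ B).powerset.filter (fun T => ind m T),
      (x 0 ^ T.card * esz (fun k => x k.succ) (k + D.card - T.card) +
        x 0 ^ (T.card + 1) * esz (fun k => x k.succ) (k + D.card - (T.card + 1))) *
      q ^ (∑ v ∈ T, aL m (D \ T) v) * PiR m q B (D \ T)

/-- TASK RM2. Expand the `MM` on the left-hand side; the pairs `(T, M)`, `T ⊆ U \ B` stable,
`B ⊆ M ⊆ U \ T`, correspond to the pairs `(D, T)` with `D = M ∪ T`, `T ⊆ D \ B` stable; exponents by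
`S_EXC` (2) (with `A = M`); `|M| = |D| - |T|`. -/
def S_RM2 : Prop := S_EXC → ∀ (R : Type) [CommRing R] (N : ℕ) (m : ℕ → ℕ)
  (q α β : R) (x : Fin N → R) (B U : Finset ℕ) (k : ℤ), B ⊆ U →
  ∑ T ∈ (U \ B).powerset.filter (fun T => ind m T), α ^ T.card * q ^ ea m U T *
      (MM m q x B (U \ T) k + β * MM m q x B (U \ T) (k - 1)) =
    ∑ D ∈ U.powerset.filter (fun D => B ⊆ D), q ^ ea m U D * XX m q x (U \ D) *
    ∑ T ∈ (D \ B).powerset.filter (fun T => ind m T),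
      (α ^ T.card * esz x (k + D.card - T.card) +
        β * α ^ T.card * esz x (k + D.card - (T.card + 1))) *
      q ^ (∑ v ∈ T, aR m (D \ T) v) * PiR m q B (D \ T)

/-- TASK RM3. Same for stable `T ⊆ U` with `|T ∩ B| = 1` and `MM` with the roots `B \ T`: the pairs
`(T, M)` with `B \ T ⊆ M ⊆ U \ T` correspond to the pairs `(D, T)`, `D = M ∪ T ⊇ B`, `T ⊆ D`
stable with `|T ∩ B| = 1`; `PiR m q (B \ T) M = PiR m q B M` because `M` is disjoint from `T`. -/
def S_RM3 : Prop := S_EXC → ∀ (R : Type) [CommRing R] (N : ℕ) (m : ℕ → ℕ)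
  (q α : R) (x : Fin N → R) (B U : Finset ℕ) (k : ℤ), B ⊆ U →
  ∑ T ∈ U.powerset.filter (fun T => ind m T ∧ (T ∩ B).card = 1), α ^ T.card * q ^ ea m U T *
      MM m q x (B \ T) (U \ T) k =
    ∑ D ∈ U.powerset.filter (fun D => B ⊆ D), q ^ ea m U D * XX m q x (U \ D) *
    ∑ T ∈ D.powerset.filter (fun T => ind m T ∧ (T ∩ B).card = 1),
      α ^ T.card * esz x (k + D.card - T.card) *
      q ^ (∑ v ∈ T, aR m (D \ T) v) * PiR m q B (D \ T)

/-- TASK RM (recursion for `MM`). `S_RM1`, then for every `D` `S_LOCF` with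
`φ i = x_0^i * esz x' (k + |D| - i)` (`Ini m B D` holds), then `S_RM2` (`α = x 0`,
`β = q^|B| * x 0`) and `S_RM3` (`α = x 0`). -/
def S_RM : Prop := S_LOCF → S_RM1 → S_RM2 → S_RM3 → S_SPL → S_ESZ → S_EXC →
  ∀ (R : Type) [CommRing R] (N : ℕ) (m : ℕ → ℕ), Monotone m →
  ∀ (q : R) (x : Fin (N + 1) → R) (B U : Finset ℕ) (k : ℤ), Ini m B U →
  MM m q x B U k =
    ∑ T ∈ (U \ B).powerset.filter (fun T => ind m T), x 0 ^ T.card * q ^ ea m U T *
      (MM m q (fun k => x k.succ) B (U \ T) k +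
        q ^ B.card * x 0 * MM m q (fun k => x k.succ) B (U \ T) (k - 1)) +
    (1 - q) * ∑ T ∈ U.powerset.filter (fun T => ind m T ∧ (T ∩ B).card = 1),
      x 0 ^ T.card * q ^ ea m U T * MM m q (fun k => x k.succ) (B \ T) (U \ T) k

/-- conclusion of `S_RM` -/
def RMc : Prop := ∀ (R : Type) [CommRing R] (N : ℕ) (m : ℕ → ℕ), Monotone m →
  ∀ (q : R) (x : Fin (N + 1) → R) (B U : Finset ℕ) (k : ℤ), Ini m B U →
  MM m q x B U k =
    ∑ T ∈ (U \ B).powerset.filter (fun T => ind m T), x 0 ^ T.card * q ^ ea m U T *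
      (MM m q (fun k => x k.succ) B (U \ T) k +
        q ^ B.card * x 0 * MM m q (fun k => x k.succ) B (U \ T) (k - 1)) +
    (1 - q) * ∑ T ∈ U.powerset.filter (fun T => ind m T ∧ (T ∩ B).card = 1),
      x 0 ^ T.card * q ^ ea m U T * MM m q (fun k => x k.succ) (B \ T) (U \ T) k

/-- TASK RR (recursion for `RR`). Insert `RMc` (for `U \ P`, `B \ P`: `Ini` passes to
`U \ P`, and `k = c + |P|`) in the definition of `RR` and exchange the sums over `P` and `T`: the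
pairs `P ⊆ U`, `T ⊆ (U \ P) \ (B \ P)` correspond to `T ⊆ U \ B`, `P ⊆ U \ T`, and
`|T ∩ (B \ P)| = |T ∩ B|` for `T ⊆ U \ P`. By `S_EXC` (3) with `A = P`:
`q^(eb U P) q^(ea (U \ P) T) = q^(ea U T) q^(eb (U \ T) P)`, so
`wP m q B U P c * q^(ea (U \ P) T) = q^(ea U T) * wP m q B (U \ T) P c`, and
`(q^(c-1))^t q^|B| = (q^c)^t q^(|B|-t)`, `|B \ P| = |B| - t`, `t = |P ∩ B|`. In the last sum
`T ∩ P = ∅`, so `P ∩ (B \ T) = P ∩ B`, `PiR m q (B \ T) P = PiR m q B P`,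
`(B \ P) \ T = (B \ T) \ P`, `c - 1 + |P| = (c + |P|) - 1`. -/
def S_RR : Prop := RMc → S_EXC → ∀ (K : Type) [Field K] (N : ℕ) (m : ℕ → ℕ), Monotone m →
  ∀ (q : K), q ≠ 0 → ∀ (x : Fin (N + 1) → K) (B U : Finset ℕ) (c : ℤ), Ini m B U →
  RR m q x B U c =
    ∑ T ∈ (U \ B).powerset.filter (fun T => ind m T), x 0 ^ T.card * q ^ ea m U T *
      (RR m q (fun k => x k.succ) B (U \ T) c +
        q ^ B.card * x 0 * RR m q (fun k => x k.succ) B (U \ T) (c - 1)) +
    (1 - q) * ∑ T ∈ U.powerset.filter (fun T => ind m T ∧ (T ∩ B).card = 1),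
      x 0 ^ T.card * q ^ ea m U T * RR m q (fun k => x k.succ) (B \ T) (U \ T) c

/-- conclusion of `S_RR` -/
def RRc : Prop := ∀ (K : Type) [Field K] (N : ℕ) (m : ℕ → ℕ), Monotone m →
  ∀ (q : K), q ≠ 0 → ∀ (x : Fin (N + 1) → K) (B U : Finset ℕ) (c : ℤ), Ini m B U →
  RR m q x B U c =
    ∑ T ∈ (U \ B).powerset.filter (fun T => ind m T), x 0 ^ T.card * q ^ ea m U T *
      (RR m q (fun k => x k.succ) B (U \ T) c +
        q ^ B.card * x 0 * RR m q (fun k => x k.succ) B (U \ T) (c - 1)) +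
    (1 - q) * ∑ T ∈ U.powerset.filter (fun T => ind m T ∧ (T ∩ B).card = 1),
      x 0 ^ T.card * q ^ ea m U T * RR m q (fun k => x k.succ) (B \ T) (U \ T) c

/-! ## Part K: the coefficients -/

/-- TASK WT (weights). `R = U \ S`. Exponents of `q`: `ea (U \ P) (S \ P) = ∑_{u ∈ S \ P} aR R u`
(edges from `S \ P` to `(U \ P) \ (S \ P) = R`); `∑_{u ∈ P} aL U u = e(U \ P → P) + ∑_{u ∈ P} aL P u =
eb U P + ∑_{u ∈ P \ B} aL P u + ∑_{u ∈ P ∩ B} aL P u`, and the last sum is `C(|P ∩ B|, 2)`: for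
`u ∈ P ∩ B` the left neighbours of `u` in `P` are the elements of `P ∩ B` smaller than `u` (`B` is an
initial clique of `U`). So `∏_{u ∈ P} wb u * ∏_{u ∈ P \ B} q⁻¹^(aL P u) =
(q^c)^|P ∩ B| * q^(|P| + eb U P + C(|P ∩ B|, 2))`. -/
def S_WT : Prop := ∀ (K : Type) [Field K] (m : ℕ → ℕ), ∀ (q : K), q ≠ 0 →
  ∀ (B U S P : Finset ℕ) (c : ℤ), Ini m B U → B ⊆ S → S ⊆ U → P ⊆ S →
  wP m q B U P c * (PiR m q B (S \ P) * q ^ ea m (U \ P) (S \ P)) =
    (∏ u ∈ S \ P, wa m q U S u) * (∏ u ∈ P, wb m q B U c u) *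
    PiR m q B (S \ P) * ∏ u ∈ P \ B, (q⁻¹ ^ aL m P u * qn q (aL m P u))

/-- TASK RRS. In the definition of `RR` expand `MM`; the pairs `(P, M)`, `P ⊆ U`,
`B \ P ⊆ M ⊆ U \ P`, correspond to the pairs `(S, P)`, `B ⊆ S ⊆ U`, `P ⊆ S` (`S = P ∪ M`,
`M = S \ P`); `PiR m q (B \ P) M = PiR m q B M`, `c + |P| + |M| = c + |S|`,
`(U \ P) \ M = U \ S`, and `S_WT`. -/
def S_RRS : Prop := S_WT → ∀ (K : Type) [Field K] (N : ℕ) (m : ℕ → ℕ), ∀ (q : K), q ≠ 0 →
  ∀ (x : Fin N → K) (B U : Finset ℕ) (c : ℤ), Ini m B U →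
  RR m q x B U c = ∑ S ∈ U.powerset.filter (fun S => B ⊆ S),
    KS m q B (wa m q U S) (wb m q B U c) S * esz x (c + S.card) * XX m q x (U \ S)

/-- TASK KB. `S = B`: `PiR = 1`, `P \ B = ∅`; the sum over `P ⊆ B` is the expansion of
`∏_{u ∈ B} (a u - b u)` (`Finset.prod_add` or `Finset.prod_sub`-like: `∏ (a + (-b))`). -/
def S_KB : Prop := ∀ (K : Type) [Field K] (m : ℕ → ℕ) (q : K) (B : Finset ℕ) (a b : ℕ → K),
  KS m q B a b B = ∏ u ∈ B, (a u - b u)

/-- TASK KREC (recursion for the last vertex `t ∉ B`, `L = aL m S t`, `N = NL m S t`). The `P` in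
`insert t S` are the `P' ⊆ S` and the `insert t P'`. With `n0 = |N \ P'| = aL m (S \ P') t` and
`n1 = |N ∩ P'| = aL m P' t`, `n0 + n1 = L`, the terms of `P'` and `insert t P'` are the term of `P'`
in `KS S` times `a t [n0]` and `b t q^(-n1) [n1]` (the other `aL` do not change: `t` is larger than
all elements of `S`), and the term of `P'` in `KS S` with `a` replaced by `q a` on `N` is the one
with `a` times `q^n0`. Finally `(1-q) (a [n0] + b q^(-n1) [n1]) = (a - b) - q^n0 (a - q^(-L) b)`. -/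
def S_KREC : Prop := ∀ (K : Type) [Field K] (m : ℕ → ℕ) (q : K), q ≠ 0 →
  ∀ (B S : Finset ℕ) (t : ℕ) (a b : ℕ → K), t ∉ B → (∀ u ∈ S, u < t) →
  (1 - q) * KS m q B a b (insert t S) = (a t - b t) * KS m q B a b S -
    (a t - q⁻¹ ^ aL m S t * b t) *
      KS m q B (fun u => if u ∈ NL m S t then q * a u else a u) b S

/-- TASK KLIN. `KS` is linear in the pair `(a u0, b u0)` for `u0 ∈ S`: every term of the sum
contains exactly one of the factors `a u0` (`u0 ∈ S \ P`) and `b u0` (`u0 ∈ P`), and no other factor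
depends on them. -/
def S_KLIN : Prop := ∀ (K : Type) [Field K] (m : ℕ → ℕ) (q : K) (B S : Finset ℕ) (u0 : ℕ)
  (a b : ℕ → K), u0 ∈ S → ∃ A A' : K, ∀ α β : K,
  KS m q B (Function.update a u0 α) (Function.update b u0 β) S = α * A + β * A'

/-- TASK KT1. By `S_KLIN` the four values are linear in the pair of weights at `u0`:
`(α-β) (y A + z A') - (α - q⁻¹ β) (q y A + z A') = (1-q) (α y A + q⁻¹ β z A')`. -/
def S_KT1 : Prop := S_KLIN → ∀ (K : Type) [Field K] (m : ℕ → ℕ) (q : K), q ≠ 0 →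
  ∀ (B S : Finset ℕ) (u0 : ℕ) (a b : ℕ → K) (α β y z : K), u0 ∈ S →
  (α - β) * KS m q B (Function.update a u0 y) (Function.update b u0 z) S -
    (α - q⁻¹ * β) * KS m q B (Function.update a u0 (q * y)) (Function.update b u0 z) S =
  (1 - q) * KS m q B (Function.update a u0 (α * y)) (Function.update b u0 (q⁻¹ * β * z)) S

/-- TASK KU (closed formula if nothing is outside). `B ≠ ∅` initial clique of `S`, `M` a final
segment of `S` which is a clique (possibly empty), weights `a = q` on `M` and `1` outside,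
`b = wb m q B S c`. Induction on `|S|` (strong, or on `|S \ B|`). Base `S = B`: by `S_KB` the
value is `∏_{u ∈ B} (a u - q^(c + rank u))` with ranks `1, ..., b` (`1 + aL m B u`), i.e.
`∏_{j ≤ b-μ} (1 - q^(j+c)) ∏_{b-μ < j ≤ b} (q - q^(j+c))`, `μ = |M|`, and
`q - q^(j+c) = q (1 - q^(j-1+c))`, so it is `∏_{j=1}^{b-1} (1 - q^(j+c)) * q^μ * (1 - q^(b-μ+c))`
(induction on `μ`, or on `B` by removing the maximum). Step: `t = max S ∉ B`, `S = insert t S'`,
`L = aL m S' t`, `N = NL m S' t` (a final segment of `S'` and a clique); `1 - q ≠ 0`;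
`wb m q B S c = wb m q B S' c` on `S'`, and `wb t = q^(1+L)`. By `S_KREC`:
if `t ∈ M`: `a t = q`, the second term has the factor `q - q^(-L) q^(1+L) = 0`, the first one
`q - q^(1+L) = (1-q) q [L]`, so the value is `q [L]` times the one for `(S', M \ t)`;
if `M = ∅`: `(1-q) f(S) = (1 - q^(1+L)) f(S', ∅) - (1 - q) f(S', N)` and
`[1+L] (1 - q^(|S'|+c)) - (q^L - q^(|S'|+c)) = [L] (1 - q^(|S'|+1+c))`. In both cases
`PiR m q B S = [L] * PiR m q B S'`. -/
def S_KU : Prop := S_KB → S_KREC → ∀ (K : Type) [Field K] (m : ℕ → ℕ), Monotone m →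
  ∀ (q : K), q ≠ 0 → q ≠ 1 → ∀ (B S : Finset ℕ) (l : ℕ) (c : ℤ), B.Nonempty → Ini m B S →
  (∀ u ∈ S.filter (fun v => l ≤ v), ∀ v ∈ S.filter (fun v => l ≤ v), u < v → v ≤ m u) →
  KS m q B (fun u => if u ∈ S.filter (fun v => l ≤ v) then q else 1) (wb m q B S c) S =
    PiR m q B S * (∏ j ∈ range (B.card - 1), (1 - q ^ ((j : ℤ) + 1 + c))) *
      (q ^ (S.filter (fun v => l ≤ v)).card - q ^ ((S.card : ℤ) + c))

/-- conclusion of `S_KU` for `M = ∅` and `c = -|S|` -/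
def KUc : Prop := ∀ (K : Type) [Field K] (m : ℕ → ℕ), Monotone m → ∀ (q : K), q ≠ 0 → q ≠ 1 →
  ∀ (B S : Finset ℕ), B.Nonempty → Ini m B S →
  KS m q B (fun _ => 1) (wb m q B S (-(S.card : ℤ))) S = 0

/-- TASK KUC. `S_KU` with `l` larger than all elements of `S` (the filter is empty); the last
factor is `1 - q^0 = 0`. -/
def S_KUC : Prop := S_KB → S_KREC → S_KU → KUc

/-- TASK RX (the expansion). Induction on `N`, for all `B`, `U`, `c ≤ 0`.
`N = 0`: by `S_RRS` and `S_ESZ` only `S = U` contributes (`XX (U \ S) = 0` unless `U \ S = ∅`):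
`RR = KS m q B (fun _ => 1) (wb m q B U c) U * [c + |U| = 0]` (`wa m q U U u = q^0 = 1`).
`U = ∅`: `B = ∅`, `KS = 1`, so `RR = [c = 0]`. `U ≠ ∅`: `XX = 0`; nothing to show unless
`c = -|U|`, and then `KUc` for `B ≠ ∅`; for `B = ∅` every term of `KS` is zero (the smallest element
of `P`, or of `U \ P` if `P = ∅`, has `aL = 0`, `qn q 0 = 0`).
`N + 1`: `RRc` and the induction hypothesis for `U \ T` (`Ini m B (U \ T)` for `T ∩ B = ∅`,
`Ini m (B \ T) (U \ T)`): for `c < 0` all terms are zero; for `c = 0` the terms with `c - 1` are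
zero and the others give `(1-q)^|B| ∑_T x_0^|T| q^(ea U T) XX x' (U \ T)` over the stable `T` with
`|T ∩ B| = 0` or `1` (`|B \ T| = |B| - 1` in the second case); these are all stable `T` (`B` is a
clique), so it is `(1-q)^|B| XX x U` by `S_SPL`. -/
def S_RX : Prop := S_SPL → S_ESZ → S_WT → S_RRS → RRc → KUc →
  ∀ (K : Type) [Field K] (m : ℕ → ℕ), Monotone m → ∀ (q : K), q ≠ 0 → q ≠ 1 →
  ∀ (N : ℕ) (x : Fin N → K) (B U : Finset ℕ) (c : ℤ), Ini m B U → c ≤ 0 →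
  RR m q x B U c = if c = 0 then (1 - q) ^ B.card * XX m q x U else 0

/-- THE EXPANSION -/
def XFc : Prop := ∀ (K : Type) [Field K] (m : ℕ → ℕ), Monotone m → ∀ (q : K), q ≠ 0 → q ≠ 1 →
  ∀ (N : ℕ) (x : Fin N → K) (B U : Finset ℕ), Ini m B U →
  (1 - q) ^ B.card * XX m q x U = ∑ S ∈ U.powerset.filter (fun S => B ⊆ S),
    KS m q B (fun u => q ^ aR m (U \ S) u) (fun u => q ^ (1 + aL m U u)) S *
      es x S.card * XX m q x (U \ S)

/-- TASK XF. `S_RX` and `S_RRS` for `c = 0` (`wb m q B U 0 u = q^(1 + aL m U u)`,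
`esz x |S| = es x |S|`). -/
def S_XF : Prop := S_SPL → S_ESZ → S_WT → S_RRS → RRc → KUc → S_RX → XFc

/-! ## Part P: positivity of the coefficients -/

/-- `y` is `(1-q)^b` times the value at `q` of a palindromic unimodal polynomial with centre
`d / 2` -/
def PK {K : Type} [Field K] (q : K) (b d : ℕ) (y : K) : Prop :=
  ∃ p ∈ PU d, y = (1 - q) ^ b * Polynomial.aeval q p

/-- TASK PKA (tools). (1) sums; (2) `(q^i - q^(i+k)) / (1-q)` is the value of `X^i [k]`, a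
generator of `PU (2 i + k - 1)`, and `S_PUmul`; for `k = 0` the product is zero, which is in every
cone; (3) `PK q (b+1) d y ↔ PK q b d (y / (1-q))`. -/
def S_PKA : Prop := S_PUmul → ∀ (K : Type) [Field K] (q : K), q ≠ 1 →
  (∀ (b d : ℕ), PK q b d 0) ∧
  (∀ (b d : ℕ) (y z : K), PK q b d y → PK q b d z → PK q b d (y + z)) ∧
  (∀ (b d i j D : ℕ) (y : K), PK q b d y → i ≤ j → i + j + d = D + 1 →
    PK q (b + 1) D ((q ^ i - q ^ j) * y)) ∧
  (∀ (b d : ℕ) (y : K), PK q (b + 1) d ((1 - q) * y) → PK q b d y) ∧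
  (∀ (b d : ℕ) (y : K), PK q b d y → PK q (b + 1) d ((1 - q) * y))

/-- the hypotheses on the exponents: `ρ u`, `σ u` (weights `a u = q^(ρ u)`, `b u = q^(σ u)`) -/
def Adm (m : ℕ → ℕ) (B S : Finset ℕ) (ρ σ : ℕ → ℕ) : Prop :=
  (∀ u ∈ S, 1 ≤ σ u) ∧ (∀ u ∈ S \ B, aL m S u ≤ σ u) ∧
  ∀ u ∈ S, ρ u + aR m (S \ B) u ≤ σ u

/-- the positivity statement for `S` -/
def Pos (m : ℕ → ℕ) (B S : Finset ℕ) : Prop := ∀ (K : Type) [Field K] (q : K), q ≠ 0 → q ≠ 1 →
  ∀ ρ σ : ℕ → ℕ, Adm m B S ρ σ →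
  PK q B.card (∑ u ∈ S, (ρ u + σ u - 1)) (KS m q B (fun u => q ^ ρ u) (fun u => q ^ σ u) S)

/-- TASK KP0 (base). `S_KB`, and `∏_{u ∈ B} (q^(ρ u) - q^(σ u))` with `ρ u ≤ σ u`, `1 ≤ σ u`: by
induction over `B` with `S_PKA` (third part, `i = ρ u`, `j = σ u`), starting from
`PK q 0 0 1` (`1 = X^0 [1]`). -/
def S_KP0 : Prop := S_PUmul → S_PKA → S_KB → ∀ (m : ℕ → ℕ) (B : Finset ℕ), Pos m B B

/-- TASK KP1 (step, first form). `t > ` all elements of `S`, `t ∉ B`, `L = aL m S t`,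
`N = NL m S t`, `ρ t ≤ σ t ≤ ρ t + L`, `L ≤ σ t`. `S_KREC`:
`(1-q) KS(insert t S) = (q^(ρ t) - q^(σ t)) KS(S; ρ, σ) + (q^(σ t - L) - q^(ρ t)) KS(S; ρ + 1_N, σ)`.
`Adm` for `(S, ρ, σ)` and `(S, ρ + 1_N, σ)`: `aL m S u` for `u ∈ S` does not change,
`aR m (insert t S \ B) u = aR m (S \ B) u + [u ∈ N]`. Degrees: the sums over `S` are
`d' := ∑_{S} (ρ u + σ u - 1)` and `d' + L` (`|N| = L`), and the one over `insert t S` is
`d' + ρ t + σ t - 1`; third part of `S_PKA` with `(i, j) = (ρ t, σ t)` and `(σ t - L, ρ t)`. Then the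
fourth part. -/
def S_KP1 : Prop := S_PUmul → S_PKA → S_KREC → ∀ (m : ℕ → ℕ) (B S : Finset ℕ) (t : ℕ),
  t ∉ B → (∀ u ∈ S, u < t) → Pos m B S →
  ∀ (K : Type) [Field K] (q : K), q ≠ 0 → q ≠ 1 → ∀ ρ σ : ℕ → ℕ, Adm m B (insert t S) ρ σ →
  σ t ≤ ρ t + aL m S t →
  PK q B.card (∑ u ∈ insert t S, (ρ u + σ u - 1))
    (KS m q B (fun u => q ^ ρ u) (fun u => q ^ σ u) (insert t S))

/-- TASK KTEL (telescoping). `r`, `s`: the exponents of the removed vertex. For `N' ⊆ N` let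
`G(N') = (q^r - q⁻¹^|N'| q^s) KS(S; ρ + 1_{N'}, σ)`. By `S_KT1` with `α = q^r`,
`β = q⁻¹^|N'| q^s`, `y = q^(ρ n)`, `z = q^(σ n)`: for `n ∈ N \ N'`
`G(N') - G(insert n N') = (1-q) KS(S; ρ', σ')` with `ρ' = ρ + 1_{N'}` outside `n`,
`ρ' n = ρ n + r`, `σ' = σ` outside `n`, `σ' n = σ n + s - |N'| - 1` (`|N'| + 1 ≤ |N| ≤ s`). The
hypothesis says that these are in `PK q b D`. Induction over `N' ⊆ N` (`Finset.induction_on` for
the statement `N' ⊆ N → PK q (b+1) D (G ∅ - G N')`) and parts 1, 2, 5 of `S_PKA`. -/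
def S_KTEL : Prop := S_PUmul → S_PKA → S_KLIN → S_KT1 → ∀ (K : Type) [Field K] (q : K), q ≠ 0 →
  q ≠ 1 → ∀ (m : ℕ → ℕ) (B S N : Finset ℕ) (ρ σ : ℕ → ℕ) (r s D : ℕ), N ⊆ S → N.card ≤ s →
  (∀ N' ⊆ N, ∀ n ∈ N \ N', PK q B.card D (KS m q B
    (fun u => q ^ (if u = n then ρ u + r else if u ∈ N' then ρ u + 1 else ρ u))
    (fun u => q ^ (if u = n then σ u + s - (N'.card + 1) else σ u)) S)) →
  PK q (B.card + 1) D ((q ^ r - q ^ s) * KS m q B (fun u => q ^ ρ u) (fun u => q ^ σ u) S -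
    (q ^ r - q⁻¹ ^ N.card * q ^ s) *
      KS m q B (fun u => if u ∈ N then q * q ^ ρ u else q ^ ρ u) (fun u => q ^ σ u) S)

/-- TASK KP2 (step, second form). `ρ t + L ≤ σ t + 1`, `L = aL m S t`. `S_KREC` and `S_KTEL` with
`N = NL m S t` (`|N| = L ≤ σ t` because `t ∉ B`), `r = ρ t`, `s = σ t`,
`D = ∑_{insert t S} (ρ u + σ u - 1) = ∑_S (ρ u + σ u - 1) + ρ t + σ t - 1`; then the fourth part of
`S_PKA`. The hypothesis of `S_KTEL`: `Pos m B S` for `ρ'`, `σ'`; `Adm m B S ρ' σ'`: `1 ≤ σ u ≤ σ' u`,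
`aL m S u` unchanged for `u ∈ S`; for `u ∈ N'`: `ρ u + 1 + aR m (S \ B) u =
ρ u + aR m (insert t S \ B) u ≤ σ u`; for `u = n`: `ρ n + ρ t + aR m (S \ B) n ≤
σ n + σ t - |N'| - 1` since `ρ n + aR m (S \ B) n + 1 ≤ σ n` and
`ρ t + |N'| + 1 ≤ ρ t + L ≤ σ t + 1`. Degrees: `ρ' + σ'` has the sum
`∑_S (ρ + σ) + |N'| + ρ t + σ t - |N'| - 1`. -/
def S_KP2 : Prop := S_PUmul → S_PKA → S_KREC → S_KLIN → S_KT1 → S_KTEL → ∀ (m : ℕ → ℕ)
  (B S : Finset ℕ) (t : ℕ), t ∉ B → (∀ u ∈ S, u < t) → Pos m B S →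
  ∀ (K : Type) [Field K] (q : K), q ≠ 0 → q ≠ 1 → ∀ ρ σ : ℕ → ℕ, Adm m B (insert t S) ρ σ →
  ρ t + aL m S t ≤ σ t + 1 →
  PK q B.card (∑ u ∈ insert t S, (ρ u + σ u - 1))
    (KS m q B (fun u => q ^ ρ u) (fun u => q ^ σ u) (insert t S))

/-- TASK KP. Induction on `|S \ B|`: `S = B` is `S_KP0`; otherwise `t = max S ∉ B`,
`S = insert t S'`, `Ini m B S'`, and `S_KP1` or `S_KP2` (`σ t ≤ ρ t + L` or
`ρ t + L < σ t`). -/
def S_KP : Prop := S_PUmul → S_PKA → S_KB → S_KREC → S_KLIN → S_KT1 → S_KP0 → S_KP1 → S_KTEL →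
  S_KP2 → ∀ (m : ℕ → ℕ) (B S : Finset ℕ), Ini m B S → Pos m B S

/-! ## Part C: the closure theorem -/

/-- condition (D): every vertex `u` has at most `l(u) + 1` right neighbours outside `B` -/
def Deg (m : ℕ → ℕ) (B U : Finset ℕ) : Prop := ∀ u ∈ U, aR m (U \ B) u ≤ aL m U u + 1

/-- closed neighbourhood of the first vertex `r` -/
def NB (m : ℕ → ℕ) (U : Finset ℕ) (r : ℕ) : Finset ℕ := U.filter (fun u => u = r ∨ u ≤ m r)

/-- TASK EDK (degrees). `eE U = ∑_{u ∈ S} aL U u + ∑_{u ∈ U \ S} (aL S u + aL (U \ S) u)`, and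
`∑_{u ∈ U \ S} aL S u = e(S → U \ S) = ∑_{u ∈ S} aR (U \ S) u`. -/
def S_EDK : Prop := ∀ (m : ℕ → ℕ) (U S : Finset ℕ), S ⊆ U →
  (∑ u ∈ S, (aR m (U \ S) u + (1 + aL m U u) - 1)) + eE m (U \ S) = eE m U

/-- TASK CON (closure theorem, left version). `B = NB m U r` is an initial clique (`m` monotone:
for `u < v` in `B`, `v ≤ m r ≤ m u` if `v ≠ r`). Work in `K = FractionRing (AN N)` with the
injective homomorphism `ι = algebraMap`, `q = ι (qq N) ≠ 0, 1`. `XFc` for the images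
(`XX m (ι q) (ι x) U = ι (XX ...)` by `Z_map`, same for `es`):
`(1-q)^|B| ι(XX U) = ∑_S KS_S ι(es |S|) ι(XX (U \ S))`. For `B ⊆ S ⊆ U` the exponents
`ρ u = aR m (U \ S) u`, `σ u = 1 + aL m U u` are admissible: `aL m S u ≤ aL m U u`, and
`ρ u + aR m (S \ B) u = aR m (U \ B) u ≤ σ u` by `Deg`. So `KS_S = (1-q)^|B| aeval q p_S` with
`p_S ∈ PU (d_S)`, `d_S = ∑_{u ∈ S} (ρ u + σ u - 1)`; cancel `(1-q)^|B|`, use injectivity
(`aeval (ι (C X)) p = ι (C p)`): `XX U = ∑_S C p_S * es |S| * XX (U \ S)`. Each term is in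
`Cone N |U| (eE U)` by `S_Cmul` (`C p * es k ∈ Cone N k d`: the generator with `l = {k}`),
`U \ S ⊆ U \ B`, `S_EDK` and `|S| + |U \ S| = |U|`. -/
def S_CON : Prop := S_PUmul → S_Cmul → XFc → (∀ (m : ℕ → ℕ) (B S : Finset ℕ), Ini m B S →
    Pos m B S) → S_EDK → ∀ (N : ℕ) (m : ℕ → ℕ), Monotone m → ∀ (U : Finset ℕ) (r : ℕ), r ∈ U →
  (∀ u ∈ U, r ≤ u) → Deg m (NB m U r) U →
  (∀ V ⊆ U \ NB m U r, XX m (qq N) (xx N) V ∈ Cone N V.card (eE m V)) →
  XX m (qq N) (xx N) U ∈ Cone N U.card (eE m U)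

/-- conclusion of `S_CON` -/
def CONc : Prop := ∀ (N : ℕ) (m : ℕ → ℕ), Monotone m → ∀ (U : Finset ℕ) (r : ℕ), r ∈ U →
  (∀ u ∈ U, r ≤ u) → Deg m (NB m U r) U →
  (∀ V ⊆ U \ NB m U r, XX m (qq N) (xx N) V ∈ Cone N V.card (eE m V)) →
  XX m (qq N) (xx N) U ∈ Cone N U.card (eE m U)

/-- TASK REVm (reversed graph). `m' u = sup {v ≤ M : M - u ≤ m (M - v)}` (`Finset.sup id` over
`(range (M+1)).filter`); the set is closed downwards (`m` monotone), so for `u < v ≤ M`: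
`v ≤ m' u` iff `M - u ≤ m (M - v)` (`v > 0`, so if `v ≤ sup` the set is not empty, and its maximum
is in the set). `m'` is monotone because the set grows with `u`. -/
def S_REVm : Prop := ∀ (m : ℕ → ℕ), Monotone m → ∀ M : ℕ, ∃ m' : ℕ → ℕ, Monotone m' ∧
  ∀ u v : ℕ, u < v → v ≤ M → (v ≤ m' u ↔ M - u ≤ m (M - v))

/-- TASK REVX. `f u = M - u`, `U ⊆ range (M+1)`. More generally
`Z m' q (U.image f) (fun v k => w (f v) (Fin.rev k)) = Z m q U w` for all `w` by induction on `U`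
(`Z_insert`, `Fin.revPerm` / `Equiv.sum_comp` for the sum over the colours, and
`pw m' q (f v) (rev k) (f u) (rev k') = pw m q v k u k'`: both order relations are reversed).
The edge counts: `aL m' (U.image f) (f u) = aR m U u`, `aR m' (U.image f) (f u) = aL m U u` for
`u ∈ U`, and `eE m' (U.image f) = eE m U` (`∑ aL = ∑ aR`). -/
def S_REVX : Prop := ∀ (m m' : ℕ → ℕ) (M : ℕ),
  (∀ u v : ℕ, u < v → v ≤ M → (v ≤ m' u ↔ M - u ≤ m (M - v))) →
  ∀ U : Finset ℕ, (∀ u ∈ U, u ≤ M) →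
  (∀ (R : Type) [CommRing R] (N : ℕ) (q : R) (x : Fin N → R),
    XX m' q (fun k => x (Fin.rev k)) (U.image (fun u => M - u)) = XX m q x U) ∧
  (∀ V ⊆ U, ∀ u ∈ U, aL m' (V.image (fun u => M - u)) (M - u) = aR m V u ∧
    aR m' (V.image (fun u => M - u)) (M - u) = aL m V u) ∧
  eE m' (U.image (fun u => M - u)) = eE m U

/-- TASK REVC. `MvPolynomial.rename Fin.rev` (an automorphism of `AN N`) maps every generator of
`Cone N n d` to itself (`es` is symmetric: `MvPolynomial.rename_esymm` /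
`rename_esymm` for equivalences), and maps `XX m' (qq N) (xx N) V` to `XX m' (qq N) (x ∘ rev) V`
(`Z_map`). -/
def S_REVC : Prop := ∀ (N n d : ℕ) (m' : ℕ → ℕ) (V : Finset ℕ),
  XX m' (qq N) (xx N) V ∈ Cone N n d ↔ XX m' (qq N) (fun k => xx N (Fin.rev k)) V ∈ Cone N n d

/-- closed neighbourhood of the last vertex `r` -/
def NB' (m : ℕ → ℕ) (U : Finset ℕ) (r : ℕ) : Finset ℕ := U.filter (fun u => u = r ∨ r ≤ m u)

/-- TASK CONR (right version). `M = r = max U`, `m'` from `S_REVm`, `U' = U.image (r - ·)`, whose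
first vertex is `0 = r - r`; `NB m' U' 0` is the image of `NB' m U r` (for `0 < v ≤ r`:
`v ≤ m' 0` iff `r ≤ m (r - v)`), `Deg m' (NB m' U' 0) U'` by `S_REVX`; the subsets of
`U' \ NB m' U' 0` are the images of the subsets of `U \ NB' m U r` (image under `r - ·` again,
injective on `U`). `CONc` for `m'`, `U'`, and back by `S_REVX`, `S_REVC`. -/
def S_CONR : Prop := CONc → S_REVm → S_REVX → S_REVC → ∀ (N : ℕ) (m : ℕ → ℕ), Monotone m →
  ∀ (U : Finset ℕ) (r : ℕ), r ∈ U → (∀ u ∈ U, u ≤ r) →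
  (∀ u ∈ U, aL m (U \ NB' m U r) u ≤ aR m U u + 1) →
  (∀ V ⊆ U \ NB' m U r, XX m (qq N) (xx N) V ∈ Cone N V.card (eE m V)) →
  XX m (qq N) (xx N) U ∈ Cone N U.card (eE m U)

/-! ## Part B: the blocks -/

/-- TASK RELm. `m' i = sup {j < l : f j ≤ m (f i)}`; for `i < j < l`: `j ≤ m' i` iff
`f j ≤ m (f i)` (the set is closed downwards, and not empty if `0 < j ≤ sup`). -/
def S_RELm : Prop := ∀ (m : ℕ → ℕ), Monotone m → ∀ (f : ℕ → ℕ), StrictMono f → ∀ l : ℕ,
  ∃ m' : ℕ → ℕ, Monotone m' ∧ ∀ i j : ℕ, i < j → j < l → (j ≤ m' i ↔ f j ≤ m (f i))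

/-- TASK RELX. `Z m q (V.image f) w = Z m' q V (fun i k => w (f i) k)` for `V ⊆ range l` by
induction on `V` (`pw m q (f i) k (f j) k' = pw m' q i k j k'`); `aL m (V.image f) (f i) =
aL m' V i`. -/
def S_RELX : Prop := ∀ (m m' f : ℕ → ℕ) (l : ℕ), StrictMono f →
  (∀ i j : ℕ, i < j → j < l → (j ≤ m' i ↔ f j ≤ m (f i))) →
  (∀ (R : Type) [CommRing R] (N : ℕ) (q : R) (x : Fin N → R),
    XX m q x ((range l).image f) = XX m' q x (range l)) ∧
  eE m ((range l).image f) = eE m' (range l)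

/-- condition on the blocks of `U`: whenever `a < b` in `U` are such that any two elements of
`U ∩ [a, b]` with exactly one element of `U` between them are adjacent (then `U ∩ [a, b]` is
contained in a block), `U ∩ [a, b]` has no three pairwise nonadjacent vertices or no induced `K_5`
minus an edge -/
def BC (m : ℕ → ℕ) (U : Finset ℕ) : Prop := ∀ a ∈ U, ∀ b ∈ U, a < b →
  (∀ i ∈ U, ∀ j ∈ U, ∀ k ∈ U, a ≤ i → i < j → j < k → k ≤ b →
    (∀ l ∈ U, i < l → l < k → l = j) → k ≤ m i) →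
  (∀ u ∈ U, ∀ v ∈ U, ∀ w ∈ U, a ≤ u → u < v → v < w → w ≤ b → ¬ (m u < v ∧ m v < w)) ∨
  (∀ u ∈ U, ∀ v ∈ U, ∀ w ∈ U, ∀ y ∈ U, ∀ z ∈ U, a ≤ u → u < v → v < w → w < y → y < z →
    z ≤ b → ¬ (y ≤ m u ∧ z ≤ m v ∧ m u < z))

/-- the condition `BlockCond3 m 0 (l-1)` of CB/Main.lean, unfolded -/
def BC0 (m : ℕ → ℕ) (l : ℕ) : Prop := ∀ a b : ℕ, a < b → b < l →
  (∀ i, a ≤ i → i + 2 ≤ b → i + 2 ≤ m i) →
  (∀ u v w, a ≤ u → u < v → v < w → w ≤ b → ¬ (m u < v ∧ m v < w)) ∨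
  (∀ u v w y z, a ≤ u → u < v → v < w → w < y → y < z → z ≤ b → ¬ (y ≤ m u ∧ z ≤ m v ∧ m u < z))

/-- TASK RELB. `BC m ((range l).image f)` implies `BC0 m' l`: take `f a`, `f b`; an element `k` of
the image with exactly one element between `f i'` and it is `f (i'+2)`; all the conditions
are translated by `j ≤ m' i ↔ f j ≤ m (f i)` (`i < j < l`), with `m' u < v ↔ m (f u) < f v`. -/
def S_RELB : Prop := ∀ (m m' f : ℕ → ℕ) (l : ℕ), StrictMono f →
  (∀ i j : ℕ, i < j → j < l → (j ≤ m' i ↔ f j ≤ m (f i))) →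
  BC m ((range l).image f) → BC0 m' l

/-- TASK RELE. `Finset.orderEmbOfFin U rfl : Fin |U| ↪o ℕ`, continued by `f (|U| + i) = max U + 1 + i`
(or `U.max' + 1 + i`; `f i = i` for `U = ∅`). -/
def S_RELE : Prop := ∀ U : Finset ℕ, ∃ f : ℕ → ℕ, StrictMono f ∧ U = (range U.card).image f

/-- Shareshian-Wachs for the initial intervals satisfying the block condition: this is
`main3` of CB/Main.lean with the closed terms of CB/All.lean -/
def MN3c : Prop := ∀ (N : ℕ) (m : ℕ → ℕ), Monotone m → ∀ l : ℕ, BC0 m l →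
  XX m (qq N) (xx N) (range l) ∈ Cone N l (eE m (range l))

/-- TASK BLKU. `S_RELE`, `S_RELm`, `S_RELX`, `S_RELB` and `MN3c`. -/
def S_BLKU : Prop := MN3c → S_RELm → S_RELX → S_RELB → S_RELE → ∀ (N : ℕ) (m : ℕ → ℕ),
  Monotone m → ∀ U : Finset ℕ, BC m U → XX m (qq N) (xx N) U ∈ Cone N U.card (eE m U)

/-- TASK UNI (disjoint unions). `Z_union` (no edges between `U` and `V`, `U` before `V`), `S_Cmul`,
`eE (U ∪ V) = eE U + eE V` (compare `eE_union` in MAIN.lean). -/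
def S_UNI : Prop := S_Cmul → ∀ (N : ℕ) (m : ℕ → ℕ), Monotone m → ∀ U V : Finset ℕ,
  (∀ u ∈ U, ∀ v ∈ V, u < v ∧ m u < v) →
  XX m (qq N) (xx N) U ∈ Cone N U.card (eE m U) → XX m (qq N) (xx N) V ∈ Cone N V.card (eE m V) →
  XX m (qq N) (xx N) (U ∪ V) ∈ Cone N (U ∪ V).card (eE m (U ∪ V))

/-! ## Part F: the final theorem -/

/-- The class of vertex sets (= induced subgraphs) of the graph of `h`. -/
inductive Nice {n : ℕ} (h : Fin n → Fin n) : Finset (Fin n) → Prop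
  | blocks (U : Finset (Fin n))
      (hU : ∀ a ∈ U, ∀ b ∈ U, a < b →
        (∀ i ∈ U, ∀ j ∈ U, ∀ k ∈ U, a ≤ i → i < j → j < k → k ≤ b →
          (∀ l ∈ U, i < l → l < k → l = j) → k ≤ h i) →
        (∀ u ∈ U, ∀ v ∈ U, ∀ w ∈ U, a ≤ u → u < v → v < w → w ≤ b → ¬ (h u < v ∧ h v < w)) ∨
        (∀ u ∈ U, ∀ v ∈ U, ∀ w ∈ U, ∀ y ∈ U, ∀ z ∈ U, a ≤ u → u < v → v < w → w < y → y < z →
          z ≤ b → ¬ (y ≤ h u ∧ z ≤ h v ∧ h u < z))) : Nice h U
  | union (U V : Finset (Fin n)) (hUV : ∀ u ∈ U, ∀ v ∈ V, u < v ∧ h u < v)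
      (hU : Nice h U) (hV : Nice h V) : Nice h (U ∪ V)
  | left (U : Finset (Fin n)) (r : Fin n) (hr : r ∈ U) (hmin : ∀ u ∈ U, r ≤ u)
      (hdeg : ∀ u ∈ U, (U.filter (fun v => u < v ∧ v ≤ h u ∧ h r < v)).card ≤
        (U.filter (fun v => v < u ∧ u ≤ h v)).card + 1)
      (hV : ∀ V ⊆ U.filter (fun v => h r < v), Nice h V) : Nice h U
  | right (U : Finset (Fin n)) (r : Fin n) (hr : r ∈ U) (hmax : ∀ u ∈ U, u ≤ r)
      (hdeg : ∀ u ∈ U, (U.filter (fun v => v < u ∧ u ≤ h v ∧ h v < r)).card ≤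
        (U.filter (fun v => u < v ∧ v ≤ h u)).card + 1)
      (hV : ∀ V ⊆ U.filter (fun v => h v < r), Nice h V) : Nice h U

/-- The final theorem: the conclusion of the frozen statement S07725 for the graphs in the class. -/
def S_FINALK : Prop := ∀ (n : ℕ) (h : Fin n → Fin n), Monotone h → (∀ i, i ≤ h i) →
    Nice h Finset.univ →
    ∀ E : ℕ, E = (Finset.univ.filter (fun p : Fin n × Fin n => p.1 < p.2 ∧ p.2 ≤ h p.1)).card →
    ∃ a : Nat.Partition n → Polynomial ℤ,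
      ((∑ κ ∈ (Finset.univ.filter
            (fun κ : Fin n → Fin n => ∀ i j : Fin n, i < j → j ≤ h i → κ i ≠ κ j)),
          MvPolynomial.C (Polynomial.X ^ ((Finset.univ.filter
            (fun p : Fin n × Fin n => p.1 < p.2 ∧ p.2 ≤ h p.1 ∧ κ p.1 < κ p.2)).card))
            * ∏ i : Fin n, MvPolynomial.X (κ i) : MvPolynomial (Fin n) (Polynomial ℤ))
        = ∑ μ : Nat.Partition n, MvPolynomial.C (a μ) *
            (μ.parts.map (fun k => MvPolynomial.esymm (Fin n) (Polynomial ℤ) k)).prod)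
      ∧ ∀ μ : Nat.Partition n,
          (∀ i : ℕ, 0 ≤ (a μ).coeff i)
          ∧ (∀ i : ℕ, E < i → (a μ).coeff i = 0)
          ∧ (∀ i : ℕ, i ≤ E → (a μ).coeff i = (a μ).coeff (E - i))
          ∧ (∀ i j : ℕ, i ≤ j → 2 * j ≤ E → (a μ).coeff i ≤ (a μ).coeff j)

/-- TASK NICE. Induction on `Nice h U`: for every `N`,
`XX m (qq N) (xx N) (U.image (fun u => (u : ℕ))) ∈ Cone N |U| (eE ...)` (`m` extends `h`). `blocks`: the fourth hypothesis (`S_BLKU`)
for the image; `union`: `S_UNI`; `left`: `CONc` with `(r : ℕ)`: `NB (mh h) U' r` is the image of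
`U.filter (fun v => v = r ∨ v ≤ h r) = U.filter (fun v => v ≤ h r)` (`r ≤ h r`), so
`U' \ NB ..` is the image of `U.filter (fun v => h r < v)`; its subsets are images of subsets;
`right`: the same with the third hypothesis (`S_CONR`). The numbers `aL`, `aR` of the image are
the cardinalities in the definition (image of a filter under an injective map). -/
def S_NICE : Prop := CONc → S_Cmul →
  (∀ (N : ℕ) (m : ℕ → ℕ), Monotone m → ∀ (U : Finset ℕ) (r : ℕ), r ∈ U → (∀ u ∈ U, u ≤ r) →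
    (∀ u ∈ U, aL m (U \ NB' m U r) u ≤ aR m U u + 1) →
    (∀ V ⊆ U \ NB' m U r, XX m (qq N) (xx N) V ∈ Cone N V.card (eE m V)) →
    XX m (qq N) (xx N) U ∈ Cone N U.card (eE m U)) →
  (∀ (N : ℕ) (m : ℕ → ℕ), Monotone m → ∀ U : Finset ℕ, BC m U →
    XX m (qq N) (xx N) U ∈ Cone N U.card (eE m U)) →
  S_UNI → ∀ (n : ℕ) (h : Fin n → Fin n), Monotone h → (∀ i, i ≤ h i) →
  ∀ (m : ℕ → ℕ), Monotone m → (∀ i : Fin n, m (i : ℕ) = (h i : ℕ)) →
  ∀ U : Finset (Fin n), Nice h U → ∀ N : ℕ,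
  XX m (qq N) (xx N) (U.image (fun u : Fin n => (u : ℕ))) ∈
    Cone N U.card (eE m (U.image (fun u : Fin n => (u : ℕ))))

end Pool.Agent.SWK
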