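import Pool.Agent.Lib.MP_263316_co.SWK.Spec

set_option autoImplicit false

namespace Pool.Agent.SWK

open Finset Pool.Agent.SWC

theorem tBLKU : S_BLKU := by
  intro hMN hRm hRX hRB hRE N m hm U hBC
  obtain ⟨f, hf, hU⟩ := hRE U
  obtain ⟨m', hm', hrel⟩ := hRm m hm f hf U.card
  have hX := hRX m m' f U.card hf hrel
  have hB0 : BC0 m' U.card := hRB m m' f U.card hf hrel (by rw [← hU]; exact hBC)
  have h := hMN N m' hm' U.card hB0
  rw [← hX.1 (AN N) N (qq N) (xx N), ← hX.2, ← hU] at h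
  exact h

end Pool.Agent.SWK
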