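import Pool.Agent.Lib.MP_263316_co.SWK.SpecE

set_option autoImplicit false

namespace Pool.Agent.SWK

open Finset Pool.Agent.SWC

namespace CONREaux

theorem card_rev (r : ℕ) (V : Finset ℕ) (hV : ∀ u ∈ V, u ≤ r) :
    (V.image (fun u => r - u)).card = V.card := by
  apply Finset.card_image_of_injOn
  intro a ha b hb hab
  have h1 := hV a ha
  have h2 := hV b hb
  have h3 : r - a = r - b := hab
  omega

theorem nb_rev (m m' : ℕ → ℕ) (r : ℕ)
    (hadj : ∀ u v : ℕ, u < v → v ≤ r → (v ≤ m' u ↔ r - u ≤ m (r - v)))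
    (U : Finset ℕ) (hU : ∀ u ∈ U, u ≤ r) :
    U.image (fun u => r - u) \ NB m' (U.image (fun u => r - u)) 0 =
      (U \ NB' m U r).image (fun u => r - u) := by
  ext x
  constructor
  · intro hx
    obtain ⟨hx1, hx2⟩ := Finset.mem_sdiff.mp hx
    obtain ⟨v, hv, rfl⟩ := Finset.mem_image.mp hx1
    refine Finset.mem_image.mpr ⟨v, Finset.mem_sdiff.mpr ⟨hv, ?_⟩, rfl⟩
    intro hnb
    apply hx2
    refine Finset.mem_filter.mpr ⟨hx1, ?_⟩
    have hvr := hU v hv
    rcases (Finset.mem_filter.mp hnb).2 with h | h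
    · left
      omega
    · by_cases h0 : r - v = 0
      · exact Or.inl h0
      · right
        have h1 := hadj 0 (r - v) (by omega) (by omega)
        rw [Nat.sub_zero, Nat.sub_sub_self hvr] at h1
        exact h1.mpr h
  · intro hx
    obtain ⟨v, hv, rfl⟩ := Finset.mem_image.mp hx
    obtain ⟨hv1, hv2⟩ := Finset.mem_sdiff.mp hv
    have hvr := hU v hv1
    refine Finset.mem_sdiff.mpr ⟨Finset.mem_image.mpr ⟨v, hv1, rfl⟩, ?_⟩
    intro hnb
    apply hv2
    refine Finset.mem_filter.mpr ⟨hv1, ?_⟩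
    by_cases h0 : r - v = 0
    · left
      omega
    · right
      have h1 := hadj 0 (r - v) (by omega) (by omega)
      rw [Nat.sub_zero, Nat.sub_sub_self hvr] at h1
      rcases (Finset.mem_filter.mp hnb).2 with h | h
      · exact absurd h h0
      · exact h1.mp h

theorem mem_nb (m m' : ℕ → ℕ) (r : ℕ)
    (hadj : ∀ u v : ℕ, u < v → v ≤ r → (v ≤ m' u ↔ r - u ≤ m (r - v)))
    (U : Finset ℕ) (hU : ∀ u ∈ U, u ≤ r) (w : ℕ) (hw : w ∈ NB' m U r) :
    r - w ∈ NB m' (U.image (fun u => r - u)) 0 := by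
  obtain ⟨hw1, hw2⟩ := Finset.mem_filter.mp hw
  have hwr := hU w hw1
  refine Finset.mem_filter.mpr ⟨Finset.mem_image.mpr ⟨w, hw1, rfl⟩, ?_⟩
  rcases hw2 with h | h
  · left
    omega
  · by_cases h0 : r - w = 0
    · exact Or.inl h0
    · right
      have h1 := hadj 0 (r - w) (by omega) (by omega)
      rw [Nat.sub_zero, Nat.sub_sub_self hwr] at h1
      exact h1.mpr h

end CONREaux

theorem tCONRE : S_CONRE := by
  intro hC hRm hRX hRC N m hm U r hr hmax hdeg hV
  obtain ⟨m', hm', hadj⟩ := hRm m hm r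
  have key : ∀ (V : Finset ℕ), (∀ u ∈ V, u ≤ r) → ∀ n d : ℕ,
      (XX m' (qq N) (xx N) (V.image (fun u => r - u)) ∈ Cone N n d ↔
        XX m (qq N) (xx N) V ∈ Cone N n d) := by
    intro V hVr n d
    rw [hRC N n d m' (V.image (fun u => r - u)), (hRX m m' r hadj V hVr).1 (AN N) N (qq N) (xx N)]
  obtain ⟨_, h2, h3⟩ := hRX m m' r hadj U hmax
  have hnb := CONREaux.nb_rev m m' r hadj U hmax
  have hmain := hC N m' hm' (U.image (fun u => r - u)) 0
    (Finset.mem_image.mpr ⟨r, hr, Nat.sub_self r⟩) (fun u _ => Nat.zero_le u) (by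
      intro u' hu' hlast
      obtain ⟨u, hu, rfl⟩ := Finset.mem_image.mp hu'
      rw [hnb]
      have h4 := (h2 (U \ NB' m U r) Finset.sdiff_subset u hu).2
      have h5 := (h2 U Finset.Subset.rfl u hu).1
      rw [h4, h5]
      refine hdeg u hu ?_
      intro w hw
      have h6 := hlast (r - w) (CONREaux.mem_nb m m' r hadj U hmax w hw)
      have h7 := hmax u hu
      have h8 := hmax w (Finset.mem_filter.mp hw).1
      omega) (by
      intro V' hV'
      rw [hnb] at hV'
      obtain ⟨V, hVs, rfl⟩ := Finset.subset_image_iff.mp hV'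
      have hVr : ∀ u ∈ V, u ≤ r := fun u hu => hmax u (Finset.mem_sdiff.mp (hVs hu)).1
      rw [CONREaux.card_rev r V hVr, (hRX m m' r hadj V hVr).2.2, key V hVr]
      exact hV V hVs)
  rw [CONREaux.card_rev r U hmax, h3, key U hmax] at hmain
  exact hmain

end Pool.Agent.SWK
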