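import Pool.Agent.Lib.MP_263316_co.SWK.Spec

/-! # Project SWK, module EDK: degrees (helper36) -/

set_option autoImplicit false

namespace Pool.Agent.SWK

open Finset Pool.Agent.SWC

private theorem EDKaux_aL (m : ℕ → ℕ) (U S : Finset ℕ) (h : S ⊆ U) (v : ℕ) :
    aL m U v = aL m S v + aL m (U \ S) v := by
  unfold aL
  rw [← card_union_of_disjoint]
  · congr 1
    ext u
    simp only [mem_filter, mem_union, mem_sdiff]
    constructor
    · rintro ⟨h1, h2⟩
      by_cases h3 : u ∈ S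
      · exact Or.inl ⟨h3, h2⟩
      · exact Or.inr ⟨⟨h1, h3⟩, h2⟩
    · rintro (⟨h1, h2⟩ | ⟨⟨h1, -⟩, h2⟩)
      · exact ⟨h h1, h2⟩
      · exact ⟨h1, h2⟩
  · rw [disjoint_left]
    intro u h1 h2
    rw [mem_filter] at h1 h2
    exact (mem_sdiff.mp h2.1).2 h1.1

private theorem EDKaux_sum (m : ℕ → ℕ) (A B : Finset ℕ) :
    ∑ u ∈ A, aR m B u = ∑ v ∈ B, aL m A v := by
  have h1 : ∀ u ∈ A, aR m B u = ∑ v ∈ B, if u < v ∧ v ≤ m u then 1 else 0 := fun u _ => by
    unfold aR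
    rw [card_filter]
  have h2 : ∀ v ∈ B, aL m A v = ∑ u ∈ A, if u < v ∧ v ≤ m u then 1 else 0 := fun v _ => by
    unfold aL
    rw [card_filter]
  rw [sum_congr rfl h1, sum_congr rfl h2, sum_comm]

theorem tEDK : S_EDK := by
  intro m U S h
  have h1 : ∑ u ∈ S, (aR m (U \ S) u + (1 + aL m U u) - 1) =
      ∑ u ∈ S, aR m (U \ S) u + ∑ u ∈ S, aL m U u := by
    rw [← sum_add_distrib]
    refine sum_congr rfl fun u _ => ?_
    omega
  have h2 : eE m U = ∑ u ∈ S, aL m U u + ∑ u ∈ U \ S, aL m U u := by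
    unfold eE
    rw [add_comm]
    exact (sum_sdiff h).symm
  have h3 : ∑ u ∈ U \ S, aL m U u = ∑ u ∈ U \ S, aL m S u + ∑ u ∈ U \ S, aL m (U \ S) u := by
    rw [← sum_add_distrib]
    exact sum_congr rfl fun u _ => EDKaux_aL m U S h u
  rw [h1, h2, h3, EDKaux_sum m S (U \ S)]
  unfold eE
  omega

end Pool.Agent.SWK
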