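import Pool.Agent.Lib.MP_263316_co.SWK.Spec

/-!
MP_263316_co, project SWK (architect helper19): specification of the strong form.

The condition (D) of Spec.lean is only needed for the vertices `u` such that all vertices after `u`
are outside `B = N[r]`, that is, for the LAST vertex of `B` and for all vertices outside `B`.
(2-connected natural unit interval graphs in the resulting class: 415 of 429 for n = 9 and 1308 of
1430 for n = 10.)

IDEA. For a root `j ∈ B` put `τ j = σ j - ρ j` and `t j = τ j - aR (S \ B) j`. The roots may now have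
`t j < 0`, but only if there is a later root `k` with `τ k ≤ τ j + 1` (in the graph: the next root).
This chain condition is preserved by the recursion, provided the neighbours of the removed vertex
are processed from the last one to the first one; and for `S = B` it implies that if some
factor `q^(ρ j) - q^(σ j)` has the wrong sign then another factor is zero.
-/

set_option autoImplicit false

namespace Pool.Agent.SWK

open Finset Pool.Agent.SWC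

/-- the hypotheses on the exponents, strong form -/
def AdmE (m : ℕ → ℕ) (B S : Finset ℕ) (ρ σ : ℕ → ℕ) : Prop :=
  (∀ u ∈ S, 1 ≤ σ u) ∧ (∀ u ∈ S \ B, aL m S u ≤ σ u) ∧
  (∀ u ∈ S \ B, ρ u + aR m (S \ B) u ≤ σ u) ∧
  ∀ j ∈ B, σ j < ρ j + aR m (S \ B) j → ∃ k ∈ B, j < k ∧ σ k + ρ j ≤ σ j + ρ k + 1

/-- the positivity statement for `S`, strong form -/
def PosE (m : ℕ → ℕ) (B S : Finset ℕ) : Prop := ∀ (K : Type) [Field K] (q : K), q ≠ 0 → q ≠ 1 →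
  ∀ ρ σ : ℕ → ℕ, AdmE m B S ρ σ →
  PK q B.card (∑ u ∈ S, (ρ u + σ u - 1)) (KS m q B (fun u => q ^ ρ u) (fun u => q ^ σ u) S)

/-- TASK KE0 (base). `aR m ∅ j = 0`. If `ρ j ≤ σ j` for all `j ∈ B`: `S_KP0` (`Adm m B B ρ σ` holds).
Otherwise let `j` be the largest element of `B` with `σ j < ρ j`; there is a `k > j` in `B` with
`σ k + ρ j ≤ σ j + ρ k + 1`, so `σ k ≤ ρ k`, and `ρ k ≤ σ k` by the choice of `j`: the factor
`q^(ρ k) - q^(σ k)` of `S_KB` is zero, and `0` is in every cone (`S_PKA`, first part). -/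
def S_KE0 : Prop := S_PUmul → S_PKA → S_KB → S_KP0 → ∀ (m : ℕ → ℕ) (B : Finset ℕ), PosE m B B

/-- TASK KE1 (step, first form; compare KP1.lean). `t > ` all elements of `S`, `t ∉ B`, `B ⊆ S`, `m` monotone,
`L = aL m S t`, `N = NL m S t`, `ρ t ≤ σ t ≤ ρ t + L`, `L ≤ σ t`. `S_KREC`:
`(1-q) KS(insert t S) = (q^(ρ t) - q^(σ t)) KS(S; ρ, σ) + (q^(σ t - L) - q^(ρ t)) KS(S; ρ + 1_N, σ)`.
`AdmE` for `(S, ρ, σ)` and `(S, ρ + 1_N, σ)`: as in KP1 for the first three parts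
(`aR m (insert t S \ B) u = aR m (S \ B) u + [u ∈ N]` for `u ∈ S`). Fourth part: if
`σ j < ρ j + aR m (S \ B) j` or `σ j < ρ j + [j ∈ N] + aR m (S \ B) j` then
`σ j < ρ j + aR m (insert t S \ B) j`, so there is `k > j` in `B` with `σ k + ρ j ≤ σ j + ρ k + 1`; and
`j ∈ N` implies `k ∈ N` (`k < t ≤ m j ≤ m k`), so
`σ k + (ρ j + [j ∈ N]) ≤ σ j + (ρ k + [k ∈ N]) + 1`. Degrees as in KP1. -/
def S_KE1 : Prop := S_PUmul → S_PKA → S_KREC → ∀ (m : ℕ → ℕ), Monotone m →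
  ∀ (B S : Finset ℕ) (t : ℕ), t ∉ B → B ⊆ S → (∀ u ∈ S, u < t) → PosE m B S →
  ∀ (K : Type) [Field K] (q : K), q ≠ 0 → q ≠ 1 → ∀ ρ σ : ℕ → ℕ, AdmE m B (insert t S) ρ σ →
  σ t ≤ ρ t + aL m S t →
  PK q B.card (∑ u ∈ insert t S, (ρ u + σ u - 1))
    (KS m q B (fun u => q ^ ρ u) (fun u => q ^ σ u) (insert t S))

/-- TASK KETL (telescoping, from the last element of `N` to the first; compare KTEL.lean). For `N' ⊆ N` let
`G(N') = (q^r - q⁻¹^|N'| q^s) KS(S; ρ + 1_{N'}, σ)`. By `S_KT1` with `α = q^r`,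
`β = q⁻¹^|N'| q^s`, `y = q^(ρ n)`, `z = q^(σ n)`: for `n ∈ N` and `N' = N.filter (n < ·)`
`G(N') - G(insert n N') = (1-q) KS(S; ρ', σ')` with `ρ' = ρ + 1_{N'}` outside `n`,
`ρ' n = ρ n + r`, `σ' = σ` outside `n`, `σ' n = σ n + s - |N'| - 1` (`|N'| + 1 ≤ |N| ≤ s`). The
hypothesis says that these are in `PK q b D`. For final segments `F` of `N` prove
`PK q (b+1) D (G ∅ - G F)` by induction (add the largest element of `N \ F`; for example for
`F = N.filter (l ≤ ·)`, downward induction on `l`), with parts 1, 2, 5 of `S_PKA`. -/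
def S_KETL : Prop := S_PUmul → S_PKA → S_KLIN → S_KT1 → ∀ (K : Type) [Field K] (q : K), q ≠ 0 →
  q ≠ 1 → ∀ (m : ℕ → ℕ) (B S N : Finset ℕ) (ρ σ : ℕ → ℕ) (r s D : ℕ), N ⊆ S → N.card ≤ s →
  (∀ n ∈ N, PK q B.card D (KS m q B
    (fun u => q ^ (if u = n then ρ u + r else if u ∈ N ∧ n < u then ρ u + 1 else ρ u))
    (fun u => q ^ (if u = n then σ u + s - ((N.filter (fun v => n < v)).card + 1) else σ u)) S)) →
  PK q (B.card + 1) D ((q ^ r - q ^ s) * KS m q B (fun u => q ^ ρ u) (fun u => q ^ σ u) S -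
    (q ^ r - q⁻¹ ^ N.card * q ^ s) *
      KS m q B (fun u => if u ∈ N then q * q ^ ρ u else q ^ ρ u) (fun u => q ^ σ u) S)

/-- TASK KADM (the chain condition in the second form; pure arithmetic). `W j = aR m (insert t S \ B) j
= aR m (S \ B) j + [j ∈ N]` for `j ∈ S`, `N = NL m S t`, `i = |{u ∈ N : n < u}| + 1 ≤ |N| = aL m S t`,
`r = ρ t`, `s = σ t`, `r + i ≤ s + 1`. First three parts of `AdmE` as in KP2.lean:
`σ ≤ σ'` (`i ≤ |N| ≤ s` by the second part of `AdmE` for `t`), for `u ∈ N`, `n < u`: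
`ρ u + 1 + aR m (S \ B) u = ρ u + W u ≤ σ u`; for `u = n ∉ B`: `ρ n + W n ≤ σ n`, `W n = aR m (S \ B) n + 1`
and `r ≤ s - i + 1`. Fourth part: let `j ∈ B` with `σ' j < ρ' j + aR m (S \ B) j`; wanted `k > j` in `B`
with `σ' k + ρ' j ≤ σ' j + ρ' k + 1`. Write `c(j)` for 'there is `k ∈ B`, `j < k`,
`σ k + ρ j ≤ σ j + ρ k + 1`', which holds if `σ j < ρ j + W j`.
Case `n ∉ B`: all elements of `B` are smaller than `n` (`hB`), so `ρ' = ρ`, `σ' = σ` on `B`; `c(j)`.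
Case `n ∈ B`. `N ∩ B` is a final segment of `B` (`m` monotone).
 `j > n`: `j ∈ N`, `ρ' j = ρ j + 1`, so `c(j)` holds, `k > n` is in `N`, `ρ' k = ρ k + 1`.
 `j = n`: `σ n + s - i < ρ n + r + aR m (S \ B) n` and `r ≤ s - i + 1` give `σ n < ρ n + W n`, so `c(n)`
 holds; `ρ' k = ρ k + 1`, and `σ k + ρ n + r ≤ σ n + (s - i) + ρ k + 2`.
 `j < n`: `ρ' j = ρ j`, `σ' j = σ j`, `c(j)` holds with some `k`. If `k ≠ n`: `σ' k = σ k`,
 `ρ' k ≥ ρ k`, done. If `k = n`: `W n ≥ W j`, and `W n ≥ W j + 1` if `j ∉ N` (`t` is a neighbour of `n` but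
 not of `j`); in both cases `aR m (S \ B) j + 1 ≤ W n`, and
 `σ n ≤ σ j + ρ n + 1 - ρ j < aR m (S \ B) j + ρ n + 1 ≤ ρ n + W n`, so `c(n)` holds with some
 `k2 > n`, `ρ' k2 = ρ k2 + 1`, `σ' k2 = σ k2`, and
 `σ k2 + ρ j ≤ (σ n + ρ k2 + 1 - ρ n) + ρ j ≤ σ j + ρ k2 + 2 = σ' j + ρ' k2 + 1`. -/
def S_KADM : Prop := ∀ (m : ℕ → ℕ), Monotone m → ∀ (B S : Finset ℕ) (t : ℕ), t ∉ B → B ⊆ S →
  (∀ b ∈ B, ∀ u ∈ S \ B, b < u) → (∀ u ∈ S, u < t) → ∀ ρ σ : ℕ → ℕ,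
  AdmE m B (insert t S) ρ σ → ρ t + aL m S t ≤ σ t + 1 → ∀ n ∈ NL m S t,
  AdmE m B S
    (fun u => if u = n then ρ u + ρ t else if u ∈ NL m S t ∧ n < u then ρ u + 1 else ρ u)
    (fun u => if u = n then σ u + σ t - (((NL m S t).filter (fun v => n < v)).card + 1) else σ u)

/-- TASK KE2 (step, second form; compare KP2.lean). `S_KREC` and `S_KETL` with `N = NL m S t`
(`|N| = aL m S t ≤ σ t`), `r = ρ t`, `s = σ t`,
`D = ∑_{insert t S} (ρ u + σ u - 1) = ∑_S (ρ u + σ u - 1) + ρ t + σ t - 1`; then the fourth part of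
`S_PKA`. The hypothesis of `S_KETL` is `PosE m B S` for the exponents of `S_KADM`; their sum is
`∑_S (ρ + σ) + |N'| + ρ t + σ t - |N'| - 1`, `N' = {u ∈ N : n < u}`. -/
def S_KE2 : Prop := S_PUmul → S_PKA → S_KREC → S_KLIN → S_KT1 → S_KETL → S_KADM →
  ∀ (m : ℕ → ℕ), Monotone m → ∀ (B S : Finset ℕ) (t : ℕ), t ∉ B → B ⊆ S →
  (∀ b ∈ B, ∀ u ∈ S \ B, b < u) → (∀ u ∈ S, u < t) → PosE m B S →
  ∀ (K : Type) [Field K] (q : K), q ≠ 0 → q ≠ 1 → ∀ ρ σ : ℕ → ℕ, AdmE m B (insert t S) ρ σ →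
  ρ t + aL m S t ≤ σ t + 1 →
  PK q B.card (∑ u ∈ insert t S, (ρ u + σ u - 1))
    (KS m q B (fun u => q ^ ρ u) (fun u => q ^ σ u) (insert t S))

/-- TASK KE. Induction on `|S \ B|`: `S = B` is `S_KE0`; otherwise `t = max S ∉ B`,
`S = insert t S'`, `Ini m B S'`, and `S_KE1` or `S_KE2` (`σ t ≤ ρ t + L` or
`ρ t + L < σ t`). -/
def S_KE : Prop := S_PUmul → S_PKA → S_KB → S_KREC → S_KLIN → S_KT1 → S_KP0 → S_KE0 → S_KE1 →
  S_KETL → S_KADM → S_KE2 → ∀ (m : ℕ → ℕ), Monotone m → ∀ (B S : Finset ℕ), Ini m B S →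
  PosE m B S

/-- condition (D) for the vertices after which there is no vertex of `B` -/
def DegE (m : ℕ → ℕ) (B U : Finset ℕ) : Prop :=
  ∀ u ∈ U, (∀ w ∈ B, w ≤ u) → aR m (U \ B) u ≤ aL m U u + 1

/-- TASK CONE (closure theorem, left version; the proof is the one of `S_CON` in CONL.lean with
`AdmE` instead of `Adm`). Verification of `AdmE m B S ρ σ` for `B ⊆ S ⊆ U`, `B = NB m U r`,
`ρ u = aR m (U \ S) u`, `σ u = 1 + aL m U u`: third part: for `u ∈ S \ B` all elements of `B` are smaller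
than `u` and `ρ u + aR m (S \ B) u = aR m (U \ B) u`, so `DegE` applies. Fourth part: let `j ∈ B` with
`σ j < aR m (U \ B) j`. By `DegE` `j` is not the last element of `B`; let `k` be the next one. Then
`aL m U k = aL m U j + 1` (the left neighbours of an element of `B` are the smaller elements of
`B`) and `ρ j ≤ ρ k` (`m` monotone; the elements of `U \ S` are larger than all elements of `B`). -/
def S_CONE : Prop := S_PUmul → S_Cmul → XFc → (∀ (m : ℕ → ℕ), Monotone m →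
    ∀ (B S : Finset ℕ), Ini m B S → PosE m B S) → S_EDK →
  ∀ (N : ℕ) (m : ℕ → ℕ), Monotone m → ∀ (U : Finset ℕ) (r : ℕ), r ∈ U →
  (∀ u ∈ U, r ≤ u) → DegE m (NB m U r) U →
  (∀ V ⊆ U \ NB m U r, XX m (qq N) (xx N) V ∈ Cone N V.card (eE m V)) →
  XX m (qq N) (xx N) U ∈ Cone N U.card (eE m U)

/-- conclusion of `S_CONE` -/
def CONEc : Prop := ∀ (N : ℕ) (m : ℕ → ℕ), Monotone m → ∀ (U : Finset ℕ) (r : ℕ), r ∈ U →
  (∀ u ∈ U, r ≤ u) → DegE m (NB m U r) U →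
  (∀ V ⊆ U \ NB m U r, XX m (qq N) (xx N) V ∈ Cone N V.card (eE m V)) →
  XX m (qq N) (xx N) U ∈ Cone N U.card (eE m U)

/-- TASK CONRE (right version; the proof is the one of `S_CONR` in CONR.lean, the new hypothesis
`∀ w ∈ B, w ≤ u` becomes `∀ w ∈ B', u ≤ w` under `u ↦ r - u`). -/
def S_CONRE : Prop := CONEc → S_REVm → S_REVX → S_REVC → ∀ (N : ℕ) (m : ℕ → ℕ), Monotone m →
  ∀ (U : Finset ℕ) (r : ℕ), r ∈ U → (∀ u ∈ U, u ≤ r) →
  (∀ u ∈ U, (∀ w ∈ NB' m U r, u ≤ w) → aL m (U \ NB' m U r) u ≤ aR m U u + 1) →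
  (∀ V ⊆ U \ NB' m U r, XX m (qq N) (xx N) V ∈ Cone N V.card (eE m V)) →
  XX m (qq N) (xx N) U ∈ Cone N U.card (eE m U)

/-- The class of vertex sets (= induced subgraphs) of the graph of `h`, strong form. -/
inductive NiceE {n : ℕ} (h : Fin n → Fin n) : Finset (Fin n) → Prop
  | blocks (U : Finset (Fin n))
      (hU : ∀ a ∈ U, ∀ b ∈ U, a < b →
        (∀ i ∈ U, ∀ j ∈ U, ∀ k ∈ U, a ≤ i → i < j → j < k → k ≤ b →
          (∀ l ∈ U, i < l → l < k → l = j) → k ≤ h i) →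
        (∀ u ∈ U, ∀ v ∈ U, ∀ w ∈ U, a ≤ u → u < v → v < w → w ≤ b → ¬ (h u < v ∧ h v < w)) ∨
        (∀ u ∈ U, ∀ v ∈ U, ∀ w ∈ U, ∀ y ∈ U, ∀ z ∈ U, a ≤ u → u < v → v < w → w < y → y < z →
          z ≤ b → ¬ (y ≤ h u ∧ z ≤ h v ∧ h u < z))) : NiceE h U
  | union (U V : Finset (Fin n)) (hUV : ∀ u ∈ U, ∀ v ∈ V, u < v ∧ h u < v)
      (hU : NiceE h U) (hV : NiceE h V) : NiceE h (U ∪ V)
  | left (U : Finset (Fin n)) (r : Fin n) (hr : r ∈ U) (hmin : ∀ u ∈ U, r ≤ u)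
      (hdeg : ∀ u ∈ U, (∀ w ∈ U, u < w → h r < w) →
        (U.filter (fun v => u < v ∧ v ≤ h u ∧ h r < v)).card ≤
        (U.filter (fun v => v < u ∧ u ≤ h v)).card + 1)
      (hV : ∀ V ⊆ U.filter (fun v => h r < v), NiceE h V) : NiceE h U
  | right (U : Finset (Fin n)) (r : Fin n) (hr : r ∈ U) (hmax : ∀ u ∈ U, u ≤ r)
      (hdeg : ∀ u ∈ U, (∀ w ∈ U, w < u → h w < r) →
        (U.filter (fun v => v < u ∧ u ≤ h v ∧ h v < r)).card ≤
        (U.filter (fun v => u < v ∧ v ≤ h u)).card + 1)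
      (hV : ∀ V ⊆ U.filter (fun v => h v < r), NiceE h V) : NiceE h U

/-- TASK NICEE (the proof is the one of `S_NICE` in NICE.lean; the new hypothesis: for `u ∈ U` all elements
of `NB m U' r` are `≤ u` iff every `w ∈ U` with `u < w` has `h r < w`, using `r ≤ u`, `r ≤ h r`; same on
the right). -/
def S_NICEE : Prop := CONEc → S_Cmul →
  (∀ (N : ℕ) (m : ℕ → ℕ), Monotone m → ∀ (U : Finset ℕ) (r : ℕ), r ∈ U → (∀ u ∈ U, u ≤ r) →
    (∀ u ∈ U, (∀ w ∈ NB' m U r, u ≤ w) → aL m (U \ NB' m U r) u ≤ aR m U u + 1) →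
    (∀ V ⊆ U \ NB' m U r, XX m (qq N) (xx N) V ∈ Cone N V.card (eE m V)) →
    XX m (qq N) (xx N) U ∈ Cone N U.card (eE m U)) →
  (∀ (N : ℕ) (m : ℕ → ℕ), Monotone m → ∀ U : Finset ℕ, BC m U →
    XX m (qq N) (xx N) U ∈ Cone N U.card (eE m U)) →
  S_UNI → ∀ (n : ℕ) (h : Fin n → Fin n), Monotone h → (∀ i, i ≤ h i) →
  ∀ (m : ℕ → ℕ), Monotone m → (∀ i : Fin n, m (i : ℕ) = (h i : ℕ)) →
  ∀ U : Finset (Fin n), NiceE h U → ∀ N : ℕ,
  XX m (qq N) (xx N) (U.image (fun u : Fin n => (u : ℕ))) ∈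
    Cone N U.card (eE m (U.image (fun u : Fin n => (u : ℕ))))

end Pool.Agent.SWK
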