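import Pool.Agent.Lib.MP_263316_co.FIN
import Pool.Agent.Lib.MP_263316_co.SWK.SpecE

/-!
MP_263316_co, project SWK: the final theorem from the theorem for the class `NiceE`.
-/

set_option autoImplicit false

namespace Pool.Agent.SWK

open Finset Pool.Agent.SWC

/-- The final theorem, strong form. -/
def S_FINALE : Prop := ∀ (n : ℕ) (h : Fin n → Fin n), Monotone h → (∀ i, i ≤ h i) →
    NiceE h Finset.univ →
    ∀ E : ℕ, E = (Finset.univ.filter (fun p : Fin n × Fin n => p.1 < p.2 ∧ p.2 ≤ h p.1)).card →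
    ∃ a : Nat.Partition n → Polynomial ℤ,
      ((∑ κ ∈ (Finset.univ.filter
            (fun κ : Fin n → Fin n => ∀ i j : Fin n, i < j → j ≤ h i → κ i ≠ κ j)),
          MvPolynomial.C (Polynomial.X ^ ((Finset.univ.filter
            (fun p : Fin n × Fin n => p.1 < p.2 ∧ p.2 ≤ h p.1 ∧ κ p.1 < κ p.2)).card))
            * ∏ i : Fin n, MvPolynomial.X (κ i) : MvPolynomial (Fin n) (Polynomial ℤ))
        = ∑ μ : Nat.Partition n, MvPolynomial.C (a μ) *
            (μ.parts.map (fun k => MvPolynomial.esymm (Fin n) (Polynomial ℤ) k)).prod)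
      ∧ ∀ μ : Nat.Partition n,
          (∀ i : ℕ, 0 ≤ (a μ).coeff i)
          ∧ (∀ i : ℕ, E < i → (a μ).coeff i = 0)
          ∧ (∀ i : ℕ, i ≤ E → (a μ).coeff i = (a μ).coeff (E - i))
          ∧ (∀ i j : ℕ, i ≤ j → 2 * j ≤ E → (a μ).coeff i ≤ (a μ).coeff j)

open FinAux in
theorem finalE (hN : ∀ (n : ℕ) (h : Fin n → Fin n), Monotone h → (∀ i, i ≤ h i) →
      ∀ (m : ℕ → ℕ), Monotone m → (∀ i : Fin n, m (i : ℕ) = (h i : ℕ)) →
      ∀ U : Finset (Fin n), NiceE h U → ∀ N : ℕ,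
      XX m (qq N) (xx N) (U.image (fun u : Fin n => (u : ℕ))) ∈
        Cone N U.card (eE m (U.image (fun u : Fin n => (u : ℕ)))))
    (hCpart : S_Cpart) (hPU : S_PUcoeff) (hFUN : S_FUN) : S_FINALE := by
  intro n h hm hle hg E hE
  have hU : (Finset.univ : Finset (Fin n)).image (fun u : Fin n => (u : ℕ)) = range n := by
    ext u
    simp only [mem_image, mem_univ, true_and, mem_range]
    exact ⟨fun ⟨a, ha⟩ => ha ▸ a.2, fun hu => ⟨⟨u, hu⟩, rfl⟩⟩
  have hX : XX (mh h) (qq n) (xx n) (range n) ∈ Cone n n E := by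
    have h1 := hN n h hm hle (mh h) (mh_mono h hm) (fun i => mh_fin h i) Finset.univ hg n
    rw [hU, Finset.card_univ, Fintype.card_fin, eE_mh, ← hE] at h1
    exact h1
  obtain ⟨a, ha, hpu⟩ := hCpart n n E _ hX
  exact ⟨a, (sum_eq h hFUN).trans ha, fun μ => hPU E (a μ) (hpu μ)⟩

end Pool.Agent.SWK
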