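import Pool.Agent.Lib.MP_263316_co.SWK.SpecE

/-!
MP_263316_co, project SWK: the chain condition in the second form.
-/

set_option autoImplicit false

namespace Pool.Agent.SWK

open Finset Pool.Agent.SWC

namespace KADMbaux

theorem aL_ins (m : ℕ → ℕ) (S : Finset ℕ) (t u : ℕ) (hu : u < t) :
    aL m (insert t S) u = aL m S u := by
  unfold aL
  congr 1
  ext v
  simp only [mem_filter, mem_insert]
  constructor
  · rintro ⟨h | h, h1, h2⟩
    · omega
    · exact ⟨h, h1, h2⟩
  · rintro ⟨h, h1, h2⟩
    exact ⟨Or.inr h, h1, h2⟩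

theorem aL_ins_self (m : ℕ → ℕ) (S : Finset ℕ) (t : ℕ) :
    aL m (insert t S) t = aL m S t := by
  unfold aL
  congr 1
  ext v
  simp only [mem_filter, mem_insert]
  constructor
  · rintro ⟨h | h, h1, h2⟩
    · omega
    · exact ⟨h, h1, h2⟩
  · rintro ⟨h, h1, h2⟩
    exact ⟨Or.inr h, h1, h2⟩

theorem aR_ins (m : ℕ → ℕ) (B S : Finset ℕ) (t u : ℕ) (htB : t ∉ B) (htS : t ∉ S)
    (huS : u ∈ S) (hu : u < t) :
    aR m (insert t S \ B) u = aR m (S \ B) u + (if u ∈ NL m S t then 1 else 0) := by
  have hset : insert t S \ B = insert t (S \ B) := by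
    ext v
    simp only [mem_sdiff, mem_insert]
    constructor
    · rintro ⟨h | h, h1⟩
      · exact Or.inl h
      · exact Or.inr ⟨h, h1⟩
    · rintro (h | h)
      · exact ⟨Or.inl h, h ▸ htB⟩
      · exact ⟨Or.inr h.1, h.2⟩
  have hnot : t ∉ S \ B := fun h => htS (mem_sdiff.mp h).1
  rw [hset]
  unfold aR
  rw [filter_insert]
  by_cases h : t ≤ m u
  · rw [if_pos ⟨hu, h⟩, if_pos, card_insert_of_notMem]
    · intro h'
      exact hnot (mem_filter.mp h').1
    · unfold NL
      exact mem_filter.mpr ⟨huS, hu, h⟩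
  · rw [if_neg (fun h' => h h'.2), if_neg, Nat.add_zero]
    unfold NL
    intro h'
    exact h (mem_filter.mp h').2.2

theorem aR_mono (m : ℕ → ℕ) (hm : Monotone m) (T : Finset ℕ) (j n : ℕ) (hjn : j ≤ n)
    (hT : ∀ w ∈ T, n < w) : aR m T j ≤ aR m T n := by
  unfold aR
  refine card_le_card fun w hw => ?_
  rw [mem_filter] at hw ⊢
  exact ⟨hw.1, hT w hw.1, hw.2.2.trans (hm hjn)⟩

end KADMbaux

open KADMbaux in
theorem tKADMb : S_KADM := by
  intro m hm B S t htB hBS hB hSt ρ σ hA hL n hn
  obtain ⟨h1, h2, h3, h4⟩ := hA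
  have htS : t ∉ S := fun h => lt_irrefl _ (hSt t h)
  have hn' := hn
  unfold NL at hn'
  rw [mem_filter] at hn'
  obtain ⟨hnS, hnt, hnm⟩ := hn'
  have htmem : t ∈ insert t S \ B := mem_sdiff.mpr ⟨mem_insert_self t S, htB⟩
  have hLs : aL m S t ≤ σ t := by
    have := h2 t htmem
    rwa [aL_ins_self] at this
  have hcard : ((NL m S t).filter (fun v => n < v)).card + 1 ≤ aL m S t := by
    have e : aL m S t = (NL m S t).card := rfl
    rw [e]
    have hsub : insert n ((NL m S t).filter (fun v => n < v)) ⊆ NL m S t := by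
      intro u hu
      rcases mem_insert.mp hu with h | h
      · rw [h]; exact hn
      · exact (mem_filter.mp h).1
    have hnot : n ∉ (NL m S t).filter (fun v => n < v) := by
      intro h
      exact lt_irrefl _ (mem_filter.mp h).2
    have := card_le_card hsub
    rwa [card_insert_of_notMem hnot] at this
  set i := ((NL m S t).filter (fun v => n < v)).card + 1 with hi
  have hW : ∀ u ∈ S, aR m (insert t S \ B) u =
      aR m (S \ B) u + (if u ∈ NL m S t then 1 else 0) :=
    fun u hu => aR_ins m B S t u htB htS hu (hSt u hu)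
  have hNLup : ∀ j ∈ S, ∀ k ∈ S, j ≤ k → j ∈ NL m S t → k ∈ NL m S t := by
    intro j _ k hk hjk hj
    unfold NL at hj ⊢
    rw [mem_filter] at hj ⊢
    exact ⟨hk, hSt k hk, hj.2.2.trans (hm hjk)⟩
  -- the chain hypothesis
  have hc : ∀ j ∈ B, σ j < ρ j + aR m (insert t S \ B) j →
      ∃ k ∈ B, j < k ∧ σ k + ρ j ≤ σ j + ρ k + 1 := h4
  refine ⟨?_, ?_, ?_, ?_⟩
  · intro u hu
    have := h1 u (mem_insert_of_mem hu)
    show 1 ≤ (if u = n then σ u + σ t - i else σ u)
    split_ifs
    · omega
    · exact this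
  · intro u hu
    rw [mem_sdiff] at hu
    have := h2 u (mem_sdiff.mpr ⟨mem_insert_of_mem hu.1, hu.2⟩)
    rw [aL_ins m S t u (hSt u hu.1)] at this
    show aL m S u ≤ (if u = n then σ u + σ t - i else σ u)
    split_ifs
    · omega
    · exact this
  · intro u hu
    rw [mem_sdiff] at hu
    have h := h3 u (mem_sdiff.mpr ⟨mem_insert_of_mem hu.1, hu.2⟩)
    rw [hW u hu.1] at h
    show (if u = n then ρ u + ρ t else if u ∈ NL m S t ∧ n < u then ρ u + 1 else ρ u) +
      aR m (S \ B) u ≤ (if u = n then σ u + σ t - i else σ u)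
    by_cases hun : u = n
    · rw [if_pos hun, if_pos hun]
      rw [if_pos (hun ▸ hn)] at h
      omega
    · rw [if_neg hun, if_neg hun]
      by_cases h5 : u ∈ NL m S t ∧ n < u
      · rw [if_pos h5]
        rw [if_pos h5.1] at h
        omega
      · rw [if_neg h5]
        split_ifs at h <;> omega
  · intro j hj hlt
    have hjS : j ∈ S := hBS hj
    change (if j = n then σ j + σ t - i else σ j) <
      (if j = n then ρ j + ρ t else if j ∈ NL m S t ∧ n < j then ρ j + 1 else ρ j) +
        aR m (S \ B) j at hlt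
    show ∃ k ∈ B, j < k ∧
      (if k = n then σ k + σ t - i else σ k) +
        (if j = n then ρ j + ρ t else if j ∈ NL m S t ∧ n < j then ρ j + 1 else ρ j) ≤
      (if j = n then σ j + σ t - i else σ j) +
        (if k = n then ρ k + ρ t else if k ∈ NL m S t ∧ n < k then ρ k + 1 else ρ k) + 1
    by_cases hnB : n ∈ B
    · have hWn := hW n hnS
      rw [if_pos hn] at hWn
      rcases lt_trichotomy j n with hjn | hjn | hjn
      · -- j < n
        have hjn' : j ≠ n := hjn.ne
        have hnj : ¬ (j ∈ NL m S t ∧ n < j) := fun h => by omega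
        rw [if_neg hjn', if_neg hjn', if_neg hnj] at hlt
        have hWj := hW j hjS
        have hcj : σ j < ρ j + aR m (insert t S \ B) j := by
          rw [hWj]; omega
        obtain ⟨k, hk, hjk, hkle⟩ := hc j hj hcj
        by_cases hkn : k = n
        · subst hkn
          have hTlt : ∀ w ∈ S \ B, k < w := fun w hw => hB k hnB w hw
          have hmono := aR_mono m hm (S \ B) j k hjk.le hTlt
          have hcn : σ k < ρ k + aR m (insert t S \ B) k := by
            rw [hWn]; omega
          obtain ⟨k2, hk2, hnk2, hk2le⟩ := hc k hnB hcn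
          refine ⟨k2, hk2, by omega, ?_⟩
          have hk2n : k2 ≠ k := by omega
          have hk2N : k2 ∈ NL m S t ∧ k < k2 :=
            ⟨hNLup k hnS k2 (hBS hk2) hnk2.le hn, hnk2⟩
          rw [if_neg hk2n, if_neg hjn', if_neg hnj, if_neg hjn', if_neg hk2n, if_pos hk2N]
          omega
        · refine ⟨k, hk, hjk, ?_⟩
          rw [if_neg hkn, if_neg hjn', if_neg hnj, if_neg hjn', if_neg hkn]
          split_ifs <;> omega
      · -- j = n
        subst hjn
        rw [if_pos rfl, if_pos rfl] at hlt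
        have hcn : σ j < ρ j + aR m (insert t S \ B) j := by
          rw [hWn]; omega
        obtain ⟨k, hk, hjk, hkle⟩ := hc j hj hcn
        refine ⟨k, hk, hjk, ?_⟩
        have hkn : k ≠ j := by omega
        have hkN : k ∈ NL m S t ∧ j < k := ⟨hNLup j hnS k (hBS hk) hjk.le hn, hjk⟩
        rw [if_neg hkn, if_pos rfl, if_pos rfl, if_neg hkn, if_pos hkN]
        omega
      · -- n < j
        have hjn' : j ≠ n := hjn.ne'
        have hjN : j ∈ NL m S t ∧ n < j := ⟨hNLup n hnS j hjS hjn.le hn, hjn⟩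
        rw [if_neg hjn', if_neg hjn', if_pos hjN] at hlt
        have hWj := hW j hjS
        rw [if_pos hjN.1] at hWj
        have hcj : σ j < ρ j + aR m (insert t S \ B) j := by
          rw [hWj]; omega
        obtain ⟨k, hk, hjk, hkle⟩ := hc j hj hcj
        refine ⟨k, hk, hjk, ?_⟩
        have hkn : k ≠ n := by omega
        have hkN : k ∈ NL m S t ∧ n < k :=
          ⟨hNLup j hjS k (hBS hk) hjk.le hjN.1, by omega⟩
        rw [if_neg hkn, if_neg hjn', if_pos hjN, if_neg hjn', if_neg hkn, if_pos hkN]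
        omega
    · -- n ∉ B
      have hnSB : n ∈ S \ B := mem_sdiff.mpr ⟨hnS, hnB⟩
      have hlt' : ∀ b ∈ B, b < n := fun b hb => hB b hb n hnSB
      have hjn := hlt' j hj
      have hjn' : j ≠ n := hjn.ne
      have hnj : ¬ (j ∈ NL m S t ∧ n < j) := fun h => by omega
      rw [if_neg hjn', if_neg hjn', if_neg hnj] at hlt
      have hWj := hW j hjS
      have hcj : σ j < ρ j + aR m (insert t S \ B) j := by
        rw [hWj]; omega
      obtain ⟨k, hk, hjk, hkle⟩ := hc j hj hcj
      have hkn := hlt' k hk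
      have hkn' : k ≠ n := hkn.ne
      have hnk : ¬ (k ∈ NL m S t ∧ n < k) := fun h => by omega
      refine ⟨k, hk, hjk, ?_⟩
      rw [if_neg hkn', if_neg hjn', if_neg hnj, if_neg hjn', if_neg hkn', if_neg hnk]
      omega

end Pool.Agent.SWK
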