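import Pool.Agent.Lib.MP_263316_co.SWK.SpecE

/-!
MP_263316_co, project SWK, task KE: positivity of the coefficients, strong form, by induction on the
last vertex.
-/

set_option autoImplicit false

namespace Pool.Agent.SWK

open Finset Pool.Agent.SWC

theorem tKE : S_KE := by
  intro hPU hPKA hKB hKREC hKLIN hKT1 hKP0 hKE0 hKE1 hKETL hKADM hKE2 m hm B S
  induction hn : (S \ B).card generalizing S with
  | zero =>
    intro hIni
    have h1 : S \ B = ∅ := Finset.card_eq_zero.1 hn
    have h2 : S = B := Finset.Subset.antisymm (Finset.sdiff_eq_empty_iff_subset.1 h1) hIni.1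
    rw [h2]
    exact hKE0 hPU hPKA hKB hKP0 m B
  | succ n ih =>
    intro hIni
    obtain ⟨hBS, hlow, hcl⟩ := hIni
    have hne : (S \ B).Nonempty := by
      rw [← Finset.card_pos]; omega
    obtain ⟨w, hw⟩ := hne
    rw [Finset.mem_sdiff] at hw
    have hSne : S.Nonempty := ⟨w, hw.1⟩
    set t := S.max' hSne with ht
    have htS : t ∈ S := Finset.max'_mem S hSne
    have hle : ∀ u ∈ S, u ≤ t := fun u hu => Finset.le_max' S u hu
    have htB : t ∉ B := by
      intro htB
      rcases (hle w hw.1).lt_or_eq with h | h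
      · exact hw.2 (hlow t htB w hw.1 h)
      · exact hw.2 (h ▸ htB)
    have hins : insert t (S.erase t) = S := Finset.insert_erase htS
    have hlt : ∀ u ∈ S.erase t, u < t := by
      intro u hu
      rw [Finset.mem_erase] at hu
      exact lt_of_le_of_ne (hle u hu.2) hu.1
    have hIni' : Ini m B (S.erase t) := by
      refine ⟨?_, ?_, hcl⟩
      · intro b hb
        rw [Finset.mem_erase]
        exact ⟨fun h => htB (h ▸ hb), hBS hb⟩
      · intro b hb u hu hub
        exact hlow b hb u (Finset.mem_of_mem_erase hu) hub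
    have hcard : (S.erase t \ B).card = n := by
      have h1 : S.erase t \ B = (S \ B).erase t := by
        ext u
        simp only [Finset.mem_sdiff, Finset.mem_erase]
        tauto
      rw [h1, Finset.card_erase_of_mem (Finset.mem_sdiff.2 ⟨htS, htB⟩), hn]
      rfl
    have hPos : PosE m B (S.erase t) := ih (S.erase t) hcard hIni'
    have hBu : ∀ b ∈ B, ∀ u ∈ S.erase t \ B, b < u := by
      intro b hb u hu
      rw [Finset.mem_sdiff] at hu
      rcases lt_trichotomy b u with h | h | h
      · exact h
      · exact absurd (h ▸ hb) hu.2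
      · exact absurd (hIni'.2.1 b hb u hu.1 h) hu.2
    intro K _ q hq0 hq1 ρ σ hA
    rw [← hins] at hA ⊢
    rcases le_or_gt (σ t) (ρ t + aL m (S.erase t) t) with h | h
    · exact hKE1 hPU hPKA hKREC m hm B (S.erase t) t htB hIni'.1 hlt hPos K q hq0 hq1 ρ σ hA h
    · exact hKE2 hPU hPKA hKREC hKLIN hKT1 hKETL hKADM m hm B (S.erase t) t htB hIni'.1 hBu hlt
        hPos K q hq0 hq1 ρ σ hA (by omega)

end Pool.Agent.SWK
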