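import Pool.Agent.Lib.MP_263316_co.SWK.SpecE

/-!
MP_263316_co, project SWK, strong form: task KE0 (the base of the induction).
-/

set_option autoImplicit false

namespace Pool.Agent.SWK

open Finset Pool.Agent.SWC

theorem tKE0 : S_KE0 := by
  intro hPU hPKA hKB hKP0 m B K _ q hq0 hq1 ρ σ hadm
  obtain ⟨h1, h2, h3, h4⟩ := hadm
  have haR : ∀ j, aR m (B \ B) j = 0 := by
    intro j
    rw [Finset.sdiff_self]
    simp [aR]
  by_cases hc : ∀ j ∈ B, ρ j ≤ σ j
  · exact hKP0 hPU hPKA hKB m B K q hq0 hq1 ρ σ ⟨h1, h2, fun u hu => by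
      rw [haR, add_zero]
      exact hc u hu⟩
  · have hF : (B.filter (fun j => σ j < ρ j)).Nonempty := by
      by_contra hne
      apply hc
      intro j hj
      by_contra hlt
      exact hne ⟨j, Finset.mem_filter.2 ⟨hj, not_le.1 hlt⟩⟩
    obtain ⟨hjB, hjlt⟩ := Finset.mem_filter.1 (Finset.max'_mem _ hF)
    obtain ⟨k, hk, hjk, hle⟩ := h4 _ hjB (by rw [haR, add_zero]; exact hjlt)
    have hk2 : ρ k ≤ σ k := by
      by_contra hlt
      have h5 := Finset.le_max' (B.filter (fun j => σ j < ρ j)) k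
        (Finset.mem_filter.2 ⟨hk, not_le.1 hlt⟩)
      omega
    have hk3 : ρ k = σ k := by omega
    rw [hKB, Finset.prod_eq_zero hk (by rw [hk3, sub_self])]
    exact (hPKA hPU K q hq1).1 _ _

end Pool.Agent.SWK
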