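import Pool.Agent.Lib.MP_263316_co.SWK.SpecE

/-!
MP_263316_co (Shareshian-Wachs), project SWK: `S_KE1` (step for the last vertex, first form, strong
version).
-/

set_option autoImplicit false

namespace Pool.Agent.SWK

open Finset Pool.Agent.SWC

namespace KE1aux

theorem aL_mono {m : ℕ → ℕ} {S S' : Finset ℕ} (h : S ⊆ S') (u : ℕ) : aL m S u ≤ aL m S' u :=
  card_le_card (filter_subset_filter _ h)

theorem aR_mono {m : ℕ → ℕ} {S S' : Finset ℕ} (h : S ⊆ S') (u : ℕ) : aR m S u ≤ aR m S' u :=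
  card_le_card (filter_subset_filter _ h)

theorem aL_self (m : ℕ → ℕ) (S : Finset ℕ) (t : ℕ) : aL m (insert t S) t = aL m S t := by
  rw [aL, aL, filter_insert, if_neg (fun h => lt_irrefl t h.1)]

theorem sub_ins (B S : Finset ℕ) (t : ℕ) : S \ B ⊆ insert t S \ B :=
  sdiff_subset_sdiff (subset_insert t S) (subset_refl B)

theorem aR_succ {m : ℕ → ℕ} {B S : Finset ℕ} {t u : ℕ} (htB : t ∉ B) (htS : t ∉ S)
    (h1 : u < t) (h2 : t ≤ m u) : aR m (S \ B) u + 1 ≤ aR m (insert t S \ B) u := by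
  have h3 : insert t S \ B = insert t (S \ B) := insert_sdiff_of_notMem S htB
  rw [h3, aR, aR, filter_insert, if_pos ⟨h1, h2⟩, card_insert_of_notMem]
  intro h
  exact htS (mem_sdiff.1 (mem_filter.1 h).1).1

/-- the exponents after the step -/
def rp (m : ℕ → ℕ) (S : Finset ℕ) (t : ℕ) (ρ : ℕ → ℕ) (u : ℕ) : ℕ :=
  if u ∈ NL m S t then ρ u + 1 else ρ u

theorem rp_aR {m : ℕ → ℕ} {B S : Finset ℕ} {t : ℕ} (ρ : ℕ → ℕ) (htB : t ∉ B) (htS : t ∉ S)
    (u : ℕ) : rp m S t ρ u + aR m (S \ B) u ≤ ρ u + aR m (insert t S \ B) u := by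
  unfold rp
  split_ifs with hN
  · have h5 := mem_filter.1 hN
    have h6 := aR_succ (m := m) htB htS h5.2.1 h5.2.2
    omega
  · have h6 := aR_mono (m := m) (sub_ins B S t) u
    omega

theorem adm1 {m : ℕ → ℕ} {B S : Finset ℕ} {t : ℕ} {ρ σ : ℕ → ℕ} (h : AdmE m B (insert t S) ρ σ) :
    AdmE m B S ρ σ := by
  obtain ⟨h1, h2, h3, h4⟩ := h
  refine ⟨fun u hu => h1 u (mem_insert_of_mem hu), fun u hu => ?_, fun u hu => ?_,
    fun j hj hlt => ?_⟩
  · exact (aL_mono (subset_insert t S) u).trans (h2 u (sub_ins B S t hu))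
  · exact (Nat.add_le_add_left (aR_mono (sub_ins B S t) u) _).trans (h3 u (sub_ins B S t hu))
  · exact h4 j hj (lt_of_lt_of_le hlt (Nat.add_le_add_left (aR_mono (sub_ins B S t) j) _))

theorem adm2 {m : ℕ → ℕ} (hm : Monotone m) {B S : Finset ℕ} {t : ℕ} {ρ σ : ℕ → ℕ} (htB : t ∉ B)
    (hBS : B ⊆ S) (hSt : ∀ u ∈ S, u < t) (h : AdmE m B (insert t S) ρ σ) :
    AdmE m B S (rp m S t ρ) σ := by
  have htS : t ∉ S := fun h => lt_irrefl t (hSt t h)
  obtain ⟨h1, h2, h3, h4⟩ := h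
  refine ⟨fun u hu => h1 u (mem_insert_of_mem hu), fun u hu => ?_, fun u hu => ?_,
    fun j hj hlt => ?_⟩
  · exact (aL_mono (subset_insert t S) u).trans (h2 u (sub_ins B S t hu))
  · exact (rp_aR ρ htB htS u).trans (h3 u (sub_ins B S t hu))
  · obtain ⟨k, hk, hjk, hle⟩ := h4 j hj (lt_of_lt_of_le hlt (rp_aR ρ htB htS j))
    refine ⟨k, hk, hjk, ?_⟩
    unfold rp
    by_cases hN : j ∈ NL m S t
    · have h5 := mem_filter.1 hN
      have hkN : k ∈ NL m S t :=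
        mem_filter.2 ⟨hBS hk, hSt k (hBS hk), h5.2.2.trans (hm hjk.le)⟩
      rw [if_pos hN, if_pos hkN]
      omega
    · rw [if_neg hN]
      split_ifs <;> omega

theorem deg2 {m : ℕ → ℕ} {S : Finset ℕ} {t : ℕ} {ρ σ : ℕ → ℕ} (h : ∀ u ∈ S, 1 ≤ σ u) :
    ∑ u ∈ S, (rp m S t ρ u + σ u - 1) = ∑ u ∈ S, (ρ u + σ u - 1) + aL m S t := by
  have h1 : aL m S t = ∑ u ∈ S, if u < t ∧ t ≤ m u then 1 else 0 := by
    rw [aL, card_filter]
  rw [h1, ← sum_add_distrib]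
  refine sum_congr rfl fun u hu => ?_
  have h2 := h u hu
  unfold rp
  by_cases hN : u < t ∧ t ≤ m u
  · have h3 : u ∈ NL m S t := mem_filter.2 ⟨hu, hN⟩
    rw [if_pos h3, if_pos hN]
    omega
  · have h3 : u ∉ NL m S t := fun h3 => hN (mem_filter.1 h3).2
    rw [if_neg h3, if_neg hN]
    omega

end KE1aux

open KE1aux in
/-- Step for the last vertex, first form, strong version. -/
theorem tKE1 : S_KE1 := by
  intro hPU hPKA hREC m hm B S t htB hBS hSt hPos K _ q hq0 hq1 ρ σ hAdm hle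
  have htS : t ∉ S := fun h => lt_irrefl t (hSt t h)
  have htm : t ∈ insert t S \ B := mem_sdiff.2 ⟨mem_insert_self t S, htB⟩
  obtain ⟨-, hadd, hmul, hdiv, -⟩ := hPKA hPU K q hq1
  have hL : aL m S t ≤ σ t := by
    have h1 := hAdm.2.1 t htm
    rwa [aL_self] at h1
  have hρ : ρ t ≤ σ t := by
    have h1 := hAdm.2.2.1 t htm
    omega
  have hσ : 1 ≤ σ t := hAdm.1 t (mem_insert_self t S)
  have hP1 := hPos K q hq0 hq1 ρ σ (adm1 hAdm)
  have hP2 := hPos K q hq0 hq1 (rp m S t ρ) σ (adm2 hm htB hBS hSt hAdm)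
  rw [deg2 (fun u hu => hAdm.1 u (mem_insert_of_mem hu))] at hP2
  have hfun : (fun u => if u ∈ NL m S t then q * q ^ ρ u else q ^ ρ u) =
      fun u => q ^ rp m S t ρ u := by
    funext u
    unfold rp
    split_ifs
    · rw [pow_succ, mul_comm]
    · rfl
  have hrec := hREC K m q hq0 B S t (fun u => q ^ ρ u) (fun u => q ^ σ u) htB hSt
  rw [hfun] at hrec
  have hpow : q⁻¹ ^ aL m S t * q ^ σ t = q ^ (σ t - aL m S t) := by
    have h1 : q ^ σ t = q ^ (σ t - aL m S t) * q ^ aL m S t := by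
      rw [← pow_add, Nat.sub_add_cancel hL]
    rw [h1, inv_pow]
    have h2 : q ^ aL m S t ≠ 0 := pow_ne_zero _ hq0
    field_simp
  apply hdiv
  rw [hrec]
  have hsum : ∑ u ∈ insert t S, (ρ u + σ u - 1) = ρ t + σ t - 1 + ∑ u ∈ S, (ρ u + σ u - 1) :=
    sum_insert htS
  rw [hsum, sub_eq_add_neg, ← neg_mul]
  have hneg : -(q ^ ρ t - q⁻¹ ^ aL m S t * q ^ σ t) = q ^ (σ t - aL m S t) - q ^ ρ t := by
    rw [hpow]
    ring
  apply hadd
  · exact hmul _ _ (ρ t) (σ t) _ _ hP1 hρ (by omega)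
  · show PK q (B.card + 1) _ (-(q ^ ρ t - q⁻¹ ^ aL m S t * q ^ σ t) * _)
    rw [hneg]
    exact hmul _ _ (σ t - aL m S t) (ρ t) _ _ hP2 (by omega) (by omega)

end Pool.Agent.SWK
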