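import Pool.Agent.Lib.MP_263316_co.SWK.SpecE

/-!
MP_263316_co, project SWK: positivity of the coefficients, strong form, step of the induction,
second form (`S_KE2`).
-/

set_option autoImplicit false

namespace Pool.Agent.SWK

open Finset Pool.Agent.SWC

namespace KE2aux

/-- the left degree does not change if a vertex which is not to the left is added -/
lemma aL_insert (m : ℕ → ℕ) (S : Finset ℕ) (t u : ℕ) (h : u ≤ t) :
    aL m (insert t S) u = aL m S u := by
  unfold aL
  rw [Finset.filter_insert, if_neg (fun hh => absurd hh.1 (Nat.not_lt.mpr h))]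

end KE2aux

theorem tKE2 : S_KE2 := by
  intro h1 h2 h3 h4 h5 h6 h7 m hm B S t htB hBS hB hlt hPos K _ q hq0 hq1 ρ σ hAdm hL
  have hKADM := h7 m hm B S t htB hBS hB hlt ρ σ hAdm hL
  obtain ⟨hA1, hA2, hA3, hA4⟩ := hAdm
  have htS : t ∉ S := fun h => lt_irrefl t (hlt t h)
  have hNS : NL m S t ⊆ S := Finset.filter_subset _ _
  have hcardL : (NL m S t).card = aL m S t := rfl
  have hLs : aL m S t ≤ σ t := by
    have h := hA2 t (Finset.mem_sdiff.mpr ⟨Finset.mem_insert_self t S, htB⟩)
    rwa [KE2aux.aL_insert m S t t le_rfl] at h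
  have hst : 1 ≤ σ t := hA1 t (Finset.mem_insert_self t S)
  have hD : ∑ u ∈ insert t S, (ρ u + σ u - 1) =
      (ρ t + σ t - 1) + ∑ u ∈ S, (ρ u + σ u - 1) := Finset.sum_insert htS
  refine ((h2 h1 K q hq1).2.2.2.1) _ _ _ ?_
  rw [h3 K m q hq0 B S t (fun u => q ^ ρ u) (fun u => q ^ σ u) htB hlt]
  refine h6 h1 h2 h4 h5 K q hq0 hq1 m B S (NL m S t) ρ σ (ρ t) (σ t) _ hNS
    (hcardL ▸ hLs) ?_
  intro n hnN
  have hnS : n ∈ S := hNS hnN
  have hn' : n ∉ (NL m S t).filter (fun v => n < v) := fun h =>
    lt_irrefl n (Finset.mem_filter.mp h).2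
  have hc : ((NL m S t).filter (fun v => n < v)).card + 1 ≤ aL m S t := by
    rw [← hcardL, ← Finset.card_insert_of_notMem hn']
    exact Finset.card_le_card (Finset.insert_subset hnN (Finset.filter_subset _ _))
  have hsum : ∑ u ∈ insert t S, (ρ u + σ u - 1) =
      ∑ u ∈ S, ((if u = n then ρ u + ρ t
          else if u ∈ NL m S t ∧ n < u then ρ u + 1 else ρ u) +
        (if u = n then σ u + σ t - (((NL m S t).filter (fun v => n < v)).card + 1)
          else σ u) - 1) := by
    rw [hD]
    have hp : ∀ u ∈ S, (if u = n then ρ u + ρ t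
          else if u ∈ NL m S t ∧ n < u then ρ u + 1 else ρ u) +
        (if u = n then σ u + σ t - (((NL m S t).filter (fun v => n < v)).card + 1)
          else σ u) - 1 =
        (ρ u + σ u - 1) +
          ((if u = n then (ρ t + σ t - 1 - ((NL m S t).filter (fun v => n < v)).card) else 0) +
          (if u ∈ (NL m S t).filter (fun v => n < v) then 1 else 0)) := by
      intro u hu
      have hsu : 1 ≤ σ u := hA1 u (Finset.mem_insert_of_mem hu)
      by_cases hun : u = n
      · subst hun
        rw [if_pos rfl, if_pos rfl, if_pos rfl, if_neg hn']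
        omega
      · rw [if_neg hun, if_neg hun, if_neg hun]
        by_cases huN : u ∈ NL m S t ∧ n < u
        · rw [if_pos huN, if_pos (Finset.mem_filter.mpr huN)]
          omega
        · rw [if_neg huN, if_neg (fun h => huN (Finset.mem_filter.mp h))]
          omega
    rw [Finset.sum_congr rfl hp, Finset.sum_add_distrib, Finset.sum_add_distrib,
      Finset.sum_ite_eq' S n, if_pos hnS]
    have hNN : ∑ u ∈ S, (if u ∈ (NL m S t).filter (fun v => n < v) then 1 else 0) =
        ((NL m S t).filter (fun v => n < v)).card := by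
      rw [Finset.sum_ite_mem, Finset.inter_eq_right.mpr ((Finset.filter_subset _ _).trans hNS),
        Finset.sum_const, smul_eq_mul, mul_one]
    rw [hNN]
    omega
  rw [hsum]
  exact hPos K q hq0 hq1 _ _ (hKADM n hnN)

end Pool.Agent.SWK
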