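import Pool.Agent.Lib.MP_263316_co.SWK.Spec

/-!
MP_263316_co, project SWK, task KTEL (helper76): telescoping over the left neighbours of the
removed vertex.
-/

set_option autoImplicit false

namespace Pool.Agent.SWK

open Finset Pool.Agent.SWC

namespace KTELaux

variable {K : Type} [Field K]

/-- the telescoping function -/
def G (q : K) (m : ℕ → ℕ) (B S : Finset ℕ) (ρ σ : ℕ → ℕ) (r s : ℕ) (N' : Finset ℕ) : K :=
  (q ^ r - q⁻¹ ^ N'.card * q ^ s) *
    KS m q B (fun u => if u ∈ N' then q * q ^ ρ u else q ^ ρ u) (fun u => q ^ σ u) S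

theorem G_empty (q : K) (m : ℕ → ℕ) (B S : Finset ℕ) (ρ σ : ℕ → ℕ) (r s : ℕ) :
    G q m B S ρ σ r s ∅ = (q ^ r - q ^ s) * KS m q B (fun u => q ^ ρ u) (fun u => q ^ σ u) S := by
  have h : (fun u => if u ∈ (∅ : Finset ℕ) then q * q ^ ρ u else q ^ ρ u) = fun u => q ^ ρ u := by
    funext u
    rw [if_neg (Finset.notMem_empty u)]
  unfold G
  rw [h, Finset.card_empty, pow_zero, one_mul]

theorem G_step (hLIN : S_KLIN) (hT1 : S_KT1) (q : K) (hq : q ≠ 0) (m : ℕ → ℕ) (B S : Finset ℕ)
    (ρ σ : ℕ → ℕ) (r s : ℕ) (N' : Finset ℕ) (n : ℕ) (hn : n ∉ N') (hnS : n ∈ S)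
    (hs : N'.card + 1 ≤ s) :
    G q m B S ρ σ r s N' - G q m B S ρ σ r s (insert n N') = (1 - q) * KS m q B
      (fun u => q ^ (if u = n then ρ u + r else if u ∈ N' then ρ u + 1 else ρ u))
      (fun u => q ^ (if u = n then σ u + s - (N'.card + 1) else σ u)) S := by
  have h := hT1 hLIN K m q hq B S n (fun u => if u ∈ N' then q * q ^ ρ u else q ^ ρ u)
    (fun u => q ^ σ u) (q ^ r) (q⁻¹ ^ N'.card * q ^ s) (q ^ ρ n) (q ^ σ n) hnS
  have e1 : Function.update (fun u => if u ∈ N' then q * q ^ ρ u else q ^ ρ u) n (q ^ ρ n) =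
      fun u => if u ∈ N' then q * q ^ ρ u else q ^ ρ u := by
    funext u
    by_cases hu : u = n
    · rw [hu, Function.update_self, if_neg hn]
    · rw [Function.update_of_ne hu]
  have e2 : Function.update (fun u => q ^ σ u) n (q ^ σ n) = fun u => q ^ σ u := by
    funext u
    by_cases hu : u = n
    · rw [hu, Function.update_self]
    · rw [Function.update_of_ne hu]
  have e3 : Function.update (fun u => if u ∈ N' then q * q ^ ρ u else q ^ ρ u) n
      (q * q ^ ρ n) = fun u => if u ∈ insert n N' then q * q ^ ρ u else q ^ ρ u := by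
    funext u
    by_cases hu : u = n
    · rw [hu, Function.update_self, if_pos (Finset.mem_insert_self n N')]
    · rw [Function.update_of_ne hu]
      by_cases h' : u ∈ N'
      · rw [if_pos h', if_pos (Finset.mem_insert_of_mem h')]
      · rw [if_neg h', if_neg (fun h'' => (Finset.mem_insert.mp h'').elim hu h')]
  have e4 : Function.update (fun u => if u ∈ N' then q * q ^ ρ u else q ^ ρ u) n
      (q ^ r * q ^ ρ n) =
      fun u => q ^ (if u = n then ρ u + r else if u ∈ N' then ρ u + 1 else ρ u) := by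
    funext u
    by_cases hu : u = n
    · rw [hu, Function.update_self, if_pos rfl, ← pow_add, add_comm]
    · rw [Function.update_of_ne hu, if_neg hu]
      by_cases h' : u ∈ N'
      · rw [if_pos h', if_pos h', pow_succ, mul_comm]
      · rw [if_neg h', if_neg h']
  have e5 : Function.update (fun u => q ^ σ u) n (q⁻¹ * (q⁻¹ ^ N'.card * q ^ s) * q ^ σ n) =
      fun u => q ^ (if u = n then σ u + s - (N'.card + 1) else σ u) := by
    funext u
    by_cases hu : u = n
    · rw [hu, Function.update_self, if_pos rfl]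
      have hk : σ n + s - (N'.card + 1) + (N'.card + 1) = σ n + s := by omega
      have hp : q ^ (N'.card + 1) ≠ 0 := pow_ne_zero _ hq
      apply mul_right_cancel₀ hp
      rw [← pow_add, hk, pow_add q (σ n) s, pow_succ q N'.card]
      have h1 : q⁻¹ ^ N'.card * q ^ N'.card = 1 := by
        rw [← mul_pow, inv_mul_cancel₀ hq, one_pow]
      have h2 : q⁻¹ * q = 1 := inv_mul_cancel₀ hq
      calc q⁻¹ * (q⁻¹ ^ N'.card * q ^ s) * q ^ σ n * (q ^ N'.card * q)
          = (q⁻¹ * q) * (q⁻¹ ^ N'.card * q ^ N'.card) * (q ^ σ n * q ^ s) := by ring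
        _ = q ^ σ n * q ^ s := by rw [h1, h2, one_mul, one_mul]
    · rw [Function.update_of_ne hu, if_neg hu]
  rw [e1, e2, e3, e4, e5] at h
  rw [← h]
  unfold G
  rw [Finset.card_insert_of_notMem hn, pow_succ]
  ring

end KTELaux

open KTELaux in
/-- **KTEL** -/
theorem tKTEL : S_KTEL := by
  intro hPU hPKA hLIN hT1 K _ q hq hq1 m B S N ρ σ r s D hNS hNs H
  obtain ⟨p1, p2, -, -, p5⟩ := hPKA hPU K q hq1
  have key : ∀ N' : Finset ℕ, N' ⊆ N →
      PK q (B.card + 1) D (G q m B S ρ σ r s ∅ - G q m B S ρ σ r s N') := by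
    intro N'
    induction N' using Finset.induction_on with
    | empty =>
      intro _
      rw [sub_self]
      exact p1 _ _
    | insert n N' hn ih =>
      intro hsub
      have hnN : n ∈ N := hsub (Finset.mem_insert_self n N')
      have hN' : N' ⊆ N := fun u hu => hsub (Finset.mem_insert_of_mem hu)
      have hc : N'.card + 1 ≤ s := by
        have := Finset.card_le_card hsub
        rw [Finset.card_insert_of_notMem hn] at this
        omega
      have e : G q m B S ρ σ r s ∅ - G q m B S ρ σ r s (insert n N') =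
          (G q m B S ρ σ r s ∅ - G q m B S ρ σ r s N') +
            (G q m B S ρ σ r s N' - G q m B S ρ σ r s (insert n N')) := by ring
      rw [e, G_step hLIN hT1 q hq m B S ρ σ r s N' n hn (hNS hnN) hc]
      exact p2 _ _ _ _ (ih hN') (p5 _ _ _ (H N' hN' n (Finset.mem_sdiff.mpr ⟨hnN, hn⟩)))
  have := key N (Finset.Subset.refl N)
  rw [G_empty] at this
  exact this

end Pool.Agent.SWK
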