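import Pool.Agent.Lib.MP_263316_co.SWK.SpecE
import Pool.Agent.Lib.MP_263316_co.SWK.KTEL

/-!
MP_263316_co, project SWK, task KETL (helper40): telescoping over the left neighbours of the
removed vertex, from the last one to the first one.
-/

set_option autoImplicit false

namespace Pool.Agent.SWK

open Finset Pool.Agent.SWC

namespace KETLaux

private theorem filter_step (N : Finset ℕ) (l : ℕ) (hl : l ∈ N) :
    N.filter (fun v => l ≤ v) = insert l (N.filter (fun v => l < v)) := by
  ext v
  rw [Finset.mem_filter, Finset.mem_insert, Finset.mem_filter]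
  constructor
  · rintro ⟨h1, h2⟩
    rcases Nat.eq_or_lt_of_le h2 with h | h
    · exact Or.inl h.symm
    · exact Or.inr ⟨h1, h⟩
  · rintro (h | ⟨h1, h2⟩)
    · rw [h]; exact ⟨hl, le_refl l⟩
    · exact ⟨h1, h2.le⟩

private theorem filter_skip (N : Finset ℕ) (l : ℕ) (hl : l ∉ N) :
    N.filter (fun v => l ≤ v) = N.filter (fun v => l + 1 ≤ v) := by
  refine Finset.filter_congr ?_
  intro v hv
  have h1 : v ≠ l := fun h => hl (h ▸ hv)
  constructor
  · intro h2; omega
  · intro h2; omega

private theorem filter_large (N : Finset ℕ) : N.filter (fun v => N.sup id + 1 ≤ v) = ∅ := by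
  refine Finset.filter_eq_empty_iff.2 ?_
  intro v hv
  have : v ≤ N.sup id := Finset.le_sup (f := id) hv
  omega

private theorem filter_zero (N : Finset ℕ) : N.filter (fun v => 0 ≤ v) = N :=
  Finset.filter_true_of_mem fun v _ => Nat.zero_le v

end KETLaux

open KETLaux KTELaux in
/-- **KETL** -/
theorem tKETL : S_KETL := by
  intro hPU hPKA hLIN hT1 K _ q hq hq1 m B S N ρ σ r s D hNS hNs H
  obtain ⟨p1, p2, -, -, p5⟩ := hPKA hPU K q hq1
  have key : ∀ j l : ℕ, l + j = N.sup id + 1 →
      PK q (B.card + 1) D
        (G q m B S ρ σ r s ∅ - G q m B S ρ σ r s (N.filter (fun v => l ≤ v))) := by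
    intro j
    induction j with
    | zero =>
      intro l hl
      rw [Nat.add_zero] at hl
      rw [hl, filter_large, sub_self]
      exact p1 _ _
    | succ j ih =>
      intro l hl
      have ih1 := ih (l + 1) (by omega)
      by_cases hlN : l ∈ N
      · have e0 : N.filter (fun v => l + 1 ≤ v) = N.filter (fun v => l < v) := rfl
        rw [e0] at ih1
        have hn : l ∉ N.filter (fun v => l < v) := fun h =>
          lt_irrefl _ (Finset.mem_filter.1 h).2
        have hc : (N.filter (fun v => l < v)).card + 1 ≤ s := by
          have h1 : (insert l (N.filter (fun v => l < v))).card ≤ N.card := by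
            refine Finset.card_le_card ?_
            intro v hv
            rcases Finset.mem_insert.1 hv with h | h
            · rw [h]; exact hlN
            · exact (Finset.mem_filter.1 h).1
          rw [Finset.card_insert_of_notMem hn] at h1
          exact h1.trans hNs
        have hst := G_step hLIN hT1 q hq m B S ρ σ r s (N.filter (fun v => l < v)) l hn
          (hNS hlN) hc
        have e1 : (fun u => q ^ (if u = l then ρ u + r else
              if u ∈ N.filter (fun v => l < v) then ρ u + 1 else ρ u)) =
            fun u => q ^ (if u = l then ρ u + r else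
              if u ∈ N ∧ l < u then ρ u + 1 else ρ u) := by
          funext u
          by_cases h1 : u = l
          · rw [if_pos h1, if_pos h1]
          · rw [if_neg h1, if_neg h1]
            by_cases h2 : u ∈ N ∧ l < u
            · rw [if_pos h2, if_pos (Finset.mem_filter.2 h2)]
            · rw [if_neg h2, if_neg (fun h => h2 (Finset.mem_filter.1 h))]
        rw [e1] at hst
        have e : G q m B S ρ σ r s ∅ -
            G q m B S ρ σ r s (insert l (N.filter (fun v => l < v))) =
            (G q m B S ρ σ r s ∅ - G q m B S ρ σ r s (N.filter (fun v => l < v))) +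
            (G q m B S ρ σ r s (N.filter (fun v => l < v)) -
              G q m B S ρ σ r s (insert l (N.filter (fun v => l < v)))) := by ring
        rw [filter_step N l hlN, e, hst]
        exact p2 _ _ _ _ ih1 (p5 _ _ _ (H l hlN))
      · rw [filter_skip N l hlN]
        exact ih1
  have h0 := key (N.sup id + 1) 0 (Nat.zero_add _)
  rw [filter_zero, G_empty] at h0
  exact h0

end Pool.Agent.SWK
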