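import Pool.Agent.Lib.MP_263316_co.SWK.Spec

set_option autoImplicit false

namespace Pool.Agent.SWK

open Finset Pool.Agent.SWC

private theorem KLIN_in {K : Type} [Field K] (P : Finset ℕ) (f : ℕ → K) (u0 : ℕ) (h : u0 ∈ P) (α : K) :
    ∏ u ∈ P, Function.update f u0 α u = α * ∏ u ∈ P.erase u0, f u := by
  rw [← Finset.mul_prod_erase P _ h, Function.update_self]
  refine congrArg (fun z => α * z) (Finset.prod_congr rfl fun u hu => ?_)
  rw [Function.update_of_ne (Finset.ne_of_mem_erase hu)]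

private theorem KLIN_out {K : Type} [Field K] (P : Finset ℕ) (f : ℕ → K) (u0 : ℕ) (h : u0 ∉ P) (α : K) :
    ∏ u ∈ P, Function.update f u0 α u = ∏ u ∈ P, f u := by
  refine Finset.prod_congr rfl fun u hu => ?_
  rw [Function.update_of_ne]
  rintro rfl
  exact h hu

theorem tKLIN : S_KLIN := by
  intro K _ m q B S u0 a b hu
  refine ⟨KS m q B (Function.update a u0 1) (Function.update b u0 0) S,
    KS m q B (Function.update a u0 0) (Function.update b u0 1) S, fun α β => ?_⟩
  unfold KS
  rw [Finset.mul_sum, Finset.mul_sum, ← Finset.sum_add_distrib]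
  refine Finset.sum_congr rfl fun P _ => ?_
  by_cases h : u0 ∈ P
  · have h2 : u0 ∉ S \ P := fun h3 => (Finset.mem_sdiff.1 h3).2 h
    simp only [KLIN_in P b u0 h, KLIN_out (S \ P) a u0 h2]
    ring
  · have h2 : u0 ∈ S \ P := Finset.mem_sdiff.2 ⟨hu, h⟩
    simp only [KLIN_out P b u0 h, KLIN_in (S \ P) a u0 h2]
    ring

end Pool.Agent.SWK
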