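import Pool.Agent.Lib.MP_263316_co.SWK.Spec

/-!
MP_263316_co, project SWK: base of the positivity induction.
-/

set_option autoImplicit false

namespace Pool.Agent.SWK

open Finset Pool.Agent.SWC

namespace KP0aux

/-- The product over an arbitrary finite set. -/
theorem prod {K : Type} [Field K] {q : K}
    (h3 : ∀ (b d i j D : ℕ) (y : K), PK q b d y → i ≤ j → i + j + d = D + 1 →
      PK q (b + 1) D ((q ^ i - q ^ j) * y)) (ρ σ : ℕ → ℕ) (B : Finset ℕ)
    (h1 : ∀ u ∈ B, ρ u ≤ σ u) (h2 : ∀ u ∈ B, 1 ≤ σ u) :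
    PK q B.card (∑ u ∈ B, (ρ u + σ u - 1)) (∏ u ∈ B, (q ^ ρ u - q ^ σ u)) := by
  classical
  induction B using Finset.induction_on with
  | empty =>
    refine ⟨1, ?_, by simp⟩
    refine AddSubmonoid.subset_closure ⟨0, 1, rfl, ?_⟩
    simp [qn]
  | insert a s ha ih =>
    have h4 := ih (fun u hu => h1 u (mem_insert_of_mem hu)) fun u hu => h2 u (mem_insert_of_mem hu)
    have h5 := h1 a (mem_insert_self a s)
    have h6 := h2 a (mem_insert_self a s)
    rw [card_insert_of_notMem ha, prod_insert ha]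
    refine h3 _ _ _ _ _ _ h4 h5 ?_
    rw [sum_insert ha]
    omega

end KP0aux

/-- Base of the positivity induction. -/
theorem tKP0 : S_KP0 := by
  intro hmul hPKA hKB m B K _ q _ hq1 ρ σ hAdm
  rw [hKB]
  obtain ⟨-, -, h3, -, -⟩ := hPKA hmul K q hq1
  refine KP0aux.prod h3 ρ σ B (fun u hu => ?_) hAdm.1
  have := hAdm.2.2 u hu
  omega

end Pool.Agent.SWK

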