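import Pool.Agent.Lib.MP_263316_co.SWK.Spec

/-!
# MP_263316_co, SWK: module KT1 (helper13)
-/

set_option autoImplicit false

namespace Pool.Agent.SWK

open Finset Pool.Agent.SWC

theorem tKT1 : S_KT1 := by
  intro hK K _ m q hq B S u0 a b α β y z hu
  obtain ⟨A, A', h⟩ := hK K m q B S u0 a b hu
  rw [h, h, h]
  have h1 : q⁻¹ * q = 1 := inv_mul_cancel₀ hq
  linear_combination (β * y * A + β * z * A') * h1

end Pool.Agent.SWK
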