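import Pool.Agent.Lib.MP_263316_co.SWK.Spec

/-!
MP_263316_co, project SWK: tools for the cone predicate.
-/

set_option autoImplicit false

namespace Pool.Agent.SWK

open Finset Pool.Agent.SWC

namespace PKAaux

theorem aeval_qn {K : Type} [Field K] (q : K) (n : ℕ) :
    Polynomial.aeval q (qn (Polynomial.X : Polynomial ℤ) n) = qn q n := by
  unfold qn
  rw [map_sum]
  refine Finset.sum_congr rfl fun i _ => ?_
  rw [map_pow, Polynomial.aeval_X]

theorem qn_geom {K : Type} [Field K] (q : K) (n : ℕ) : (1 - q) * qn q n = 1 - q ^ n := by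
  unfold qn
  induction n with
  | zero => simp
  | succ n ih =>
    rw [Finset.sum_range_succ, mul_add, ih]
    ring

end PKAaux

open PKAaux in
theorem tPKA : S_PKA := by
  intro hPU K _ q hq
  have h1 : (1 : K) - q ≠ 0 := sub_ne_zero.mpr (Ne.symm hq)
  refine ⟨?_, ?_, ?_, ?_, ?_⟩
  · intro b d
    exact ⟨0, AddSubmonoid.zero_mem _, by simp⟩
  · rintro b d y z ⟨p, hp, rfl⟩ ⟨p', hp', rfl⟩
    exact ⟨p + p', AddSubmonoid.add_mem _ hp hp', by rw [map_add]; ring⟩
  · rintro b d i j D y ⟨p, hp, rfl⟩ hij hD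
    rcases Nat.eq_or_lt_of_le hij with h | h
    · subst h
      exact ⟨0, AddSubmonoid.zero_mem _, by simp⟩
    · obtain ⟨k, rfl⟩ : ∃ k, j = i + (k + 1) := ⟨j - i - 1, by omega⟩
      refine ⟨p * (Polynomial.X ^ i * qn (Polynomial.X : Polynomial ℤ) (k + 1)), ?_, ?_⟩
      · have h2 := hPU d (2 * i + k) p _ hp
          (AddSubmonoid.subset_closure ⟨i, k + 1, by omega, rfl⟩)
        have h3 : d + (2 * i + k) = D := by omega
        rw [h3] at h2
        exact h2
      · rw [map_mul, map_mul, map_pow, Polynomial.aeval_X, aeval_qn]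
        have h4 := qn_geom q (k + 1)
        calc (q ^ i - q ^ (i + (k + 1))) * ((1 - q) ^ b * Polynomial.aeval q p)
            = (1 - q) ^ b * Polynomial.aeval q p * q ^ i * (1 - q ^ (k + 1)) := by
              rw [pow_add q i (k + 1)]; ring
          _ = (1 - q) ^ b * Polynomial.aeval q p * q ^ i * ((1 - q) * qn q (k + 1)) := by
              rw [h4]
          _ = _ := by rw [pow_succ]; ring
  · rintro b d y ⟨p, hp, he⟩
    refine ⟨p, hp, ?_⟩
    rw [pow_succ] at he
    have h5 : (1 - q) * y = (1 - q) * ((1 - q) ^ b * Polynomial.aeval q p) := by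
      rw [he]; ring
    exact mul_left_cancel₀ h1 h5
  · rintro b d y ⟨p, hp, rfl⟩
    exact ⟨p, hp, by rw [pow_succ]; ring⟩

end Pool.Agent.SWK
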