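import Pool.Agent.Lib.MP_263316_co.SWK.Spec

/-! MP_263316_co, project SWK, task RELB: the block condition for relabelled graphs. -/

set_option autoImplicit false

namespace Pool.Agent.SWK

open Finset Pool.Agent.SWC

namespace RELBaux

private lemma mem_im (f : ℕ → ℕ) (l i : ℕ) (h : i < l) : f i ∈ (range l).image f :=
  mem_image.2 ⟨i, mem_range.2 h, rfl⟩

end RELBaux

theorem tRELB : S_RELB := by
  intro m m' f l hf hm hBC a b hab hbl hcon
  have hm2 : ∀ i j : ℕ, i < j → j < l → (m' i < j ↔ m (f i) < f j) := by
    intro i j hij hj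
    have h := hm i j hij hj
    constructor
    · intro h1
      by_contra h2
      exact absurd (h.2 (not_lt.1 h2)) (not_le.2 h1)
    · intro h1
      by_contra h2
      exact absurd (h.1 (not_lt.1 h2)) (not_le.2 h1)
  have key := hBC (f a) (RELBaux.mem_im f l a (hab.trans hbl)) (f b) (RELBaux.mem_im f l b hbl)
    (hf hab) ?_
  · rcases key with key | key
    · left
      intro u v w hau huv hvw hwb h
      have hwl : w < l := lt_of_le_of_lt hwb hbl
      have hvl : v < l := hvw.trans hwl
      exact key (f u) (RELBaux.mem_im f l u (huv.trans hvl)) (f v) (RELBaux.mem_im f l v hvl)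
        (f w) (RELBaux.mem_im f l w hwl) (hf.monotone hau) (hf huv) (hf hvw) (hf.monotone hwb)
        ⟨(hm2 u v huv hvl).1 h.1, (hm2 v w hvw hwl).1 h.2⟩
    · right
      intro u v w y z hau huv hvw hwy hyz hzb h
      have hzl : z < l := lt_of_le_of_lt hzb hbl
      have hyl : y < l := hyz.trans hzl
      have hwl : w < l := hwy.trans hyl
      have hvl : v < l := hvw.trans hwl
      have hul : u < l := huv.trans hvl
      exact key (f u) (RELBaux.mem_im f l u hul) (f v) (RELBaux.mem_im f l v hvl)
        (f w) (RELBaux.mem_im f l w hwl) (f y) (RELBaux.mem_im f l y hyl)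
        (f z) (RELBaux.mem_im f l z hzl) (hf.monotone hau) (hf huv) (hf hvw) (hf hwy) (hf hyz)
        (hf.monotone hzb)
        ⟨(hm u y (by omega) hyl).1 h.1, (hm v z (by omega) hzl).1 h.2.1,
          (hm2 u z (by omega) hzl).1 h.2.2⟩
  · intro i hi j hj k hk hai hij hjk hkb hone
    obtain ⟨i', hi', rfl⟩ := mem_image.1 hi
    obtain ⟨j', hj', rfl⟩ := mem_image.1 hj
    obtain ⟨k', hk', rfl⟩ := mem_image.1 hk
    rw [mem_range] at hi' hj' hk'
    have hai' : a ≤ i' := hf.le_iff_le.1 hai
    have hij' : i' < j' := hf.lt_iff_lt.1 hij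
    have hjk' : j' < k' := hf.lt_iff_lt.1 hjk
    have hkb' : k' ≤ b := hf.le_iff_le.1 hkb
    have h1 : i' + 1 = j' := by
      have := hone (f (i' + 1)) (RELBaux.mem_im f l _ (by omega)) (hf (by omega)) (hf (by omega))
      exact hf.injective this
    have h2 : k' = i' + 2 := by
      by_contra hne
      have := hone (f (i' + 2)) (RELBaux.mem_im f l _ (by omega)) (hf (by omega)) (hf (by omega))
      have := hf.injective this
      omega
    subst h2
    exact (hm i' (i' + 2) (by omega) hk').1 (hcon i' hai' (by omega))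

end Pool.Agent.SWK
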