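import Pool.Agent.Lib.MP_263316_co.SWK.Spec

/-!
# Enumeration of a finite set by a strictly increasing function (RELE)
-/

set_option autoImplicit false

namespace Pool.Agent.SWK

open Finset Pool.Agent.SWC

theorem tRELE : S_RELE := by
  intro U
  let g : Fin U.card ↪o ℕ := U.orderEmbOfFin rfl
  have hg : ∀ i, g i ∈ U := fun i => Finset.orderEmbOfFin_mem U rfl i
  have hr : Set.range g = (U : Set ℕ) := Finset.range_orderEmbOfFin U rfl
  refine ⟨fun i => if h : i < U.card then g ⟨i, h⟩ else U.sup id + 1 + i, ?_, ?_⟩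
  · refine strictMono_nat_of_lt_succ fun n => ?_
    by_cases h1 : n + 1 < U.card
    · have h0 : n < U.card := by omega
      rw [dif_pos h1, dif_pos h0]
      exact g.strictMono (Fin.mk_lt_mk.2 (Nat.lt_succ_self n))
    · rw [dif_neg h1]
      by_cases h0 : n < U.card
      · rw [dif_pos h0]
        have h2 : g ⟨n, h0⟩ ≤ U.sup id := Finset.le_sup (f := id) (hg ⟨n, h0⟩)
        omega
      · rw [dif_neg h0]
        omega
  · ext x
    rw [Finset.mem_image]
    constructor
    · intro hx
      have h1 : x ∈ Set.range g := by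
        rw [hr]
        exact hx
      obtain ⟨i, hi⟩ := h1
      refine ⟨i, Finset.mem_range.2 i.2, ?_⟩
      rw [dif_pos i.2]
      exact hi
    · rintro ⟨i, hi, rfl⟩
      rw [dif_pos (Finset.mem_range.1 hi)]
      exact hg _

end Pool.Agent.SWK
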