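import Pool.Agent.Lib.MP_263316_co.SWK.Spec

/-!
TASK RELm of project SWK: relabelling of the bounds.
-/

set_option autoImplicit false

namespace Pool.Agent.SWK

open Finset Pool.Agent.SWC

/-- The relabelled bounds. -/
theorem tRELm : S_RELm := by
  intro m hm f hf l
  refine ⟨fun i => ((range l).filter fun j => f j ≤ m (f i)).sup id, ?_, ?_⟩
  · intro i i' h
    refine Finset.sup_mono fun j hj => ?_
    rw [Finset.mem_filter] at hj ⊢
    exact ⟨hj.1, hj.2.trans (hm (hf.monotone h))⟩
  · intro i j hij hjl
    constructor
    · intro h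
      by_contra hcon
      rw [not_le] at hcon
      have hj0 : (⊥ : ℕ) < j := lt_of_le_of_lt (Nat.zero_le i) hij
      have h1 : ((range l).filter fun j => f j ≤ m (f i)).sup id < j := by
        rw [Finset.sup_lt_iff hj0]
        intro s hs
        rw [Finset.mem_filter] at hs
        exact hf.lt_iff_lt.1 (lt_of_le_of_lt hs.2 hcon)
      exact absurd h (not_le.2 h1)
    · intro h
      exact Finset.le_sup (f := id) (Finset.mem_filter.2 ⟨Finset.mem_range.2 hjl, h⟩)

end Pool.Agent.SWK
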