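import Pool.Agent.Lib.MP_263316_co.SWK.Spec

/-!
MP_263316_co, project SWK: task REVC (reversing the variables fixes the cone).
-/

set_option autoImplicit false

namespace Pool.Agent.SWK

open Finset Pool.Agent.SWC

namespace REVCaux

/-- reversing the variables -/
private noncomputable def φ (N : ℕ) : AN N →ₐ[Polynomial ℤ] AN N :=
  MvPolynomial.rename (Fin.revPerm : Equiv.Perm (Fin N))

private theorem φ_es (N d : ℕ) : φ N (es (xx N) d) = es (xx N) d :=
  MvPolynomial.rename_esymm (Fin N) (Polynomial ℤ) d (Fin.revPerm : Equiv.Perm (Fin N))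

private theorem φ_xx (N : ℕ) (k : Fin N) : φ N (xx N k) = xx N (Fin.rev k) := by
  rw [φ, xx, MvPolynomial.rename_X]
  rfl

private theorem φ_qq (N : ℕ) : φ N (qq N) = qq N := by
  rw [φ, qq, MvPolynomial.rename_C]

private theorem φ_cone (N n d : ℕ) (f : AN N) (hf : f ∈ Cone N n d) : φ N f = f := by
  induction hf using AddSubmonoid.closure_induction with
  | mem f hf =>
    obtain ⟨l, p, -, -, rfl⟩ := hf
    rw [map_mul, map_multiset_prod, Multiset.map_map]
    congr 1
    · rw [φ, MvPolynomial.rename_C]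
    · congr 1
      exact Multiset.map_congr rfl fun k _ => φ_es N k
  | zero => exact map_zero _
  | add f g _ _ hf hg => rw [map_add, hf, hg]

private theorem φ_XX (N : ℕ) (m : ℕ → ℕ) (x : Fin N → AN N) (V : Finset ℕ) :
    φ N (XX m (qq N) x V) = XX m (qq N) (fun k => φ N (x k)) V := by
  have h := Z_map (φ N : AN N →+* AN N) m (qq N) V (fun _ k => x k)
  unfold XX
  rw [RingHom.coe_coe] at h
  rw [h, φ_qq]

end REVCaux

open REVCaux in
theorem tREVC : S_REVC := by
  intro N n d m' V
  have h1 : φ N (XX m' (qq N) (xx N) V) = XX m' (qq N) (fun k => xx N (Fin.rev k)) V := by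
    rw [φ_XX]
    simp only [φ_xx]
  have h2 : φ N (XX m' (qq N) (fun k => xx N (Fin.rev k)) V) = XX m' (qq N) (xx N) V := by
    rw [φ_XX]
    simp only [φ_xx, Fin.rev_rev]
  constructor
  · intro h
    rw [← h1, φ_cone N n d _ h]
    exact h
  · intro h
    rw [← h2, φ_cone N n d _ h]
    exact h

end Pool.Agent.SWK
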