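import Pool.Agent.Lib.MP_263316_co.SWK.Spec

/-!
Project SWK (MP_263316_co), part REVX: the reversed graph.
-/

set_option autoImplicit false

namespace Pool.Agent.SWK

open Finset Pool.Agent.SWC

namespace REVXaux

/-- adjacency is reversed -/
theorem adj {m m' : ℕ → ℕ} {M : ℕ}
    (h : ∀ u v : ℕ, u < v → v ≤ M → (v ≤ m' u ↔ M - u ≤ m (M - v)))
    {a b : ℕ} (ha : a ≤ M) (hb : b ≤ M) :
    (M - b < M - a ∧ M - a ≤ m' (M - b)) ↔ (a < b ∧ b ≤ m a) := by
  constructor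
  · rintro ⟨h1, h2⟩
    have hab : a < b := by omega
    refine ⟨hab, ?_⟩
    have h3 := (h (M - b) (M - a) h1 (Nat.sub_le _ _)).1 h2
    rwa [Nat.sub_sub_self hb, Nat.sub_sub_self ha] at h3
  · rintro ⟨h1, h2⟩
    have hab : M - b < M - a := by omega
    refine ⟨hab, ?_⟩
    refine (h (M - b) (M - a) hab (Nat.sub_le _ _)).2 ?_
    rwa [Nat.sub_sub_self hb, Nat.sub_sub_self ha]

theorem pw_rev {m m' : ℕ → ℕ} {M : ℕ}
    (h : ∀ u v : ℕ, u < v → v ≤ M → (v ≤ m' u ↔ M - u ≤ m (M - v)))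
    {R : Type} [CommRing R] {N : ℕ} (q : R) {a b : ℕ} (ha : a ≤ M) (hb : b ≤ M)
    (k k' : Fin N) :
    pw m' q (M - a) (Fin.rev k) (M - b) (Fin.rev k') = pw m q a k b k' := by
  have e1 := adj h ha hb
  have e2 := adj h hb ha
  unfold pw
  by_cases c1 : a < b ∧ b ≤ m a
  · have c2 : ¬ (M - a < M - b ∧ M - b ≤ m' (M - a)) := by
      intro c; have := c.1; have := c1.1; omega
    rw [if_neg c2, if_pos (e1.2 c1), if_pos c1]
    simp only [Fin.rev_inj, Fin.rev_lt_rev]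
  · have c1' : ¬ (M - b < M - a ∧ M - a ≤ m' (M - b)) := fun c => c1 (e1.1 c)
    by_cases c3 : b < a ∧ a ≤ m b
    · rw [if_pos (e2.2 c3), if_neg c1, if_pos c3]
      simp only [Fin.rev_inj, Fin.rev_lt_rev]
    · have c3' : ¬ (M - a < M - b ∧ M - b ≤ m' (M - a)) := fun c => c3 (e2.1 c)
      rw [if_neg c3', if_neg c1', if_neg c1, if_neg c3]

theorem inj {M : ℕ} {a b : ℕ} (ha : a ≤ M) (hb : b ≤ M) (h : M - a = M - b) : a = b := by omega

theorem Z_rev {m m' : ℕ → ℕ} {M : ℕ}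
    (h : ∀ u v : ℕ, u < v → v ≤ M → (v ≤ m' u ↔ M - u ≤ m (M - v)))
    {R : Type} [CommRing R] {N : ℕ} (q : R) (U : Finset ℕ) :
    (∀ u ∈ U, u ≤ M) → ∀ w : ℕ → Fin N → R,
    Z m' q (U.image (fun u => M - u)) (fun v k => w (M - v) (Fin.rev k)) = Z m q U w := by
  induction U using Finset.induction_on with
  | empty => intro _ w; simp
  | insert v U hv ih =>
    intro hU w
    have hvM : v ≤ M := hU v (Finset.mem_insert_self v U)
    have hUM : ∀ u ∈ U, u ≤ M := fun u hu => hU u (Finset.mem_insert_of_mem hu)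
    have hv' : M - v ∉ U.image (fun u => M - u) := by
      intro hm
      obtain ⟨u, hu, he⟩ := Finset.mem_image.1 hm
      exact hv (inj hvM (hUM u hu) he.symm ▸ hu)
    rw [Finset.image_insert, Z_insert hv', Z_insert hv]
    rw [← Equiv.sum_comp Fin.revPerm]
    refine Finset.sum_congr rfl fun k _ => ?_
    simp only [Fin.revPerm_apply, Fin.rev_rev, Nat.sub_sub_self hvM]
    congr 1
    rw [← ih hUM (fun u k' => w u k' * pw m q v k u k')]
    refine Z_congr fun x hx k' => ?_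
    obtain ⟨u, hu, he⟩ := Finset.mem_image.1 hx
    have huM := hUM u hu
    subst he
    simp only [Nat.sub_sub_self huM]
    congr 1
    have := pw_rev h q hvM huM k (Fin.rev k')
    rwa [Fin.rev_rev] at this

theorem aL_rev {m m' : ℕ → ℕ} {M : ℕ}
    (h : ∀ u v : ℕ, u < v → v ≤ M → (v ≤ m' u ↔ M - u ≤ m (M - v)))
    {V : Finset ℕ} (hV : ∀ u ∈ V, u ≤ M) {u : ℕ} (hu : u ≤ M) :
    aL m' (V.image (fun u => M - u)) (M - u) = aR m V u := by
  unfold aL aR
  have : (V.image (fun u => M - u)).filter (fun x => x < M - u ∧ M - u ≤ m' x) =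
      (V.filter (fun x => u < x ∧ x ≤ m u)).image (fun u => M - u) := by
    ext x
    simp only [Finset.mem_filter, Finset.mem_image]
    constructor
    · rintro ⟨⟨y, hy, rfl⟩, hx⟩
      exact ⟨y, ⟨hy, (adj h hu (hV y hy)).1 hx⟩, rfl⟩
    · rintro ⟨y, ⟨hy, hx⟩, rfl⟩
      exact ⟨⟨y, hy, rfl⟩, (adj h hu (hV y hy)).2 hx⟩
  rw [this]
  refine Finset.card_image_of_injOn ?_
  intro a ha b hb hab
  have ha' := (Finset.mem_filter.1 (Finset.mem_coe.1 ha)).1
  have hb' := (Finset.mem_filter.1 (Finset.mem_coe.1 hb)).1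
  exact inj (hV a ha') (hV b hb') hab

theorem aR_rev {m m' : ℕ → ℕ} {M : ℕ}
    (h : ∀ u v : ℕ, u < v → v ≤ M → (v ≤ m' u ↔ M - u ≤ m (M - v)))
    {V : Finset ℕ} (hV : ∀ u ∈ V, u ≤ M) {u : ℕ} (hu : u ≤ M) :
    aR m' (V.image (fun u => M - u)) (M - u) = aL m V u := by
  unfold aL aR
  have : (V.image (fun u => M - u)).filter (fun x => M - u < x ∧ x ≤ m' (M - u)) =
      (V.filter (fun x => x < u ∧ u ≤ m x)).image (fun u => M - u) := by
    ext x
    simp only [Finset.mem_filter, Finset.mem_image]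
    constructor
    · rintro ⟨⟨y, hy, rfl⟩, hx⟩
      exact ⟨y, ⟨hy, (adj h (hV y hy) hu).1 hx⟩, rfl⟩
    · rintro ⟨y, ⟨hy, hx⟩, rfl⟩
      exact ⟨⟨y, hy, rfl⟩, (adj h (hV y hy) hu).2 hx⟩
  rw [this]
  refine Finset.card_image_of_injOn ?_
  intro a ha b hb hab
  have ha' := (Finset.mem_filter.1 (Finset.mem_coe.1 ha)).1
  have hb' := (Finset.mem_filter.1 (Finset.mem_coe.1 hb)).1
  exact inj (hV a ha') (hV b hb') hab

/-- both sums count the edges -/
theorem sum_aL_eq_sum_aR (m : ℕ → ℕ) (U : Finset ℕ) :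
    ∑ v ∈ U, aL m U v = ∑ v ∈ U, aR m U v := by
  unfold aL aR
  simp only [Finset.card_filter]
  exact Finset.sum_comm

end REVXaux

open REVXaux

theorem tREVX : S_REVX := by
  intro m m' M h U hU
  refine ⟨?_, ?_, ?_⟩
  · intro R _ N q x
    unfold XX
    exact Z_rev h q U hU (fun _ k => x k)
  · intro V hV u hu
    exact ⟨aL_rev h (fun y hy => hU y (hV hy)) (hU u hu),
      aR_rev h (fun y hy => hU y (hV hy)) (hU u hu)⟩
  · unfold eE
    rw [Finset.sum_image (fun a ha b hb hab => inj (hU a ha) (hU b hb) hab)]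
    rw [sum_aL_eq_sum_aR m U]
    exact Finset.sum_congr rfl fun u hu => aL_rev h hU (hU u hu)

end Pool.Agent.SWK
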