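import Pool.Agent.Lib.MP_263316_co.SWK.Spec

set_option autoImplicit false

namespace Pool.Agent.SWK

open Finset Pool.Agent.SWC

theorem tREVm : S_REVm := by
  intro m hm M
  refine ⟨fun u => ((range (M + 1)).filter fun v => M - u ≤ m (M - v)).sup id, ?_, ?_⟩
  · intro u u' huu
    refine Finset.sup_mono ?_
    intro v hv
    rw [mem_filter] at hv ⊢
    exact ⟨hv.1, (Nat.sub_le_sub_left huu M).trans hv.2⟩
  · intro u v huv hvM
    have hv0 : 0 < v := lt_of_le_of_lt (Nat.zero_le u) huv
    constructor
    · intro h
      have h' : v ≤ ((range (M + 1)).filter fun v => M - u ≤ m (M - v)).sup id := h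
      rw [Finset.le_sup_iff (show (⊥ : ℕ) < v from hv0)] at h'
      obtain ⟨w, hw, hvw⟩ := h'
      rw [mem_filter] at hw
      exact hw.2.trans (hm (Nat.sub_le_sub_left hvw M))
    · intro h
      change v ≤ ((range (M + 1)).filter fun v => M - u ≤ m (M - v)).sup id
      have hmem : v ∈ (range (M + 1)).filter fun v => M - u ≤ m (M - v) := by
        rw [mem_filter, mem_range]
        exact ⟨Nat.lt_succ_of_le hvM, h⟩
      exact Finset.le_sup (f := id) hmem

end Pool.Agent.SWK
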