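import Pool.Agent.Lib.MP_263316_co.SWK.Spec

/-!
MP_263316_co, project SWK: the pairs (stable set outside the clique, cluster).
-/

set_option autoImplicit false

namespace Pool.Agent.SWK

open Finset Pool.Agent.SWC

/-- Two cluster sums together. -/
private theorem MM_add {R : Type} [CommRing R] {N : ℕ} (m : ℕ → ℕ) (q β : R) (x : Fin N → R)
    (B U : Finset ℕ) (k : ℤ) : MM m q x B U k + β * MM m q x B U (k - 1) =
      ∑ M ∈ U.powerset.filter (fun M => B ⊆ M), PiR m q B M * q ^ ea m U M *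
        (esz x (k + M.card) + β * esz x (k + M.card - 1)) * XX m q x (U \ M) := by
  unfold MM
  rw [Finset.mul_sum, ← Finset.sum_add_distrib]
  refine Finset.sum_congr rfl fun M _ => ?_
  have e : k - 1 + (M.card : ℤ) = k + M.card - 1 := by ring
  rw [e]
  ring

theorem tRM2 : S_RM2 := by
  intro hE R _ N m q α β x B U k hBU
  simp only [MM_add, Finset.mul_sum]
  rw [Finset.sum_sigma', Finset.sum_sigma']
  refine Finset.sum_bij' (fun p _ => ⟨p.2 ∪ p.1, p.1⟩) (fun p _ => ⟨p.2, p.1 \ p.2⟩)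
    ?_ ?_ ?_ ?_ ?_
  · rintro ⟨T, M⟩ h
    simp only [mem_sigma, mem_filter, mem_powerset] at h ⊢
    obtain ⟨⟨hT, hi⟩, hM, hB⟩ := h
    refine ⟨⟨union_subset (hM.trans sdiff_subset) (hT.trans sdiff_subset),
      hB.trans subset_union_left⟩, fun v hv => ?_, hi⟩
    exact mem_sdiff.2 ⟨mem_union_right _ hv, (mem_sdiff.1 (hT hv)).2⟩
  · rintro ⟨D, T⟩ h
    simp only [mem_sigma, mem_filter, mem_powerset] at h ⊢
    obtain ⟨⟨hD, hB⟩, hT, hi⟩ := h
    refine ⟨⟨hT.trans (sdiff_subset_sdiff hD (Subset.refl _)), hi⟩,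
      sdiff_subset_sdiff hD (Subset.refl _), fun v hv => ?_⟩
    exact mem_sdiff.2 ⟨hB hv, fun h2 => (mem_sdiff.1 (hT h2)).2 hv⟩
  · rintro ⟨T, M⟩ h
    simp only [mem_sigma, mem_filter, mem_powerset] at h
    obtain ⟨⟨hT, hi⟩, hM, hB⟩ := h
    have hd : Disjoint M T := disjoint_left.2 fun v hv => (mem_sdiff.1 (hM hv)).2
    simp only [union_sdiff_cancel_right hd]
  · rintro ⟨D, T⟩ h
    simp only [mem_sigma, mem_filter, mem_powerset] at h
    obtain ⟨⟨hD, hB⟩, hT, hi⟩ := h
    simp only [sdiff_union_of_subset (hT.trans sdiff_subset)]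
  · rintro ⟨T, M⟩ h
    simp only [mem_sigma, mem_filter, mem_powerset] at h
    obtain ⟨⟨hT, hi⟩, hM, hB⟩ := h
    have hd : Disjoint M T := disjoint_left.2 fun v hv => (mem_sdiff.1 (hM hv)).2
    have hex := (hE m U M T (hM.trans sdiff_subset) (hT.trans sdiff_subset) hd).2.1
    have hcard : k + ((M ∪ T).card : ℤ) - T.card = k + M.card := by
      rw [card_union_of_disjoint hd]
      push_cast
      ring
    have hcard' : k + ((M ∪ T).card : ℤ) - (T.card + 1) = k + M.card - 1 := by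
      rw [card_union_of_disjoint hd]
      push_cast
      ring
    have hU : (U \ T) \ M = U \ (M ∪ T) := by
      rw [sdiff_sdiff_left, union_comm]
      rfl
    have hpow : q ^ ea m U T * q ^ ea m (U \ T) M =
        q ^ ea m U (M ∪ T) * q ^ (∑ v ∈ T, aR m ((M ∪ T) \ T) v) := by
      rw [← pow_add, ← pow_add, hex]
    simp only []
    rw [hcard, hcard', hU, union_sdiff_cancel_right hd]
    rw [union_sdiff_cancel_right hd] at hpow
    linear_combination (α ^ T.card * PiR m q B M * (esz x (k + M.card) +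
      β * esz x (k + M.card - 1)) * XX m q x (U \ (M ∪ T))) * hpow

end Pool.Agent.SWK
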