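import Pool.Agent.Lib.MP_263316_co.SWK.Spec

set_option autoImplicit false

namespace Pool.Agent.SWK

open Finset Pool.Agent.SWC

namespace UNIaux

theorem eE_union (m : ℕ → ℕ) (A B : Finset ℕ) (h : ∀ u ∈ A, ∀ v ∈ B, u < v ∧ m u < v) :
    eE m (A ∪ B) = eE m A + eE m B := by
  have hd : Disjoint A B := by
    rw [Finset.disjoint_left]
    intro u hu hv
    exact lt_irrefl _ (h u hu u hv).1
  unfold eE
  rw [Finset.sum_union hd]
  congr 1
  · refine Finset.sum_congr rfl fun v hv => ?_
    unfold aL
    congr 1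
    ext u
    simp only [Finset.mem_filter, Finset.mem_union]
    constructor
    · rintro ⟨hu | hu, h1⟩
      · exact ⟨hu, h1⟩
      · have := (h v hv u hu).1; omega
    · rintro ⟨hu, h1⟩
      exact ⟨Or.inl hu, h1⟩
  · refine Finset.sum_congr rfl fun v hv => ?_
    unfold aL
    congr 1
    ext u
    simp only [Finset.mem_filter, Finset.mem_union]
    constructor
    · rintro ⟨hu | hu, h1⟩
      · have := (h u hu v hv).2; omega
      · exact ⟨hu, h1⟩
    · rintro ⟨hu, h1⟩
      exact ⟨Or.inr hu, h1⟩

end UNIaux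

theorem tUNI : S_UNI := by
  intro hC N m _ U V h hU hV
  have hd : Disjoint U V := by
    rw [Finset.disjoint_left]
    intro u hu hv
    exact lt_irrefl _ (h u hu u hv).1
  rw [UNIaux.eE_union m U V h, Finset.card_union_of_disjoint hd]
  have h1 : XX m (qq N) (xx N) (U ∪ V) = XX m (qq N) (xx N) U * XX m (qq N) (xx N) V := by
    unfold XX
    refine Z_union hd (fun u hu v hv => ⟨fun h2 => ?_, fun h2 => ?_⟩) _
    · have := (h u hu v hv).2
      omega
    · have := (h u hu v hv).1
      omega
  rw [h1]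
  exact hC N _ _ _ _ _ _ hU hV

end Pool.Agent.SWK
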