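import Pool.Agent.Lib.MP_263316_co.SWK.MN3
import Pool.Agent.Lib.MP_263316_co.SWK.FinE
import Pool.Agent.Lib.MP_263316_co.SWK.LREC
import Pool.Agent.Lib.MP_263316_co.SWK.LOC
import Pool.Agent.Lib.MP_263316_co.SWK.LOCF
import Pool.Agent.Lib.MP_263316_co.SWK.SPL
import Pool.Agent.Lib.MP_263316_co.SWK.ESZ
import Pool.Agent.Lib.MP_263316_co.SWK.EXC
import Pool.Agent.Lib.MP_263316_co.SWK.RM1
import Pool.Agent.Lib.MP_263316_co.SWK.RM2
import Pool.Agent.Lib.MP_263316_co.SWK.RM3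
import Pool.Agent.Lib.MP_263316_co.SWK.RM
import Pool.Agent.Lib.MP_263316_co.SWK.RR
import Pool.Agent.Lib.MP_263316_co.SWK.WT
import Pool.Agent.Lib.MP_263316_co.SWK.RRS
import Pool.Agent.Lib.MP_263316_co.SWK.KB
import Pool.Agent.Lib.MP_263316_co.SWK.KREC
import Pool.Agent.Lib.MP_263316_co.SWK.KLIN
import Pool.Agent.Lib.MP_263316_co.SWK.KT1
import Pool.Agent.Lib.MP_263316_co.SWK.KU
import Pool.Agent.Lib.MP_263316_co.SWK.KUC
import Pool.Agent.Lib.MP_263316_co.SWK.RX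
import Pool.Agent.Lib.MP_263316_co.SWK.XF
import Pool.Agent.Lib.MP_263316_co.SWK.PKA
import Pool.Agent.Lib.MP_263316_co.SWK.KP0
import Pool.Agent.Lib.MP_263316_co.SWK.KE0
import Pool.Agent.Lib.MP_263316_co.SWK.KE1
import Pool.Agent.Lib.MP_263316_co.SWK.KETL
import Pool.Agent.Lib.MP_263316_co.SWK.KADMb
import Pool.Agent.Lib.MP_263316_co.SWK.KE2
import Pool.Agent.Lib.MP_263316_co.SWK.KE
import Pool.Agent.Lib.MP_263316_co.SWK.EDK
import Pool.Agent.Lib.MP_263316_co.SWK.CONE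
import Pool.Agent.Lib.MP_263316_co.SWK.REVm
import Pool.Agent.Lib.MP_263316_co.SWK.REVX
import Pool.Agent.Lib.MP_263316_co.SWK.REVC
import Pool.Agent.Lib.MP_263316_co.SWK.CONRE
import Pool.Agent.Lib.MP_263316_co.SWK.RELm
import Pool.Agent.Lib.MP_263316_co.SWK.RELX
import Pool.Agent.Lib.MP_263316_co.SWK.RELB
import Pool.Agent.Lib.MP_263316_co.SWK.RELE
import Pool.Agent.Lib.MP_263316_co.SWK.BLKU
import Pool.Agent.Lib.MP_263316_co.SWK.UNI
import Pool.Agent.Lib.MP_263316_co.SWK.NICEE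

/-!
MP_263316_co, project SWK: assembly of all modules (strong form).
-/

set_option autoImplicit false

namespace Pool.Agent.SWK

open Pool.Agent.SWC

namespace AllE

theorem pumul : S_PUmul := Pool.Agent.SWC.All.pumul
theorem cmul : S_Cmul := Pool.Agent.SWC.All.cmul
theorem spl : S_SPL := tSPL Pool.Agent.SWC.All.cs
theorem locf : S_LOCF := tLOCF (tLOC tLREC)
theorem rm : RMc := tRM locf tRM1 tRM2 tRM3 spl tESZ tEXC
theorem rr : RRc := tRR rm tEXC
theorem ku : KUc := tKUC tKB tKREC tKU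
theorem xf : XFc := tXF spl tESZ tWT tRRS rr ku tRX
theorem ke : ∀ (m : ℕ → ℕ), Monotone m → ∀ (B S : Finset ℕ), Ini m B S → PosE m B S :=
  tKE pumul tPKA tKB tKREC tKLIN tKT1 tKP0 tKE0 tKE1 tKETL tKADMb tKE2
theorem cone : CONEc := tCONE pumul cmul xf ke tEDK
theorem final : S_FINALE := finalE (tNICEE cone cmul (tCONRE cone tREVm tREVX tREVC)
  (tBLKU tMN3 tRELm tRELX tRELB tRELE) tUNI) t_Cpart t_PUcoeff t_FUN

end AllE

end Pool.Agent.SWK
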