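import Pool.Agent.Lib.MP_263316_co.SWK.Spec

/-!
MP_263316_co, project SWK: the closure theorem (left version).
-/

set_option autoImplicit false

namespace Pool.Agent.SWK

open Finset Pool.Agent.SWC

namespace CONaux

theorem ini (m : ℕ → ℕ) (hm : Monotone m) (U : Finset ℕ) (r : ℕ) (hmin : ∀ u ∈ U, r ≤ u) :
    Ini m (NB m U r) U := by
  refine ⟨Finset.filter_subset _ _, ?_, ?_⟩
  · intro b hb u hu hub
    obtain ⟨hbU, hb⟩ := Finset.mem_filter.1 hb
    refine Finset.mem_filter.2 ⟨hu, ?_⟩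
    rcases hb with rfl | hb
    · exact absurd (hmin u hu) (not_le.2 hub)
    · exact Or.inr (le_trans hub.le hb)
  · intro u hu v hv huv
    obtain ⟨huU, -⟩ := Finset.mem_filter.1 hu
    obtain ⟨hvU, hv⟩ := Finset.mem_filter.1 hv
    rcases hv with rfl | hv
    · exact absurd (hmin u huU) (not_le.2 huv)
    · exact le_trans hv (hm (hmin u huU))

theorem aL_mono (m : ℕ → ℕ) {S U : Finset ℕ} (h : S ⊆ U) (u : ℕ) : aL m S u ≤ aL m U u :=
  Finset.card_le_card (Finset.filter_subset_filter _ h)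

theorem aR_add (m : ℕ → ℕ) {B S U : Finset ℕ} (h1 : B ⊆ S) (h2 : S ⊆ U) (u : ℕ) :
    aR m (U \ S) u + aR m (S \ B) u = aR m (U \ B) u := by
  unfold aR
  rw [← Finset.card_union_of_disjoint]
  · congr 1
    ext v
    simp only [Finset.mem_union, Finset.mem_filter, Finset.mem_sdiff]
    constructor
    · rintro (⟨⟨a, b⟩, c⟩ | ⟨⟨a, b⟩, c⟩)
      · exact ⟨⟨a, fun h => b (h1 h)⟩, c⟩
      · exact ⟨⟨h2 a, b⟩, c⟩
    · rintro ⟨⟨a, b⟩, c⟩
      by_cases hS : v ∈ S
      · exact Or.inr ⟨⟨hS, b⟩, c⟩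
      · exact Or.inl ⟨⟨a, hS⟩, c⟩
  · rw [Finset.disjoint_left]
    intro v hv hv'
    exact (Finset.mem_sdiff.1 (Finset.mem_filter.1 hv).1).2
      (Finset.mem_sdiff.1 (Finset.mem_filter.1 hv').1).1

theorem es_map {R R' : Type} [CommRing R] [CommRing R'] (φ : R →+* R') {N : ℕ} (x : Fin N → R)
    (d : ℕ) : es (fun k => φ (x k)) d = φ (es x d) := by
  unfold es
  rw [map_sum]
  exact Finset.sum_congr rfl fun C _ => (map_prod φ _ _).symm

theorem XX_map {R R' : Type} [CommRing R] [CommRing R'] (φ : R →+* R') {N : ℕ} (m : ℕ → ℕ) (q : R)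
    (x : Fin N → R) (U : Finset ℕ) : XX m (φ q) (fun k => φ (x k)) U = φ (XX m q x U) := by
  unfold XX
  rw [Z_map]

theorem aev {K : Type} [Field K] {N : ℕ} (φ : AN N →+* K) (p : Polynomial ℤ) :
    Polynomial.aeval (φ (qq N)) p = φ (MvPolynomial.C p) := by
  have h : (Polynomial.aeval (φ (qq N)) : Polynomial ℤ →ₐ[ℤ] K).toRingHom =
      φ.comp (MvPolynomial.C : Polynomial ℤ →+* AN N) := by
    refine Polynomial.ringHom_ext (fun a => ?_) ?_
    · simp
    · show Polynomial.aeval (φ (qq N)) (Polynomial.X : Polynomial ℤ) = φ (MvPolynomial.C _)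
      rw [Polynomial.aeval_X]
      rfl
  exact RingHom.congr_fun h p

theorem main {K : Type} [Field K] (N : ℕ) (φ : AN N →+* K) (hinj : Function.Injective φ)
    (hCmul : S_Cmul) (hXF : XFc)
    (hPos : ∀ (m : ℕ → ℕ) (B S : Finset ℕ), Ini m B S → Pos m B S) (hEDK : S_EDK)
    (m : ℕ → ℕ) (hm : Monotone m) (U : Finset ℕ) (r : ℕ)
    (hmin : ∀ u ∈ U, r ≤ u) (hDeg : Deg m (NB m U r) U)
    (hV : ∀ V ⊆ U \ NB m U r, XX m (qq N) (xx N) V ∈ Cone N V.card (eE m V)) :
    XX m (qq N) (xx N) U ∈ Cone N U.card (eE m U) := by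
  have hIni := ini m hm U r hmin
  have hX0 : qq N ≠ 0 := by
    intro h
    have h2 : (MvPolynomial.C (Polynomial.X : Polynomial ℤ) : AN N) = MvPolynomial.C 0 := by
      rw [map_zero]
      exact h
    exact Polynomial.X_ne_zero (MvPolynomial.C_injective (Fin N) _ h2)
  have hX1 : qq N ≠ 1 := by
    intro h
    have h2 : (MvPolynomial.C (Polynomial.X : Polynomial ℤ) : AN N) =
        MvPolynomial.C (Polynomial.C 1) := by
      rw [map_one, map_one]
      exact h
    exact Polynomial.X_ne_C 1 (MvPolynomial.C_injective (Fin N) _ h2)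
  have hq0 : φ (qq N) ≠ 0 := by
    intro h
    exact hX0 (hinj (by rw [h, map_zero]))
  have hq1 : φ (qq N) ≠ 1 := by
    intro h
    exact hX1 (hinj (by rw [h, map_one]))
  have hexp := hXF K m hm _ hq0 hq1 N (fun k => φ (xx N k)) (NB m U r) U hIni
  have hp : ∀ S ∈ U.powerset.filter (fun S => NB m U r ⊆ S), ∃ p ∈ PU
      (∑ u ∈ S, (aR m (U \ S) u + (1 + aL m U u) - 1)),
      KS m (φ (qq N)) (NB m U r) (fun u => φ (qq N) ^ aR m (U \ S) u)
        (fun u => φ (qq N) ^ (1 + aL m U u)) S =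
      (1 - φ (qq N)) ^ (NB m U r).card * Polynomial.aeval (φ (qq N)) p := by
    intro S hS
    obtain ⟨hSU, hBS⟩ := Finset.mem_filter.1 hS
    rw [Finset.mem_powerset] at hSU
    have hIniS : Ini m (NB m U r) S :=
      ⟨hBS, fun b hb u hu hub => hIni.2.1 b hb u (hSU hu) hub, hIni.2.2⟩
    refine hPos m (NB m U r) S hIniS K _ hq0 hq1
      (fun u => aR m (U \ S) u) (fun u => 1 + aL m U u) ⟨?_, ?_, ?_⟩
    · intro u _
      exact Nat.le_add_right 1 _
    · intro u _
      exact le_trans (aL_mono m hSU u) (Nat.le_add_left _ _)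
    · intro u hu
      show aR m (U \ S) u + aR m (S \ NB m U r) u ≤ 1 + aL m U u
      rw [aR_add m hBS hSU u, add_comm 1]
      exact hDeg u (hSU hu)
  choose! p hp1 hp2 using hp
  have hXX : XX m (qq N) (xx N) U = ∑ S ∈ U.powerset.filter (fun S => NB m U r ⊆ S),
      (MvPolynomial.C (p S) * es (xx N) S.card) * XX m (qq N) (xx N) (U \ S) := by
    apply hinj
    have hne : (1 - φ (qq N)) ^ (NB m U r).card ≠ 0 :=
      pow_ne_zero _ (sub_ne_zero.2 hq1.symm)
    refine mul_left_cancel₀ hne ?_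
    rw [XX_map] at hexp
    rw [hexp, map_sum, Finset.mul_sum]
    refine Finset.sum_congr rfl fun S hS => ?_
    rw [hp2 S hS, XX_map, es_map, aev, map_mul, map_mul]
    ring
  rw [hXX]
  refine sum_mem fun S hS => ?_
  obtain ⟨hSU, hBS⟩ := Finset.mem_filter.1 hS
  rw [Finset.mem_powerset] at hSU
  have h1 : MvPolynomial.C (p S) * es (xx N) S.card ∈
      Cone N S.card (∑ u ∈ S, (aR m (U \ S) u + (1 + aL m U u) - 1)) := by
    refine AddSubmonoid.subset_closure ⟨{S.card}, p S, Multiset.sum_singleton _, hp1 S hS, ?_⟩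
    rw [Multiset.map_singleton, Multiset.prod_singleton]
  have h2 := hV (U \ S) (Finset.sdiff_subset_sdiff (Finset.Subset.refl U) hBS)
  have h3 := hCmul N _ _ _ _ _ _ h1 h2
  rw [hEDK m U S hSU] at h3
  have h4 : S.card + (U \ S).card = U.card := by
    rw [add_comm]
    exact Finset.card_sdiff_add_card_eq_card hSU
  rw [h4] at h3
  exact h3

end CONaux

/-- the closure theorem, left version -/
theorem tCON : S_CON := by
  intro _ hCmul hXF hPos hEDK N m hm U r _ hmin hDeg hV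
  exact CONaux.main N (algebraMap (AN N) (FractionRing (AN N)))
    (IsFractionRing.injective (AN N) (FractionRing (AN N))) hCmul hXF hPos hEDK m hm U r hmin
    hDeg hV

end Pool.Agent.SWK
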