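import Pool.Agent.Lib.MP_263316_co.SWK.SpecE

/-!
MP_263316_co, project SWK, task KADM: the chain condition in the second form of the recursion.
-/

set_option autoImplicit false

namespace Pool.Agent.SWK

open Finset Pool.Agent.SWC

namespace KADMaux

lemma aL_ins (m : ℕ → ℕ) (S : Finset ℕ) (t v : ℕ) (hv : v ≤ t) :
    aL m (insert t S) v = aL m S v := by
  unfold aL
  rw [filter_insert]
  rw [if_neg]
  intro h
  omega

lemma aR_ins (m : ℕ → ℕ) (B S : Finset ℕ) (t u : ℕ) (ht : t ∉ B) (htS : t ∉ S) (hu : u < t) :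
    aR m (insert t S \ B) u = aR m (S \ B) u + (if t ≤ m u then 1 else 0) := by
  unfold aR
  rw [insert_sdiff_of_notMem S ht, filter_insert]
  by_cases h : t ≤ m u
  · rw [if_pos ⟨hu, h⟩, if_pos h, card_insert_of_notMem]
    intro h'
    exact htS (mem_sdiff.1 (mem_filter.1 h').1).1
  · rw [if_neg (fun h' => h h'.2), if_neg h, add_zero]

lemma aR_mono (m : ℕ → ℕ) (hm : Monotone m) (B S : Finset ℕ) (j n : ℕ) (hn : n ∈ B)
    (hjn : j ≤ n) (hB : ∀ b ∈ B, ∀ u ∈ S \ B, b < u) :
    aR m (S \ B) j ≤ aR m (S \ B) n := by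
  unfold aR
  refine card_le_card fun v hv => ?_
  obtain ⟨h1, h2⟩ := mem_filter.1 hv
  exact mem_filter.2 ⟨h1, hB n hn v h1, h2.2.trans (hm hjn)⟩

lemma card_i (m : ℕ → ℕ) (S : Finset ℕ) (t n : ℕ) (hn : n ∈ NL m S t) :
    ((NL m S t).filter (fun v => n < v)).card + 1 ≤ aL m S t := by
  have h : ((NL m S t).filter (fun v => n < v)) ⊆ (NL m S t).erase n := by
    intro v hv
    obtain ⟨h1, h2⟩ := mem_filter.1 hv
    exact mem_erase.2 ⟨h2.ne', h1⟩
  have h2 := card_le_card h
  have h3 : (NL m S t).card = aL m S t := rfl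
  have h4 : 0 < (NL m S t).card := card_pos.2 ⟨n, hn⟩
  rw [card_erase_of_mem hn] at h2
  omega

end KADMaux

open KADMaux in
theorem tKADM : S_KADM := by
  intro m hm B S t htB hBS hB hS ρ σ hA hr n hn
  obtain ⟨A1, A2, A3, A4⟩ := hA
  have htS : t ∉ S := fun h => lt_irrefl t (hS t h)
  obtain ⟨hnS, hnt, hnm⟩ : n ∈ S ∧ n < t ∧ t ≤ m n := by
    obtain ⟨h1, h2⟩ := mem_filter.1 hn
    exact ⟨h1, h2⟩
  -- the number i
  have hi := card_i m S t n hn
  set i := ((NL m S t).filter (fun v => n < v)).card + 1 with hidef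
  have hLt : aL m S t ≤ σ t := by
    have h := A2 t (mem_sdiff.2 ⟨mem_insert_self t S, htB⟩)
    rwa [aL_ins m S t t le_rfl] at h
  have hiσ : i ≤ σ t := hi.trans hLt
  have hri : ρ t + i ≤ σ t + 1 := by omega
  have memN : ∀ u, u ∈ S → t ≤ m u → u ∈ NL m S t := fun u hu h =>
    mem_filter.2 ⟨hu, hS u hu, h⟩
  have Nm : ∀ u, u ∈ NL m S t → t ≤ m u := fun u hu => (mem_filter.1 hu).2.2
  -- the chain condition of the hypothesis
  have C : ∀ j ∈ B, σ j < ρ j + (aR m (S \ B) j + (if t ≤ m j then 1 else 0)) →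
      ∃ k ∈ B, j < k ∧ σ k + ρ j ≤ σ j + ρ k + 1 := by
    intro j hj h
    refine A4 j hj ?_
    rw [aR_ins m B S t j htB htS (hS j (hBS hj))]
    exact h
  have C0 : ∀ j ∈ B, σ j < ρ j + aR m (S \ B) j →
      ∃ k ∈ B, j < k ∧ σ k + ρ j ≤ σ j + ρ k + 1 := by
    intro j hj h
    exact C j hj (by omega)
  have A3' : ∀ u ∈ S \ B, ρ u + (aR m (S \ B) u + (if t ≤ m u then 1 else 0)) ≤ σ u := by
    intro u hu
    have hu1 := mem_sdiff.1 hu
    have h := A3 u (mem_sdiff.2 ⟨mem_insert_of_mem hu1.1, hu1.2⟩)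
    rwa [aR_ins m B S t u htB htS (hS u hu1.1)] at h
  refine ⟨?_, ?_, ?_, ?_⟩
  · -- first part
    intro u hu
    have h := A1 u (mem_insert_of_mem hu)
    change 1 ≤ (if u = n then σ u + σ t - i else σ u)
    split_ifs with h1
    · omega
    · exact h
  · -- second part
    intro u hu
    have hu1 := mem_sdiff.1 hu
    have h := A2 u (mem_sdiff.2 ⟨mem_insert_of_mem hu1.1, hu1.2⟩)
    rw [aL_ins m S t u (hS u hu1.1).le] at h
    change aL m S u ≤ (if u = n then σ u + σ t - i else σ u)
    split_ifs with h1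
    · omega
    · exact h
  · -- third part
    intro u hu
    have h := A3' u hu
    change (if u = n then ρ u + ρ t else if u ∈ NL m S t ∧ n < u then ρ u + 1 else ρ u) +
      aR m (S \ B) u ≤ (if u = n then σ u + σ t - i else σ u)
    by_cases h1 : u = n
    · rw [if_pos h1, if_pos h1]
      have h2 : t ≤ m u := by rw [h1]; exact hnm
      rw [if_pos h2] at h
      omega
    · rw [if_neg h1, if_neg h1]
      by_cases h2 : u ∈ NL m S t ∧ n < u
      · rw [if_pos h2]
        rw [if_pos (Nm u h2.1)] at h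
        omega
      · rw [if_neg h2]
        split_ifs at h with h3
        · omega
        · omega
  · -- fourth part
    intro j hj
    change (if j = n then σ j + σ t - i else σ j) <
      (if j = n then ρ j + ρ t else if j ∈ NL m S t ∧ n < j then ρ j + 1 else ρ j) +
        aR m (S \ B) j →
      ∃ k ∈ B, j < k ∧
        (if k = n then σ k + σ t - i else σ k) +
          (if j = n then ρ j + ρ t else if j ∈ NL m S t ∧ n < j then ρ j + 1 else ρ j) ≤
        (if j = n then σ j + σ t - i else σ j) +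
          (if k = n then ρ k + ρ t else if k ∈ NL m S t ∧ n < k then ρ k + 1 else ρ k) + 1
    intro hlt
    by_cases hnB : n ∈ B
    · -- elements of B after n are in N
      have hN : ∀ k ∈ B, n < k → k ∈ NL m S t := fun k hk hnk =>
        memN k (hBS hk) (hnm.trans (hm hnk.le))
      rcases lt_trichotomy j n with hjn | hjn | hjn
      · -- j < n
        have hj1 : j ≠ n := hjn.ne
        have hj2 : ¬ (j ∈ NL m S t ∧ n < j) := fun h => by omega
        rw [if_neg hj1, if_neg hj1, if_neg hj2] at hlt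
        rw [if_neg hj1, if_neg hj1, if_neg hj2]
        obtain ⟨k, hk, hjk, hck⟩ := C0 j hj hlt
        by_cases hkn : k = n
        · -- use the chain condition at n
          subst hkn
          have hW := aR_mono m hm B S j k hk hjk.le hB
          obtain ⟨k2, hk2, hkk2, hc2⟩ := C k hk (by rw [if_pos hnm]; omega)
          refine ⟨k2, hk2, hjk.trans hkk2, ?_⟩
          have h1 : k2 ≠ k := hkk2.ne'
          rw [if_neg h1, if_neg h1, if_pos ⟨hN k2 hk2 hkk2, hkk2⟩]
          omega
        · refine ⟨k, hk, hjk, ?_⟩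
          rw [if_neg hkn, if_neg hkn]
          split_ifs with h3
          · omega
          · omega
      · -- j = n
        subst hjn
        rw [if_pos rfl, if_pos rfl] at hlt
        rw [if_pos rfl, if_pos rfl]
        obtain ⟨k, hk, hjk, hck⟩ := C j hj (by rw [if_pos hnm]; omega)
        refine ⟨k, hk, hjk, ?_⟩
        have h1 : k ≠ j := hjk.ne'
        rw [if_neg h1, if_neg h1, if_pos ⟨hN k hk hjk, hjk⟩]
        omega
      · -- n < j
        have hj1 : j ≠ n := hjn.ne'
        have hjN := hN j hj hjn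
        rw [if_neg hj1, if_neg hj1, if_pos ⟨hjN, hjn⟩] at hlt
        rw [if_neg hj1, if_neg hj1, if_pos ⟨hjN, hjn⟩]
        obtain ⟨k, hk, hjk, hck⟩ := C j hj (by rw [if_pos (Nm j hjN)]; omega)
        refine ⟨k, hk, hjk, ?_⟩
        have h1 : k ≠ n := (hjn.trans hjk).ne'
        rw [if_neg h1, if_neg h1, if_pos ⟨hN k hk (hjn.trans hjk), hjn.trans hjk⟩]
        omega
    · -- all elements of B are smaller than n
      have hBn : ∀ b ∈ B, b < n := fun b hb => hB b hb n (mem_sdiff.2 ⟨hnS, hnB⟩)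
      have hj1 : j ≠ n := (hBn j hj).ne
      have hj2 : ¬ (j ∈ NL m S t ∧ n < j) := fun h => by
        have := hBn j hj
        omega
      rw [if_neg hj1, if_neg hj1, if_neg hj2] at hlt
      rw [if_neg hj1, if_neg hj1, if_neg hj2]
      obtain ⟨k, hk, hjk, hck⟩ := C0 j hj hlt
      refine ⟨k, hk, hjk, ?_⟩
      have hk1 : k ≠ n := (hBn k hk).ne
      have hk2 : ¬ (k ∈ NL m S t ∧ n < k) := fun h => by
        have := hBn k hk
        omega
      rw [if_neg hk1, if_neg hk1, if_neg hk2]
      exact hck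

end Pool.Agent.SWK
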