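import Pool.Agent.Lib.MP_263316_co.SWK.Spec

/-!
MP_263316_co, project SWK: positivity of the coefficients, step of the induction, second form
(`S_KP2`).
-/

set_option autoImplicit false

namespace Pool.Agent.SWK

open Finset Pool.Agent.SWC

namespace KP2aux

/-- the left degree does not change if a vertex which is not to the left is added -/
lemma aL_insert (m : ℕ → ℕ) (S : Finset ℕ) (t u : ℕ) (h : u ≤ t) :
    aL m (insert t S) u = aL m S u := by
  unfold aL
  rw [Finset.filter_insert, if_neg (fun hh => absurd hh.1 (Nat.not_lt.mpr h))]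

/-- the right degree outside `B` after adding the last vertex `t` -/
lemma aR_insert (m : ℕ → ℕ) (B S : Finset ℕ) (t u : ℕ) (htB : t ∉ B) (htS : t ∉ S)
    (hu : u ∈ S) :
    aR m (insert t S \ B) u = aR m (S \ B) u + (if u ∈ NL m S t then 1 else 0) := by
  have h1 : insert t S \ B = insert t (S \ B) := by
    ext x
    simp only [Finset.mem_sdiff, Finset.mem_insert]
    constructor
    · rintro ⟨h | h, hB⟩
      · exact Or.inl h
      · exact Or.inr ⟨h, hB⟩
    · rintro (h | h)
      · exact ⟨Or.inl h, h ▸ htB⟩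
      · exact ⟨Or.inr h.1, h.2⟩
  have h2 : t ∉ S \ B := fun h => htS (Finset.mem_sdiff.mp h).1
  rw [h1]
  unfold aR
  rw [Finset.filter_insert]
  by_cases h : u < t ∧ t ≤ m u
  · rw [if_pos h, if_pos (show u ∈ NL m S t from Finset.mem_filter.mpr ⟨hu, h⟩)]
    rw [Finset.card_insert_of_notMem (fun hh => h2 (Finset.mem_filter.mp hh).1)]
  · have hn : u ∉ NL m S t := fun hh => h (Finset.mem_filter.mp hh).2
    rw [if_neg h, if_neg hn, Nat.add_zero]

end KP2aux

theorem tKP2 : S_KP2 := by
  intro h1 h2 h3 h4 h5 h6 m B S t htB hlt hPos K _ q hq0 hq1 ρ σ hAdm hL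
  obtain ⟨hA1, hA2, hA3⟩ := hAdm
  have htS : t ∉ S := fun h => lt_irrefl t (hlt t h)
  have hNS : NL m S t ⊆ S := Finset.filter_subset _ _
  have hcardL : (NL m S t).card = aL m S t := rfl
  have hLs : aL m S t ≤ σ t := by
    have h := hA2 t (Finset.mem_sdiff.mpr ⟨Finset.mem_insert_self t S, htB⟩)
    rwa [KP2aux.aL_insert m S t t le_rfl] at h
  have hst : 1 ≤ σ t := hA1 t (Finset.mem_insert_self t S)
  have hD : ∑ u ∈ insert t S, (ρ u + σ u - 1) =
      (ρ t + σ t - 1) + ∑ u ∈ S, (ρ u + σ u - 1) := Finset.sum_insert htS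
  refine ((h2 h1 K q hq1).2.2.2.1) _ _ _ ?_
  rw [h3 K m q hq0 B S t (fun u => q ^ ρ u) (fun u => q ^ σ u) htB hlt]
  refine h6 h1 h2 h4 h5 K q hq0 hq1 m B S (NL m S t) ρ σ (ρ t) (σ t) _ hNS
    (hcardL ▸ hLs) ?_
  intro N' hN' n hn
  obtain ⟨hnN, hnN'⟩ := Finset.mem_sdiff.mp hn
  have hnS : n ∈ S := hNS hnN
  have hc : N'.card + 1 ≤ aL m S t := by
    rw [← hcardL, ← Finset.card_insert_of_notMem hnN']
    exact Finset.card_le_card (Finset.insert_subset hnN hN')
  have hsum : ∑ u ∈ insert t S, (ρ u + σ u - 1) =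
      ∑ u ∈ S, ((if u = n then ρ u + ρ t else if u ∈ N' then ρ u + 1 else ρ u) +
        (if u = n then σ u + σ t - (N'.card + 1) else σ u) - 1) := by
    rw [hD]
    have hp : ∀ u ∈ S, (if u = n then ρ u + ρ t else if u ∈ N' then ρ u + 1 else ρ u) +
        (if u = n then σ u + σ t - (N'.card + 1) else σ u) - 1 =
        (ρ u + σ u - 1) + ((if u = n then (ρ t + σ t - 1 - N'.card) else 0) +
          (if u ∈ N' then 1 else 0)) := by
      intro u hu
      have hsu : 1 ≤ σ u := hA1 u (Finset.mem_insert_of_mem hu)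
      by_cases hun : u = n
      · subst hun
        rw [if_pos rfl, if_pos rfl, if_pos rfl, if_neg hnN']
        omega
      · rw [if_neg hun, if_neg hun, if_neg hun]
        by_cases huN : u ∈ N'
        · rw [if_pos huN, if_pos huN]
          omega
        · rw [if_neg huN, if_neg huN]
          omega
    rw [Finset.sum_congr rfl hp, Finset.sum_add_distrib, Finset.sum_add_distrib,
      Finset.sum_ite_eq' S n, if_pos hnS]
    have hNN : ∑ u ∈ S, (if u ∈ N' then 1 else 0) = N'.card := by
      rw [Finset.sum_ite_mem, Finset.inter_eq_right.mpr (hN'.trans hNS), Finset.sum_const,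
        smul_eq_mul, mul_one]
    rw [hNN]
    omega
  rw [hsum]
  refine hPos K q hq0 hq1
    (fun u => if u = n then ρ u + ρ t else if u ∈ N' then ρ u + 1 else ρ u)
    (fun u => if u = n then σ u + σ t - (N'.card + 1) else σ u) ⟨?_, ?_, ?_⟩
  · intro u hu
    have hsu : 1 ≤ σ u := hA1 u (Finset.mem_insert_of_mem hu)
    show 1 ≤ (if u = n then σ u + σ t - (N'.card + 1) else σ u)
    split_ifs
    · omega
    · exact hsu
  · intro u hu
    obtain ⟨huS, huB⟩ := Finset.mem_sdiff.mp hu
    have h := hA2 u (Finset.mem_sdiff.mpr ⟨Finset.mem_insert_of_mem huS, huB⟩)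
    rw [KP2aux.aL_insert m S t u (hlt u huS).le] at h
    show aL m S u ≤ (if u = n then σ u + σ t - (N'.card + 1) else σ u)
    split_ifs
    · omega
    · exact h
  · intro u hu
    have h := hA3 u (Finset.mem_insert_of_mem hu)
    rw [KP2aux.aR_insert m B S t u htB htS hu] at h
    show (if u = n then ρ u + ρ t else if u ∈ N' then ρ u + 1 else ρ u) + aR m (S \ B) u ≤
      (if u = n then σ u + σ t - (N'.card + 1) else σ u)
    by_cases hun : u = n
    · subst hun
      rw [if_pos rfl, if_pos rfl]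
      rw [if_pos hnN] at h
      omega
    · rw [if_neg hun, if_neg hun]
      by_cases huN : u ∈ N'
      · rw [if_pos huN]
        rw [if_pos (hN' huN)] at h
        omega
      · rw [if_neg huN]
        omega

end Pool.Agent.SWK
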