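import Pool.Agent.Lib.MP_263316_co.CB.All
import Pool.Agent.Lib.MP_263316_co.SWK.Spec

/-!
MP_263316_co, project SWK: initial intervals satisfying the block condition (from part CB).
-/

set_option autoImplicit false

namespace Pool.Agent.SWK

open Finset Pool.Agent.SWC Pool.Agent.SWB Pool.Agent.SWD

open FinAux MainAux in
theorem tMN3 : MN3c := by
  intro N m hm l hbc
  rcases Nat.eq_zero_or_pos l with h0 | hpos
  · subst h0
    have h1 : XX m (qq N) (xx N) (range 0) = 1 := by simp [XX]
    have h2 : eE m (range 0) = 0 := by simp [eE]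
    rw [h1, h2]
    exact one_mem N
  · obtain ⟨l', rfl⟩ : ∃ l', l = l' + 1 := ⟨l - 1, by omega⟩
    have hb : BlockCond3 m 0 (0 + l') := by
      intro a b _ hab hb hcon
      exact hbc a b hab (by omega) hcon
    have h1 := main3 Pool.Agent.SWB.All.hypT Pool.Agent.SWB.All.hypP Pool.Agent.SWB.All.hypB
      Pool.Agent.SWD.All.blk Pool.Agent.SWC.All.mlin N m hm l' 0 hb 0
    have hU : Icc 0 (0 + l') = range (l' + 1) := by
      ext u; simp only [mem_Icc, mem_range]; omega
    rw [hU, ← FF_eq, Nat.zero_add, Nat.zero_add, Finset.card_range] at h1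
    have h2 := Pool.Agent.SWB.All.hypP.msum N (l' + 1) _ _ h1
    rw [sum_FF m (qq N) (xx N) (range (l' + 1)) (0 + l') (mem_range.mpr (by omega))] at h2
    exact h2

end Pool.Agent.SWK
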