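import Pool.Agent.Lib.MP_263316_co.SWK.SpecE

/-!
MP_263316_co (Shareshian-Wachs), project SWK, task NICEE: induction on the class `NiceE`.
-/

set_option autoImplicit false

namespace Pool.Agent.SWK

open Finset Pool.Agent.SWC

namespace NICEEaux

/-- the set of values -/
def im {n : ℕ} (U : Finset (Fin n)) : Finset ℕ := U.image (fun u : Fin n => (u : ℕ))

lemma mem_im {n : ℕ} (U : Finset (Fin n)) (x : ℕ) : x ∈ im U ↔ ∃ u ∈ U, (u : ℕ) = x := by
  simp [im]

lemma val_mem_im {n : ℕ} (U : Finset (Fin n)) (u : Fin n) : (u : ℕ) ∈ im U ↔ u ∈ U := by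
  rw [mem_im]
  constructor
  · rintro ⟨v, hv, hvu⟩
    have : v = u := Fin.ext hvu
    exact this ▸ hv
  · intro h
    exact ⟨u, h, rfl⟩

lemma card_im {n : ℕ} (U : Finset (Fin n)) : (im U).card = U.card :=
  Finset.card_image_of_injective U Fin.val_injective

lemma im_union {n : ℕ} (U V : Finset (Fin n)) : im (U ∪ V) = im U ∪ im V := by
  simp [im, Finset.image_union]

/-- filters of images -/
lemma filter_im {n : ℕ} (U : Finset (Fin n)) (p : ℕ → Prop) [DecidablePred p]
    (p' : Fin n → Prop) [DecidablePred p'] (h : ∀ u : Fin n, p (u : ℕ) ↔ p' u) :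
    (im U).filter p = im (U.filter p') := by
  ext x
  simp only [Finset.mem_filter, mem_im]
  constructor
  · rintro ⟨⟨u, hu, rfl⟩, hp⟩
    exact ⟨u, ⟨hu, (h u).1 hp⟩, rfl⟩
  · rintro ⟨u, ⟨hu, hp⟩, rfl⟩
    exact ⟨⟨u, hu, rfl⟩, (h u).2 hp⟩

/-- subsets of images are images -/
lemma subset_im {n : ℕ} (U : Finset (Fin n)) (W : Finset ℕ) (hW : W ⊆ im U) :
    ∃ V ⊆ U, W = im V := by
  refine ⟨U.filter (fun u => (u : ℕ) ∈ W), Finset.filter_subset _ _, ?_⟩
  ext x
  rw [mem_im]
  constructor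
  · intro hx
    obtain ⟨u, hu, rfl⟩ := (mem_im U x).1 (hW hx)
    exact ⟨u, Finset.mem_filter.2 ⟨hu, hx⟩, rfl⟩
  · rintro ⟨u, hu, rfl⟩
    exact (Finset.mem_filter.1 hu).2

section

variable {n : ℕ} (h : Fin n → Fin n) (m : ℕ → ℕ) (hm : ∀ i : Fin n, m (i : ℕ) = (h i : ℕ))

include hm

lemma aL_im (S : Finset (Fin n)) (v : Fin n) :
    aL m (im S) (v : ℕ) = (S.filter (fun u => u < v ∧ v ≤ h u)).card := by
  unfold aL
  rw [filter_im S (fun u => u < (v : ℕ) ∧ (v : ℕ) ≤ m u) (fun u => u < v ∧ v ≤ h u), card_im]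
  intro u
  rw [hm u, Fin.lt_def, Fin.le_def]

lemma aR_im (S : Finset (Fin n)) (v : Fin n) :
    aR m (im S) (v : ℕ) = (S.filter (fun u => v < u ∧ u ≤ h v)).card := by
  unfold aR
  rw [filter_im S (fun u => (v : ℕ) < u ∧ u ≤ m (v : ℕ)) (fun u => v < u ∧ u ≤ h v), card_im]
  intro u
  rw [hm v, Fin.lt_def, Fin.le_def]

lemma sdiff_NB (hh : ∀ i, i ≤ h i) (U : Finset (Fin n)) (r : Fin n) :
    im U \ NB m (im U) (r : ℕ) = im (U.filter (fun v => h r < v)) := by
  rw [← filter_im U (fun x => (h r : ℕ) < x) (fun v => h r < v) (fun u => by rw [Fin.lt_def])]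
  ext x
  simp only [NB, Finset.mem_sdiff, Finset.mem_filter, hm r]
  have hr : (r : ℕ) ≤ (h r : ℕ) := Fin.le_def.1 (hh r)
  constructor
  · rintro ⟨hx, hn⟩
    refine ⟨hx, ?_⟩
    by_contra hc
    exact hn ⟨hx, Or.inr (by omega)⟩
  · rintro ⟨hx, hlt⟩
    refine ⟨hx, ?_⟩
    rintro ⟨_, h1 | h1⟩
    · omega
    · omega

lemma sdiff_NB' (hh : ∀ i, i ≤ h i) (U : Finset (Fin n)) (r : Fin n) :
    im U \ NB' m (im U) (r : ℕ) = im (U.filter (fun v => h v < r)) := by
  rw [← filter_im U (fun x => m x < (r : ℕ)) (fun v => h v < r)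
    (fun u => by rw [Fin.lt_def, hm u])]
  ext x
  simp only [NB', Finset.mem_sdiff, Finset.mem_filter]
  constructor
  · rintro ⟨hx, hn⟩
    refine ⟨hx, ?_⟩
    by_contra hc
    exact hn ⟨hx, Or.inr (by omega)⟩
  · rintro ⟨hx, hlt⟩
    refine ⟨hx, ?_⟩
    rintro ⟨_, h1 | h1⟩
    · subst h1
      have := hm r
      have hr : (r : ℕ) ≤ (h r : ℕ) := Fin.le_def.1 (hh r)
      omega
    · omega

end

end NICEEaux

open NICEEaux in
theorem tNICEE : S_NICEE := by
  intro hCON _hCmul hR hB hUNI n h hmono hh m hmm hm U hU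
  induction hU with
  | blocks U hU =>
    intro N
    have key := hB N m hmm (im U) ?_
    · rw [card_im] at key
      exact key
    · intro a' ha' b' hb' hab hpre
      obtain ⟨a, ha, rfl⟩ := (mem_im U a').1 ha'
      obtain ⟨b, hb, rfl⟩ := (mem_im U b').1 hb'
      have h1 := hU a ha b hb (Fin.lt_def.2 hab) ?_
      · rcases h1 with h1 | h1
        · left
          intro u' hu' v' hv' w' hw' h2 h3 h4 h5 h6
          obtain ⟨u, hu, rfl⟩ := (mem_im U u').1 hu'
          obtain ⟨v, hv, rfl⟩ := (mem_im U v').1 hv'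
          obtain ⟨w, hw, rfl⟩ := (mem_im U w').1 hw'
          refine h1 u hu v hv w hw (Fin.le_def.2 h2) (Fin.lt_def.2 h3) (Fin.lt_def.2 h4)
            (Fin.le_def.2 h5) ?_
          rw [hm u, hm v] at h6
          exact ⟨Fin.lt_def.2 h6.1, Fin.lt_def.2 h6.2⟩
        · right
          intro u' hu' v' hv' w' hw' y' hy' z' hz' h2 h3 h4 h5 h6 h7 h8
          obtain ⟨u, hu, rfl⟩ := (mem_im U u').1 hu'
          obtain ⟨v, hv, rfl⟩ := (mem_im U v').1 hv'
          obtain ⟨w, hw, rfl⟩ := (mem_im U w').1 hw'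
          obtain ⟨y, hy, rfl⟩ := (mem_im U y').1 hy'
          obtain ⟨z, hz, rfl⟩ := (mem_im U z').1 hz'
          refine h1 u hu v hv w hw y hy z hz (Fin.le_def.2 h2) (Fin.lt_def.2 h3)
            (Fin.lt_def.2 h4) (Fin.lt_def.2 h5) (Fin.lt_def.2 h6) (Fin.le_def.2 h7) ?_
          rw [hm u, hm v] at h8
          exact ⟨Fin.le_def.2 h8.1, Fin.le_def.2 h8.2.1, Fin.lt_def.2 h8.2.2⟩
      · intro i hi j hj k hk h2 h3 h4 h5 h6
        have := hpre i ((val_mem_im U i).2 hi) j ((val_mem_im U j).2 hj) k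
          ((val_mem_im U k).2 hk) (Fin.le_def.1 h2) (Fin.lt_def.1 h3) (Fin.lt_def.1 h4)
          (Fin.le_def.1 h5) ?_
        · rw [hm i] at this
          exact Fin.le_def.2 this
        · intro l' hl' h7 h8
          obtain ⟨l, hl, rfl⟩ := (mem_im U l').1 hl'
          rw [h6 l hl (Fin.lt_def.2 h7) (Fin.lt_def.2 h8)]
  | union U V hUV _ _ ihU ihV =>
    intro N
    have key := hUNI _hCmul N m hmm (im U) (im V) ?_ ?_ ?_
    · rw [← im_union, card_im] at key
      exact key
    · intro u' hu' v' hv'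
      obtain ⟨u, hu, rfl⟩ := (mem_im U u').1 hu'
      obtain ⟨v, hv, rfl⟩ := (mem_im V v').1 hv'
      have := hUV u hu v hv
      rw [hm u]
      exact ⟨Fin.lt_def.1 this.1, Fin.lt_def.1 this.2⟩
    · rw [card_im]
      exact ihU N
    · rw [card_im]
      exact ihV N
  | left U r hr hmin hdeg hV ihV =>
    intro N
    have key := hCON N m hmm (im U) (r : ℕ) ((val_mem_im U r).2 hr) ?_ ?_ ?_
    · rw [card_im] at key
      exact key
    · intro u' hu'
      obtain ⟨u, hu, rfl⟩ := (mem_im U u').1 hu'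
      exact Fin.le_def.1 (hmin u hu)
    · intro u' hu' hw'
      obtain ⟨u, hu, rfl⟩ := (mem_im U u').1 hu'
      have hlast : ∀ w ∈ U, u < w → h r < w := by
        intro w hw huw
        by_contra hc
        have h1 : (w : ℕ) ∈ NB m (im U) (r : ℕ) := by
          refine Finset.mem_filter.2 ⟨(val_mem_im U w).2 hw, Or.inr ?_⟩
          rw [hm r]
          exact Fin.le_def.1 (not_lt.1 hc)
        have h2 := hw' (w : ℕ) h1
        have h3 := Fin.lt_def.1 huw
        omega
      rw [sdiff_NB h m hm hh U r, aR_im h m hm, aL_im h m hm, Finset.filter_filter]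
      refine le_trans (le_of_eq ?_) (hdeg u hu hlast)
      apply congrArg Finset.card
      apply Finset.filter_congr
      intro v _
      tauto
    · intro W hW
      rw [sdiff_NB h m hm hh U r] at hW
      obtain ⟨V, hVs, rfl⟩ := subset_im _ W hW
      rw [card_im]
      exact ihV V hVs N
  | right U r hr hmax hdeg hV ihV =>
    intro N
    have key := hR N m hmm (im U) (r : ℕ) ((val_mem_im U r).2 hr) ?_ ?_ ?_
    · rw [card_im] at key
      exact key
    · intro u' hu'
      obtain ⟨u, hu, rfl⟩ := (mem_im U u').1 hu'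
      exact Fin.le_def.1 (hmax u hu)
    · intro u' hu' hw'
      obtain ⟨u, hu, rfl⟩ := (mem_im U u').1 hu'
      have hfirst : ∀ w ∈ U, w < u → h w < r := by
        intro w hw hwu
        by_contra hc
        have h1 : (w : ℕ) ∈ NB' m (im U) (r : ℕ) := by
          refine Finset.mem_filter.2 ⟨(val_mem_im U w).2 hw, Or.inr ?_⟩
          rw [hm w]
          exact Fin.le_def.1 (not_lt.1 hc)
        have h2 := hw' (w : ℕ) h1
        have h3 := Fin.lt_def.1 hwu
        omega
      rw [sdiff_NB' h m hm hh U r, aR_im h m hm, aL_im h m hm, Finset.filter_filter]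
      refine le_trans (le_of_eq ?_) (hdeg u hu hfirst)
      apply congrArg Finset.card
      apply Finset.filter_congr
      intro v _
      tauto
    · intro W hW
      rw [sdiff_NB' h m hm hh U r] at hW
      obtain ⟨V, hVs, rfl⟩ := subset_im _ W hW
      rw [card_im]
      exact ihV V hVs N

end Pool.Agent.SWK
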